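import Pool.Agent.Lib.MP_ef3f0f_gt.U.J.Spec

set_option autoImplicit false
set_option linter.unusedSectionVars false

/-!
# MP_ef3f0f_gt, Theorem U, Part J: averages over one-parameter subgroups, defect identity (helper26)
-/

namespace Pool.Agent.MPEF.U

open MeasureTheory Topology
open scoped ENNReal Pointwise

section gen

variable {X A : Type} [MeasurableSpace X] [MeasurableSpace A]

private theorem aa_int {μ : Measure X} {u F : X → ℝ} (hu : Integrable u μ) (hF : Measurable F)
    {C : ℝ} (hC : ∀ x, |F x| ≤ C) : Integrable (fun x => u x * F x) μ :=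
  hu.mul_bdd (c := C) hF.aestronglyMeasurable (Filter.Eventually.of_forall fun x => by
    rw [Real.norm_eq_abs]; exact hC x)

private theorem aa_fub {μ : Measure X} {α : Measure A} [SFinite μ] [SFinite α] {u : X → ℝ}
    {w : A → ℝ} (hu : Integrable u μ) (hw : Integrable w α) {F : X × A → ℝ} (hF : Measurable F)
    {C : ℝ} (hC : ∀ z, |F z| ≤ C) :
    ∫ x, u x * ∫ a, w a * F (x, a) ∂α ∂μ = ∫ a, w a * ∫ x, u x * F (x, a) ∂μ ∂α := by
  have h1 : Integrable (fun z : X × A => u z.1 * w z.2 * F z) (μ.prod α) :=
    aa_int (hu.mul_prod hw) hF hC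
  have h2 := integral_integral_swap (f := fun x a => u x * w a * F (x, a)) h1
  have e1 : ∀ x, u x * ∫ a, w a * F (x, a) ∂α = ∫ a, u x * w a * F (x, a) ∂α := by
    intro x
    rw [← integral_const_mul]
    apply integral_congr_ae
    filter_upwards with a
    ring
  have e2 : ∀ a, w a * ∫ x, u x * F (x, a) ∂μ = ∫ x, u x * w a * F (x, a) ∂μ := by
    intro a
    rw [← integral_const_mul]
    apply integral_congr_ae
    filter_upwards with x
    ring
  simp only [e1, e2]
  exact h2

/-- Fubini with the weight `1` on the second factor. -/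
private theorem aa_fub1 {μ : Measure X} {α : Measure A} [SFinite μ] [IsFiniteMeasure α]
    {u : X → ℝ} (hu : Integrable u μ) {F : X × A → ℝ} (hF : Measurable F)
    {C : ℝ} (hC : ∀ z, |F z| ≤ C) :
    ∫ x, u x * ∫ a, F (x, a) ∂α ∂μ = ∫ a, ∫ x, u x * F (x, a) ∂μ ∂α := by
  have h := aa_fub (α := α) (w := fun _ => (1 : ℝ)) hu (integrable_const 1) hF hC
  simp only [one_mul] at h
  exact h

end gen

/-! ## Real analysis: an even function of `t - s` with the quadratic triangle inequality -/

private theorem aa_real (d : ℝ → ℝ) (hd : Measurable d) (C : ℝ) (hC : ∀ u, |d u| ≤ C)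
    (h0 : ∀ u, 0 ≤ d u) (hev : ∀ u, d (-u) = d u) (htri : ∀ u v, d (u + v) ≤ 2 * d u + 2 * d v)
    (Δ : ℝ) (hΔ : ∫ t in Set.Icc (0 : ℝ) 1, ∫ s in Set.Icc (0 : ℝ) 1, d (s - t) = 2 * Δ) :
    ∀ r : ℝ, |r| ≤ 1 → d r ≤ 64 * Δ := by
  obtain ⟨g, hg⟩ : ∃ g : ℝ → ℝ, g = fun t => ∫ s in Set.Icc (0 : ℝ) 1, d (s - t) := ⟨_, rfl⟩
  have hα : (volume : Measure ℝ).real (Set.Icc 0 1) = 1 := by
    rw [Real.volume_real_Icc]
    norm_num
  have hg' : ∀ t, g t = ∫ s in Set.Icc (0 : ℝ) 1, d (s - t) := fun t => by rw [hg]
  have hgm : Measurable g := by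
    rw [hg]
    apply StronglyMeasurable.measurable
    apply StronglyMeasurable.integral_prod_right (f := fun t s => d (s - t))
    apply Measurable.stronglyMeasurable
    exact hd.comp (measurable_snd.sub measurable_fst)
  have hg0 : ∀ t, 0 ≤ g t := fun t => by
    rw [hg' t]
    exact integral_nonneg fun s => h0 _
  have hds : ∀ t, IntegrableOn (fun s => d (s - t)) (Set.Icc (0 : ℝ) 1) := by
    intro t
    apply Measure.integrableOn_of_bounded (M := C)
    · rw [Real.volume_Icc]
      exact ENNReal.ofReal_ne_top
    · exact (hd.comp (measurable_id.sub_const t)).aestronglyMeasurable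
    · filter_upwards with s
      rw [Real.norm_eq_abs]
      exact hC _
  have hgC : ∀ t, |g t| ≤ C := by
    intro t
    rw [hg' t, ← Real.norm_eq_abs]
    have h1 := norm_setIntegral_le_of_norm_le_const (μ := volume) (s := Set.Icc (0 : ℝ) 1)
      (f := fun s => d (s - t)) (C := C) (by rw [Real.volume_Icc]; exact ENNReal.ofReal_lt_top)
      (fun s _ => by rw [Real.norm_eq_abs]; exact hC _)
    rw [hα, mul_one] at h1
    exact h1
  have hgi : ∀ a b : ℝ, IntervalIntegrable g volume a b := by
    intro a b
    rw [intervalIntegrable_iff]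
    apply Measure.integrableOn_of_bounded (M := C)
    · rw [Set.uIoc, Real.volume_Ioc]
      exact ENNReal.ofReal_ne_top
    · exact hgm.aestronglyMeasurable
    · filter_upwards with s
      rw [Real.norm_eq_abs]
      exact hgC _
  have hgI : ∫ t in (0 : ℝ)..1, g t = 2 * Δ := by
    rw [intervalIntegral.integral_of_le zero_le_one, ← integral_Icc_eq_integral_Ioc, ← hΔ, hg]
  -- the main inequality
  have hmain : ∀ r t, d r ≤ 2 * g (r + t) + 2 * g t := by
    intro r t
    have h1 : ∫ s in Set.Icc (0 : ℝ) 1, d r ≤
        ∫ s in Set.Icc (0 : ℝ) 1, (2 * d (s - (r + t)) + 2 * d (s - t)) := by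
      apply integral_mono
      · exact integrable_const _
      · exact ((hds (r + t)).const_mul 2).add ((hds t).const_mul 2)
      · intro s
        have h2 := htri (-(s - (r + t))) (s - t)
        rw [hev] at h2
        have h3 : -(s - (r + t)) + (s - t) = r := by ring
        rw [h3] at h2
        exact h2
    rw [setIntegral_const, hα, one_smul, integral_add, integral_const_mul, integral_const_mul,
      ← hg', ← hg'] at h1
    · exact h1
    · exact (hds (r + t)).const_mul 2
    · exact (hds t).const_mul 2
  have hhalf : ∀ r, 0 ≤ r → r ≤ 1 / 2 → d r ≤ 16 * Δ := by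
    intro r hr0 hr1
    have h1 : ∫ t in (0 : ℝ)..(1 / 2), d r ≤
        ∫ t in (0 : ℝ)..(1 / 2), (2 * g (r + t) + 2 * g t) := by
      apply intervalIntegral.integral_mono (by norm_num)
      · exact intervalIntegrable_const
      · apply IntervalIntegrable.add
        · apply IntervalIntegrable.const_mul
          have := (hgi (r + 0) (r + 1 / 2)).comp_add_left r
          simpa using this
        · exact (hgi _ _).const_mul 2
      · intro t
        exact hmain r t
    have hi1 : IntervalIntegrable (fun t => 2 * g (r + t)) volume 0 (1 / 2) := by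
      apply IntervalIntegrable.const_mul
      have := (hgi (r + 0) (r + 1 / 2)).comp_add_left r
      simpa using this
    rw [intervalIntegral.integral_const, intervalIntegral.integral_add hi1 ((hgi _ _).const_mul 2),
      intervalIntegral.integral_const_mul, intervalIntegral.integral_const_mul,
      intervalIntegral.integral_comp_add_left (fun t => g t) r] at h1
    have h2 : ∫ t in (r + 0)..(r + 1 / 2), g t ≤ ∫ t in (0 : ℝ)..1, g t := by
      apply intervalIntegral.integral_mono_interval
      · linarith
      · linarith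
      · linarith
      · filter_upwards with t
        exact hg0 t
      · exact hgi _ _
    have h3 : ∫ t in (0 : ℝ)..(1 / 2), g t ≤ ∫ t in (0 : ℝ)..1, g t := by
      apply intervalIntegral.integral_mono_interval
      · linarith
      · norm_num
      · norm_num
      · filter_upwards with t
        exact hg0 t
      · exact hgi _ _
    rw [hgI] at h2 h3
    rw [smul_eq_mul] at h1
    linarith
  have hone : ∀ r, 0 ≤ r → r ≤ 1 → d r ≤ 64 * Δ := by
    intro r hr0 hr1
    have h1 := htri (r / 2) (r / 2)
    rw [add_halves] at h1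
    have h2 := hhalf (r / 2) (by linarith) (by linarith)
    linarith
  intro r hr
  rcases le_total 0 r with h | h
  · exact hone r h ((le_abs_self r).trans hr)
  · rw [← hev]
    exact hone (-r) (by linarith) ((neg_le_abs r).trans hr)

section main

variable {P H : Type} [Group P] [Group H] [TopologicalSpace P] [TopologicalSpace H]
  [IsTopologicalGroup P] [IsTopologicalGroup H] [LocallyCompactSpace P] [LocallyCompactSpace H]
  [T2Space P] [T2Space H] [SecondCountableTopology P] [SecondCountableTopology H]
  [MeasurableSpace P] [MeasurableSpace H] [BorelSpace P] [BorelSpace H]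

private theorem aa_BI {D : Dat P H} {e : ℝ → P} (he : Continuous e) {f : P × H → ℝ}
    (hf : BI D f) : BI D (AA e f) := by
  obtain ⟨C, hC⟩ := hf.bdd
  have hα : (volume : Measure ℝ).real (Set.Icc 0 1) = 1 := by
    rw [Real.volume_real_Icc]
    norm_num
  have hι : Measurable fun t : ℝ => ((e t, (1 : H)) : P × H) :=
    he.measurable.prodMk measurable_const
  refine ⟨?_, ⟨C, ?_⟩, ?_⟩
  · apply StronglyMeasurable.measurable
    apply StronglyMeasurable.integral_prod_right (f := fun x t => f (x * (e t, (1 : H))))
    apply Measurable.stronglyMeasurable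
    exact hf.meas.comp (measurable_fst.mul (hι.comp measurable_snd))
  · intro x
    rw [← Real.norm_eq_abs]
    have h1 := norm_setIntegral_le_of_norm_le_const (μ := volume) (s := Set.Icc (0 : ℝ) 1)
      (f := fun t => f (x * (e t, (1 : H)))) (C := C)
      (by rw [Real.volume_Icc]; exact ENNReal.ofReal_lt_top)
      (fun s _ => by rw [Real.norm_eq_abs]; exact hC _)
    rw [hα, mul_one] at h1
    exact h1
  · intro γ hγ x
    unfold AA
    apply integral_congr_ae
    filter_upwards with t
    rw [mul_assoc γ x, hf.inv γ hγ]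

/-- The Fubini formula for the inner product. -/
private theorem aa_ip {D : Dat P H} [SFinite D.μ]
    (hχ : Integrable (fun x => (D.χ x).toReal) D.μ) {e : ℝ → P} (he : Continuous e)
    {φ f : P × H → ℝ} (hφ : BI D φ) (hf : BI D f) (g₀ : P) :
    ip D φ (rho g₀ (AA e f)) = ∫ t in Set.Icc (0 : ℝ) 1, ip D φ (rho (g₀ * e t) f) := by
  obtain ⟨C, hC⟩ := hf.bdd
  obtain ⟨C', hC'⟩ := hφ.bdd
  have hι : Measurable fun t : ℝ => ((g₀ * e t, (1 : H)) : P × H) :=
    ((measurable_const_mul g₀).comp he.measurable).prodMk measurable_const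
  have h1 := aa_fub1 (μ := D.μ) (α := (volume : Measure ℝ).restrict (Set.Icc 0 1)) hχ
    (F := fun z : (P × H) × ℝ => φ z.1 * f (z.1 * (g₀ * e z.2, (1 : H))))
    ((hφ.meas.comp measurable_fst).mul
      (hf.meas.comp (measurable_fst.mul (hι.comp measurable_snd)))) (C := C' * C) (by
        intro z
        rw [abs_mul]
        exact mul_le_mul (hC' _) (hC _) (abs_nonneg _) ((abs_nonneg _).trans (hC' z.1)))
  simp only at h1
  have e2 : ∀ t, ∫ x, (D.χ x).toReal * (φ x * f (x * (g₀ * e t, (1 : H)))) ∂D.μ =
      ip D φ (rho (g₀ * e t) f) := fun t => rfl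
  simp only [e2] at h1
  rw [← h1]
  unfold ip rho AA
  apply integral_congr_ae
  filter_upwards with x
  congr 1
  rw [← integral_const_mul]
  apply integral_congr_ae
  filter_upwards with t
  congr 2
  rw [mul_assoc]
  congr 1
  apply Prod.ext
  · rfl
  · simp

end main

variable (P H : Type) [Group P] [Group H] [TopologicalSpace P] [TopologicalSpace H]
  [IsTopologicalGroup P] [IsTopologicalGroup H] [LocallyCompactSpace P] [LocallyCompactSpace H]
  [T2Space P] [T2Space H] [SecondCountableTopology P] [SecondCountableTopology H]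
  [MeasurableSpace P] [MeasurableSpace H] [BorelSpace P] [BorelSpace H]

theorem tAAJ : S_inst P H → S_BI P H → S_rho P H → S_AAJ P H := by
  intro hinst hBI hrho D hD e he hadd
  obtain ⟨s1, s2, s3, _, _, _, _, _, _⟩ := hinst D hD
  obtain ⟨b1, b2, b3, b4, b5, b6, b7, b8, b9, b10, b11, b12, b13, b14, b15, b16, b17⟩ := hBI D hD
  obtain ⟨r1, r2, r3, r4, r5, r6, r7, _, r9, r10⟩ := hrho D hD
  have hχint : Integrable (fun x => (D.χ x).toReal) D.μ := by
    apply integrable_toReal_of_lintegral_ne_top hD.χm.aemeasurable
    rw [hD.mass]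
    exact ENNReal.one_ne_top
  have hνm : Measurable D.ν := hD.νc.measurable
  have hνi : Integrable (fun h => (D.ν h).toReal) D.μ₂ := by
    apply integrable_toReal_of_lintegral_ne_top hνm.aemeasurable
    rw [hD.νint]
    exact ENNReal.one_ne_top
  have hα : (volume : Measure ℝ).real (Set.Icc 0 1) = 1 := by
    rw [Real.volume_real_Icc]
    norm_num
  have hαt : (volume : Measure ℝ) (Set.Icc 0 1) < ∞ := by
    rw [Real.volume_Icc]
    exact ENNReal.ofReal_lt_top
  have hι : Measurable fun t : ℝ => ((e t, (1 : H)) : P × H) :=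
    he.measurable.prodMk measurable_const
  have hιH : Measurable fun h : H => (((1 : P), h) : P × H) := measurable_const.prodMk measurable_id
  have hfub : ∀ φ f, BI D φ → BI D f → ∀ g₀ : P,
      ip D φ (rho g₀ (AA e f)) = ∫ t in Set.Icc (0 : ℝ) 1, ip D φ (rho (g₀ * e t) f) :=
    fun φ f hφ hf g₀ => aa_ip hχint he hφ hf g₀
  have hfub1 : ∀ φ f, BI D φ → BI D f →
      ip D φ (AA e f) = ∫ t in Set.Icc (0 : ℝ) 1, ip D φ (rho (e t) f) := by
    intro φ f hφ hf
    have h := hfub φ f hφ hf 1
    rw [r6] at h
    simp only [one_mul] at h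
    exact h
  have he0 : e 0 = 1 := by
    have h := hadd 0 0
    rw [add_zero] at h
    exact (mul_eq_left.1 h.symm)
  have heneg : ∀ t, e (-t) = (e t)⁻¹ := by
    intro t
    have h := hadd (-t) t
    rw [neg_add_cancel, he0] at h
    exact eq_inv_of_mul_eq_one_left h.symm
  have hKt : ∀ f, BI D f → ∀ s t : ℝ,
      ip D (rho (e s) f) (rho (e t) f) = ip D f (rho (e (t - s)) f) := by
    intro f hf s t
    have h1 : rho (e t) f = rho (e s) (rho (e (t - s)) f) := by
      rw [r7, ← hadd, add_sub_cancel]
    rw [h1, r3 _ _ _ hf (r1 _ _ hf)]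
  -- the analysis for one function
  have hmain : ∀ f, BI D f →
      ns D (AA e f) ≤ ns D f ∧
      (∀ r : ℝ, |r| ≤ 1 →
        ns D (fun x => rho (e r) f x - f x) ≤ 64 * (ns D f - ns D (AA e f))) ∧
      ns D (fun x => AA e f x - f x) ≤ 64 * (ns D f - ns D (AA e f)) := by
    intro f hf
    obtain ⟨C, hC⟩ := hf.bdd
    obtain ⟨k, hk⟩ : ∃ k : ℝ → ℝ, k = fun u => ip D f (rho (e u) f) := ⟨_, rfl⟩
    obtain ⟨d, hdd⟩ : ∃ d : ℝ → ℝ, d = fun u => ns D (fun x => rho (e u) f x - f x) := ⟨_, rfl⟩
    have hk' : ∀ u, k u = ip D f (rho (e u) f) := fun u => by rw [hk]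
    have hd' : ∀ u, d u = ns D (fun x => rho (e u) f x - f x) := fun u => by rw [hdd]
    have hAf := aa_BI (D := D) he hf
    have hdk : ∀ u, d u = 2 * ns D f - 2 * k u := by
      intro u
      rw [hd', hk']
      have ht := r1 (e u) f hf
      have hs := (b1 (rho (e u) f) f ht hf).2
      have h2 : ip D (rho (e u) f) (rho (e u) f) = ip D f f := r3 _ _ _ hf hf
      unfold ns
      rw [b8 (rho (e u) f) f _ ht hf hs, b6 (rho (e u) f), b6 f (fun x => rho (e u) f x - f x),
        b8 (rho (e u) f) f _ ht hf ht, b8 (rho (e u) f) f _ ht hf hf, h2, b6 f (rho (e u) f)]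
      ring
    have hkm : Measurable k := by
      rw [hk]
      apply StronglyMeasurable.measurable
      unfold ip rho
      apply StronglyMeasurable.integral_prod_right
        (f := fun u x => (D.χ x).toReal * (f x * f (x * (e u, (1 : H)))))
      apply Measurable.stronglyMeasurable
      exact ((hD.χm.ennreal_toReal).comp measurable_snd).mul
        ((hf.meas.comp measurable_snd).mul
          (hf.meas.comp (measurable_snd.mul (hι.comp measurable_fst))))
    have hkb : ∀ u, |k u| ≤ ns D f := by
      intro u
      have h1 := b11 f (rho (e u) f) hf (r1 _ _ hf)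
      rw [r2 _ _ hf, ← sq, ← hk'] at h1
      exact abs_le_of_sq_le_sq h1 (b10 f)
    have hdm : Measurable d := by
      have h1 : d = fun u => 2 * ns D f - 2 * k u := funext hdk
      rw [h1]
      exact (hkm.const_mul 2).const_sub _
    have hd0 : ∀ u, 0 ≤ d u := fun u => by
      rw [hd']
      exact b10 _
    have hdC : ∀ u, |d u| ≤ 4 * ns D f := by
      intro u
      rw [abs_of_nonneg (hd0 u), hdk]
      have := (abs_le.1 (hkb u)).1
      linarith
    have hkev : ∀ u, k (-u) = k u := by
      intro u
      have h1 := hKt f hf u 0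
      rw [zero_sub, he0, r6, b6, ← hk', ← hk'] at h1
      exact h1.symm
    have hdev : ∀ u, d (-u) = d u := fun u => by rw [hdk, hdk, hkev]
    have htri : ∀ u v, d (u + v) ≤ 2 * d u + 2 * d v := by
      intro u v
      have hu := r1 (e u) f hf
      have hv := r1 (e v) f hf
      have hdv := (b1 (rho (e v) f) f hv hf).2
      have hdu := (b1 (rho (e u) f) f hu hf).2
      have h1 : (fun x => rho (e (u + v)) f x - f x) =
          fun x => rho (e u) (fun x => rho (e v) f x - f x) x -
            ((-1 : ℝ) * (rho (e u) f x - f x)) := by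
        funext x
        rw [r10, r7, ← hadd]
        ring
      have h2 := b13 (rho (e u) (fun x => rho (e v) f x - f x))
        (fun x => (-1 : ℝ) * (rho (e u) f x - f x)) (r1 _ _ hdv) (b2 (-1) _ hdu)
      have h3 : ns D (fun x => (-1 : ℝ) * (rho (e u) f x - f x)) =
          ns D (fun x => rho (e u) f x - f x) := by
        unfold ns
        rw [b9, b6, b9]
        ring
      rw [r2 _ _ hdv, h3, ← h1, ← hd', ← hd', ← hd'] at h2
      linarith
    have hki : ∀ t, IntegrableOn (fun s => k (s - t)) (Set.Icc (0 : ℝ) 1) := by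
      intro t
      apply Measure.integrableOn_of_bounded (M := ns D f)
      · exact hαt.ne
      · exact (hkm.comp (measurable_id.sub_const t)).aestronglyMeasurable
      · filter_upwards with s
        rw [Real.norm_eq_abs]
        exact hkb _
    have hkiI : IntegrableOn k (Set.Icc (0 : ℝ) 1) := by
      have := hki 0
      simpa using this
    -- the defect identity
    have hnsA : ns D (AA e f) =
        ∫ t in Set.Icc (0 : ℝ) 1, ∫ s in Set.Icc (0 : ℝ) 1, k (s - t) := by
      unfold ns
      rw [hfub1 (AA e f) f hAf hf]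
      apply integral_congr_ae
      filter_upwards with t
      rw [b6, hfub1 (rho (e t) f) f (r1 _ _ hf) hf]
      apply integral_congr_ae
      filter_upwards with s
      rw [hKt f hf, hk']
    obtain ⟨G, hG⟩ : ∃ G : ℝ → ℝ, G = fun t => ∫ s in Set.Icc (0 : ℝ) 1, k (s - t) := ⟨_, rfl⟩
    have hG' : ∀ t, G t = ∫ s in Set.Icc (0 : ℝ) 1, k (s - t) := fun t => by rw [hG]
    have hGi : IntegrableOn G (Set.Icc (0 : ℝ) 1) := by
      apply Measure.integrableOn_of_bounded (M := ns D f)
      · exact hαt.ne
      · rw [hG]
        apply Measurable.aestronglyMeasurable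
        apply StronglyMeasurable.measurable
        apply StronglyMeasurable.integral_prod_right (f := fun t s => k (s - t))
        apply Measurable.stronglyMeasurable
        exact hkm.comp (measurable_snd.sub measurable_fst)
      · filter_upwards with t
        rw [hG' t]
        have h1 := norm_setIntegral_le_of_norm_le_const (μ := volume) (s := Set.Icc (0 : ℝ) 1)
          (f := fun s => k (s - t)) (C := ns D f) hαt
          (fun s _ => by rw [Real.norm_eq_abs]; exact hkb _)
        rw [hα, mul_one] at h1
        exact h1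
    have hΔ : ∫ t in Set.Icc (0 : ℝ) 1, ∫ s in Set.Icc (0 : ℝ) 1, d (s - t) =
        2 * (ns D f - ns D (AA e f)) := by
      have h1 : ∀ t, ∫ s in Set.Icc (0 : ℝ) 1, d (s - t) = 2 * ns D f - 2 * G t := by
        intro t
        simp only [hdk]
        rw [integral_sub (integrable_const _) ((hki t).const_mul 2), setIntegral_const, hα,
          one_smul, integral_const_mul, ← hG']
      simp only [h1]
      rw [integral_sub (integrable_const _) (hGi.const_mul 2), setIntegral_const, hα, one_smul,
        integral_const_mul, hnsA, hG]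
      ring
    have hreal := aa_real d hdm _ hdC hd0 hdev htri _ hΔ
    have hle : ns D (AA e f) ≤ ns D f := by
      have h1 : 0 ≤ ∫ t in Set.Icc (0 : ℝ) 1, ∫ s in Set.Icc (0 : ℝ) 1, d (s - t) :=
        integral_nonneg fun t => integral_nonneg fun s => hd0 _
      rw [hΔ] at h1
      linarith
    refine ⟨hle, ?_, ?_⟩
    · intro r hr
      rw [← hd']
      exact hreal r hr
    · -- `AA e f - f`
      have hipA : ip D f (AA e f) = ∫ t in Set.Icc (0 : ℝ) 1, k t := by
        rw [hfub1 f f hf hf, hk]
      have h2 : ns D (fun x => AA e f x - f x) = ns D (AA e f) + ns D f - 2 * ip D f (AA e f) := by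
        have hs := (b1 (AA e f) f hAf hf).2
        unfold ns
        rw [b8 (AA e f) f _ hAf hf hs, b6 (AA e f), b6 f (fun x => AA e f x - f x),
          b8 (AA e f) f _ hAf hf hAf, b8 (AA e f) f _ hAf hf hf, b6 (AA e f) f]
        ring
      have h3 : ∫ t in Set.Icc (0 : ℝ) 1, d t = 2 * ns D f - 2 * ip D f (AA e f) := by
        simp only [hdk]
        rw [integral_sub (integrable_const _) (hkiI.const_mul 2), setIntegral_const, hα, one_smul,
          integral_const_mul, hipA]
      have h4 : ∫ t in Set.Icc (0 : ℝ) 1, d t ≤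
          ∫ _t in Set.Icc (0 : ℝ) 1, 64 * (ns D f - ns D (AA e f)) := by
        apply setIntegral_mono_on
        · apply Measure.integrableOn_of_bounded (M := 4 * ns D f)
          · exact hαt.ne
          · exact hdm.aestronglyMeasurable
          · filter_upwards with s
            rw [Real.norm_eq_abs]
            exact hdC _
        · exact integrable_const _
        · exact measurableSet_Icc
        · intro t ht
          apply hreal
          rw [abs_of_nonneg ht.1]
          exact ht.2
      rw [setIntegral_const, hα, one_smul, h3] at h4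
      rw [h2]
      linarith
  refine ⟨?_, fun f hf => ⟨(hmain f hf).2.1, (hmain f hf).2.2⟩⟩
  intro f hf
  have hAf := aa_BI (D := D) he hf
  obtain ⟨C, hC⟩ := hf.bdd
  refine ⟨hAf, (hmain f hf).1, ?_, ?_, ?_⟩
  · rw [b15, b15 f, b6, hfub1 _ f (b3 1) hf]
    have h1 : ∀ t : ℝ, ip D (fun _ => 1) (rho (e t) f) = ip D f fun _ => 1 := by
      intro t
      rw [b6, ← b15, ← b15, r4 _ _ hf]
    simp only [h1]
    rw [setIntegral_const, hα, one_smul]
  · funext x
    unfold TTJ AA
    have h1 := aa_fub1 (μ := D.μ₂) (α := (volume : Measure ℝ).restrict (Set.Icc 0 1)) hνi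
      (F := fun z : H × ℝ => f (x * ((1 : P), z.1) * (e z.2, (1 : H))))
      (hf.meas.comp (((hιH.comp measurable_fst).const_mul x).mul (hι.comp measurable_snd)))
      (C := C) (fun z => hC _)
    simp only at h1
    rw [h1]
    apply integral_congr_ae
    filter_upwards with t
    apply integral_congr_ae
    filter_upwards with h
    congr 2
    rw [mul_assoc, mul_assoc]
    congr 1
    apply Prod.ext
    · simp
    · simp
  · intro φ hφ g₀ c ε h
    rw [hfub φ f hφ hf g₀]
    obtain ⟨J, hJ⟩ : ∃ J : ℝ → ℝ, J = fun t => ip D φ (rho (g₀ * e t) f) := ⟨_, rfl⟩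
    have hJ' : ∀ t, J t = ip D φ (rho (g₀ * e t) f) := fun t => by rw [hJ]
    have hιg : Measurable fun t : ℝ => ((g₀ * e t, (1 : H)) : P × H) :=
      ((measurable_const_mul g₀).comp he.measurable).prodMk measurable_const
    have hJm : Measurable J := by
      rw [hJ]
      apply StronglyMeasurable.measurable
      unfold ip rho
      apply StronglyMeasurable.integral_prod_right
        (f := fun u x => (D.χ x).toReal * (φ x * f (x * (g₀ * e u, (1 : H)))))
      apply Measurable.stronglyMeasurable
      exact ((hD.χm.ennreal_toReal).comp measurable_snd).mul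
        ((hφ.meas.comp measurable_snd).mul
          (hf.meas.comp (measurable_snd.mul (hιg.comp measurable_fst))))
    have hJε : ∀ t ∈ Set.Icc (0 : ℝ) 1, |J t - c| ≤ ε := by
      intro t ht
      rw [hJ']
      exact h (e t) ⟨t, ht, rfl⟩
    have hJi : IntegrableOn J (Set.Icc (0 : ℝ) 1) := by
      apply Measure.integrableOn_of_bounded (M := |c| + ε)
      · exact hαt.ne
      · exact hJm.aestronglyMeasurable
      · rw [ae_restrict_iff' measurableSet_Icc]
        filter_upwards with t ht
        rw [Real.norm_eq_abs]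
        have h1 := hJε t ht
        have h2 : J t = c + (J t - c) := by ring
        rw [h2]
        exact (abs_add_le _ _).trans (by linarith)
    have h1 : ∫ t in Set.Icc (0 : ℝ) 1, (J t - c) = (∫ t in Set.Icc (0 : ℝ) 1, J t) - c := by
      rw [integral_sub hJi (integrable_const _), setIntegral_const, hα, one_smul]
    simp only [← hJ']
    rw [← h1, ← Real.norm_eq_abs]
    have h2 := norm_setIntegral_le_of_norm_le_const (μ := volume) (s := Set.Icc (0 : ℝ) 1)
      (f := fun t => J t - c) (C := ε) hαt
      (fun s hs => by rw [Real.norm_eq_abs]; exact hJε s hs)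
    rw [hα, mul_one] at h2
    exact h2

end Pool.Agent.MPEF.U
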