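import Pool.Agent.Lib.MP_ef3f0f_gt.U.J.Spec

set_option autoImplicit false
set_option linter.unusedSectionVars false

/-!
# MP_ef3f0f_gt, Theorem U, Part J: composition of averages (helper26)
-/

namespace Pool.Agent.MPEF.U

open MeasureTheory Topology
open scoped ENNReal Pointwise

variable (P H : Type) [Group P] [Group H] [TopologicalSpace P] [TopologicalSpace H]
  [IsTopologicalGroup P] [IsTopologicalGroup H] [LocallyCompactSpace P] [LocallyCompactSpace H]
  [T2Space P] [T2Space H] [SecondCountableTopology P] [SecondCountableTopology H]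
  [MeasurableSpace P] [MeasurableSpace H] [BorelSpace P] [BorelSpace H]

theorem tAVc : S_BI P H → S_rho P H → S_AAJ P H → S_AVc P H := by
  intro _hBI hrho hAA D hD
  obtain ⟨r1, r2, _, r4, r5, r6, r7, _, _, _⟩ := hrho D hD
  have hcomp : ∀ Q Q' S S', AV D Q S → AV D Q' S' → AV D (fun f => Q (Q' f)) (S * S') := by
    intro Q Q' S S' hQ hQ' f hf
    obtain ⟨a1, a2, a3, a4, a5⟩ := hQ' f hf
    obtain ⟨b1, b2, b3, b4, b5⟩ := hQ (Q' f) a1
    refine ⟨b1, b2.trans a2, b3.trans a3, ?_, ?_⟩
    · rw [b4, a4]
    · intro φ hφ g₀ c ε h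
      apply b5 φ hφ g₀ c ε
      intro s hs
      apply a5 φ hφ (g₀ * s) c ε
      intro s' hs'
      rw [mul_assoc]
      exact h (s * s') (Set.mul_mem_mul hs hs')
  have hone : ∀ g : P, AV D (rho g) {g} := by
    intro g f hf
    refine ⟨r1 g f hf, (r2 g f hf).le, r4 g f hf, r5 g f hf, ?_⟩
    intro φ _ g₀ c ε h
    rw [r7]
    exact h g rfl
  have hid : AV D (fun f => f) 1 := by
    have h := hone 1
    have h1 : (rho (1 : P) : (P × H → ℝ) → P × H → ℝ) = fun f => f := by
      funext f
      exact r6 f
    rw [h1] at h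
    exact h
  refine ⟨hcomp, hone, ?_, ?_⟩
  · intro Q S hQ m
    induction m with
    | zero =>
      rw [pow_zero]
      exact hid
    | succ m ih =>
      rw [pow_succ']
      have h := hcomp Q (Q^[m]) S (S ^ m) hQ ih
      have h1 : Q^[m + 1] = fun f => Q (Q^[m] f) := by
        funext f
        exact Function.iterate_succ_apply' Q m f
      rw [h1]
      exact h
  · intro X hX
    have key : ∀ l : List (ℝ → P), (∀ e ∈ l, Continuous e) →
        (∀ e ∈ l, ∀ s t, e (s + t) = e s * e t) →
        AV D (fun f : P × H → ℝ => l.foldr (fun e f => AA e f) f)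
          (l.map fun e => e '' Set.Icc (0 : ℝ) 1).prod := by
      intro l
      induction l with
      | nil =>
        intro _ _
        exact hid
      | cons e l ih =>
        intro hc ha
        rw [List.map_cons, List.prod_cons]
        exact hcomp (AA e) (fun f => l.foldr (fun e f => AA e f) f) _ _
          (hAA D hD e (hc e List.mem_cons_self) (ha e List.mem_cons_self)).1
          (ih (fun e' he' => hc e' (List.mem_cons_of_mem e he'))
            (fun e' he' => ha e' (List.mem_cons_of_mem e he')))
    exact key X.e hX.ec hX.ea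

end Pool.Agent.MPEF.U
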