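import Pool.Agent.Lib.MP_ef3f0f_gt.U.J.Spec

set_option autoImplicit false
set_option linter.unusedSectionVars false

/-!
# MP_ef3f0f_gt, Theorem U, Part J: equidistribution (`S_EquiU`)
-/

namespace Pool.Agent.MPEF.U

open MeasureTheory Topology
open scoped ENNReal Pointwise

variable (P H : Type) [Group P] [Group H] [TopologicalSpace P] [TopologicalSpace H]
  [IsTopologicalGroup P] [IsTopologicalGroup H] [LocallyCompactSpace P] [LocallyCompactSpace H]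
  [T2Space P] [T2Space H] [SecondCountableTopology P] [SecondCountableTopology H]
  [MeasurableSpace P] [MeasurableSpace H] [BorelSpace P] [BorelSpace H]

private theorem EquiU_fin (μ : Measure P) (hμ : μ.IsHaarMeasure) (k : P → ℝ≥0∞) (hk : KB k) :
    ∫⁻ q, k q ∂μ ≠ ∞ := by
  obtain ⟨C, hC, hb⟩ := hk.bdd
  obtain ⟨K, hK, hs⟩ := hk.supp
  have h1 : ∫⁻ q, k q ∂μ ≤ ∫⁻ q, K.indicator (fun _ => C) q ∂μ := by
    refine lintegral_mono fun q => ?_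
    by_cases hq : q ∈ K
    · rw [Set.indicator_of_mem hq]; exact hb q
    · rw [Set.indicator_of_notMem hq, hs q hq]
  rw [lintegral_indicator hK.measurableSet, setLIntegral_const] at h1
  exact (lt_of_le_of_lt h1 (ENNReal.mul_lt_top hC.lt_top hK.measure_lt_top)).ne

private theorem EquiU_nice (X : BX P) (hX : X.Ok) : NiceOk X.NK where
  meas := fun _ hk => hk.1.meas
  bdd := fun _ hk => hk.1.bdd
  supp := fun _ hk => hk.1.supp
  sep := by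
    intro Q O hQ hO hQO
    obtain ⟨V, hV, hQV, hVO, hVc⟩ := exists_open_between_and_isCompact_closure hQ hO hQO
    obtain ⟨k, hkc, hkl, hk1, hkQ, hkV⟩ := hX.sep Q V hQ hV hQV
    refine ⟨k, ⟨⟨hkc.measurable, ⟨1, ENNReal.one_ne_top, hk1⟩, ⟨closure V, hVc, ?_⟩⟩, hkl⟩, hkQ, ?_⟩
    · intro g hg
      exact hkV g fun h => hg (subset_closure h)
    · intro g hg
      exact hkV g fun h => hg (hVO (subset_closure h))

private theorem EquiU_kb (hinst : S_inst P H) (D : Dat P H) (hD : D.Ok) (g : P) (k₁ k₂ : P → ℝ≥0∞)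
    (h1 : KB k₁) (h2 : KB k₂) :
    Measurable (fun s => ∫⁻ q, k₁ q * k₂ (g⁻¹ * q⁻¹ * s) ∂D.μ₁) ∧
    (∃ C : ℝ≥0∞, C ≠ ∞ ∧ ∀ s, ∫⁻ q, k₁ q * k₂ (g⁻¹ * q⁻¹ * s) ∂D.μ₁ ≤ C) ∧
    (∃ K : Set P, IsCompact K ∧ ∀ s, s ∉ K → ∫⁻ q, k₁ q * k₂ (g⁻¹ * q⁻¹ * s) ∂D.μ₁ = 0) := by
  obtain ⟨hs, -⟩ := hinst D hD
  obtain ⟨C, hC, hb⟩ := h2.bdd
  obtain ⟨K₁, hK₁, hs₁⟩ := h1.supp
  obtain ⟨K₂, hK₂, hs₂⟩ := h2.supp
  refine ⟨?_, ?_, ?_⟩
  · have h3 : Measurable fun p : P × P => k₁ p.2 * k₂ (g⁻¹ * p.2⁻¹ * p.1) := by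
      refine (h1.meas.comp measurable_snd).mul (h2.meas.comp ?_)
      exact ((measurable_snd.inv).const_mul g⁻¹).mul measurable_fst
    exact h3.lintegral_prod_right'
  · refine ⟨(∫⁻ q, k₁ q ∂D.μ₁) * C, ENNReal.mul_ne_top (EquiU_fin P D.μ₁ hD.haar₁ k₁ h1) hC, ?_⟩
    intro s
    rw [← lintegral_mul_const _ h1.meas]
    exact lintegral_mono fun q => mul_le_mul_right (hb _) _
  · refine ⟨K₁ * ({g} * K₂), hK₁.mul (isCompact_singleton.mul hK₂), ?_⟩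
    intro s hs
    have h4 : ∀ q, k₁ q * k₂ (g⁻¹ * q⁻¹ * s) = 0 := by
      intro q
      by_cases hq : q ∈ K₁
      · have h5 : g⁻¹ * q⁻¹ * s ∉ K₂ := by
          intro h6
          apply hs
          refine ⟨q, hq, g * (g⁻¹ * q⁻¹ * s), ⟨g, rfl, _, h6, rfl⟩, ?_⟩
          simp only [mul_assoc, mul_inv_cancel_left]
        rw [hs₂ _ h5, mul_zero]
      · rw [hs₁ q hq, zero_mul]
    simp only [h4, lintegral_zero]

private theorem EquiU_LF (D : Dat P H) (X : BX P) (C C' : ℝ) (h : C ≤ C') (f : P × H → ℝ)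
    (hf : LF D X C f) : LF D X C' f where
  bi := hf.bi
  le := fun x => (hf.le x).trans h
  lip := fun η hη hη1 g hg x => (hf.lip η hη hη1 g hg x).trans
    (mul_le_mul_of_nonneg_right h hη.le)

/-- **Equidistribution.** -/
theorem tEquiU : S_inst P H → S_nu P H → S_Up P H → S_BI P H → S_rho P H → S_coef P H →
    S_lipN P H → S_mix P H → S_EquiU P H := by
  intro hinst _ hUp _ _ hcoef hlip hmix X hX
  refine ⟨EquiU_nice P X hX, ?_⟩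
  intro G hG D hD k₁ hk₁ k₂ hk₂
  obtain ⟨n3, -, n5, n6⟩ := hcoef D hD k₁ k₂ hk₁.1 hk₂.1
  obtain ⟨n3', -⟩ := hcoef D hD k₂ k₂ hk₂.1 hk₂.1
  obtain ⟨C₁, hC₁, l₁⟩ := hlip D hD X hX k₁ hk₁
  obtain ⟨C₂, hC₂, l₂⟩ := hlip D hD X hX k₂ hk₂
  obtain ⟨C, hC, hm⟩ := hmix D hD X hX (max C₁ C₂) (hC₁.trans (le_max_left _ _))
  obtain ⟨m1, m2, m3⟩ := EquiU_kb P H hinst D hD (G.a ^ 1) k₁ k₂ hk₁.1 hk₂.1
  obtain ⟨C', hC', hu⟩ := hUp D hD _ m1 m2 m3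
  have f1 : ∫⁻ q, k₁ q ∂D.μ₁ ≠ ∞ := EquiU_fin P D.μ₁ hD.haar₁ k₁ hk₁.1
  have f2 : ∫⁻ q, k₂ q ∂D.μ₁ ≠ ∞ := EquiU_fin P D.μ₁ hD.haar₁ k₂ hk₂.1
  set I₁ : ℝ≥0∞ := ∫⁻ q, k₁ q ∂D.μ₁ with hI₁
  set I₂ : ℝ≥0∞ := ∫⁻ q, k₂ q ∂D.μ₁ with hI₂
  refine ⟨ENNReal.ofReal C + C' + I₁ * I₂, ?_, ?_⟩
  · exact ENNReal.add_ne_top.2 ⟨ENNReal.add_ne_top.2 ⟨ENNReal.ofReal_ne_top, hC'⟩,
      ENNReal.mul_ne_top f1 f2⟩
  intro n hn x y
  rcases Nat.lt_or_ge n 2 with h2 | h2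
  · have h1 : n = 1 := by omega
    subst h1
    have h3 : D.N (D.ed G k₁ k₂ 1) x y ≤ C' := hu 1 x y
    rw [Nat.cast_one, inv_one, one_pow, mul_one]
    constructor
    · exact h3.trans (le_add_left (le_add_right le_add_self))
    · exact le_add_left le_add_self
  · obtain ⟨m, rfl⟩ : ∃ m, n = m + 2 := ⟨n - 2, by omega⟩
    have hval := n6 (G.a ^ (m + 2)) m x y
    have hfin : D.N (D.ed G k₁ k₂ (m + 2)) x y ≠ ∞ := n5 (G.a ^ (m + 2)) (m + 2) hn x y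
    have hmain := hm _ _ (EquiU_LF P H D X _ _ (le_max_left C₁ C₂) _ (l₁ x).1)
      (EquiU_LF P H D X _ _ (le_max_right C₁ C₂) _ (l₂ y).2) (m + 2) m hn le_rfl
    rw [← hG, ← hval, (n3 x).2.2.2, (n3' y).2.2.1] at hmain
    have hval' : (D.N (D.ed G k₁ k₂ (m + 2)) x y).toReal =
      (D.N (D.tk (fun s => ∫⁻ q, k₁ q * k₂ ((G.a ^ (m + 2))⁻¹ * q⁻¹ * s) ∂D.μ₁) (m + 2)) x y).toReal :=
      rfl
    rw [← hval'] at hmain
    set δ : ℝ := C * (((m + 2 : ℕ) : ℝ)⁻¹) ^ 6 with hδ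
    have hδ0 : 0 ≤ δ := by positivity
    have hδE : ENNReal.ofReal δ = ENNReal.ofReal C * (((m + 2 : ℕ) : ℝ≥0∞)⁻¹) ^ 6 := by
      rw [hδ, ENNReal.ofReal_mul hC, ENNReal.ofReal_pow (by positivity),
        ENNReal.ofReal_inv_of_pos (by positivity), ENNReal.ofReal_natCast]
    have hle : ENNReal.ofReal δ ≤
        (ENNReal.ofReal C + C' + I₁ * I₂) * (((m + 2 : ℕ) : ℝ≥0∞)⁻¹) ^ 6 := by
      rw [hδE]
      exact mul_le_mul_left (le_add_right le_self_add) _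
    have hII : I₁ * I₂ = ENNReal.ofReal (I₁.toReal * I₂.toReal) := by
      rw [ENNReal.ofReal_mul ENNReal.toReal_nonneg, ENNReal.ofReal_toReal f1,
        ENNReal.ofReal_toReal f2]
    have habs := abs_le.1 hmain
    constructor
    · refine le_trans ?_ (add_le_add le_rfl hle)
      rw [← ENNReal.ofReal_toReal hfin, hII, ← ENNReal.ofReal_add (by positivity) hδ0]
      exact ENNReal.ofReal_le_ofReal (by linarith [habs.2])
    · refine le_trans ?_ (add_le_add le_rfl hle)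
      rw [← ENNReal.ofReal_toReal hfin, hII, ← ENNReal.ofReal_add ENNReal.toReal_nonneg hδ0]
      exact ENNReal.ofReal_le_ofReal (by linarith [habs.1])

end Pool.Agent.MPEF.U
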