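import Pool.Agent.Lib.MP_ef3f0f_gt.U.J.Spec

set_option autoImplicit false
set_option linter.unusedSectionVars false

namespace Pool.Agent.MPEF.U

open MeasureTheory Topology
open scoped ENNReal Pointwise

section gen

variable {X A : Type} [MeasurableSpace X] [MeasurableSpace A]

private theorem tr_int {μ : Measure X} {u F : X → ℝ} (hu : Integrable u μ) (hF : Measurable F)
    {C : ℝ} (hC : ∀ x, |F x| ≤ C) : Integrable (fun x => u x * F x) μ :=
  hu.mul_bdd (c := C) hF.aestronglyMeasurable (Filter.Eventually.of_forall fun x => by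
    rw [Real.norm_eq_abs]; exact hC x)

private theorem tr_fub {μ : Measure X} {α : Measure A} [SFinite μ] [SFinite α] {u : X → ℝ}
    {w : A → ℝ} (hu : Integrable u μ) (hw : Integrable w α) {F : X × A → ℝ} (hF : Measurable F)
    {C : ℝ} (hC : ∀ z, |F z| ≤ C) :
    ∫ x, u x * ∫ a, w a * F (x, a) ∂α ∂μ = ∫ a, w a * ∫ x, u x * F (x, a) ∂μ ∂α := by
  have h1 : Integrable (fun z : X × A => u z.1 * w z.2 * F z) (μ.prod α) :=
    tr_int (hu.mul_prod hw) hF hC
  have h2 := integral_integral_swap (f := fun x a => u x * w a * F (x, a)) h1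
  have e1 : ∀ x, u x * ∫ a, w a * F (x, a) ∂α = ∫ a, u x * w a * F (x, a) ∂α := by
    intro x
    rw [← integral_const_mul]
    apply integral_congr_ae
    filter_upwards with a
    ring
  have e2 : ∀ a, w a * ∫ x, u x * F (x, a) ∂μ = ∫ x, u x * w a * F (x, a) ∂μ := by
    intro a
    rw [← integral_const_mul]
    apply integral_congr_ae
    filter_upwards with x
    ring
  simp only [e1, e2]
  exact h2

private theorem tr_jensen {α : Measure A} {w F : A → ℝ} (hw : Integrable w α)
    (hw0 : ∀ a, 0 ≤ w a) (hF : Measurable F) {C : ℝ} (hC : ∀ a, |F a| ≤ C) :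
    (∫ a, w a * F a ∂α) ^ 2 ≤ (∫ a, w a ∂α) * ∫ a, w a * F a ^ 2 ∂α := by
  have hF2 : ∀ a, |F a ^ 2| ≤ C ^ 2 := by
    intro a
    rw [abs_pow]
    exact pow_le_pow_left₀ (abs_nonneg _) (hC a) 2
  have i1 := tr_int hw hF hC
  have i2 := tr_int hw (hF.pow_const 2) hF2
  have key : ∀ t : ℝ, 0 ≤ (∫ a, w a ∂α) * (t * t) + (-2 * ∫ a, w a * F a ∂α) * t +
      ∫ a, w a * F a ^ 2 ∂α := by
    intro t
    have h0 : 0 ≤ ∫ a, w a * (t - F a) ^ 2 ∂α :=
      integral_nonneg (fun a => mul_nonneg (hw0 a) (sq_nonneg _))
    have e : ∫ a, w a * (t - F a) ^ 2 ∂α = (∫ a, w a ∂α) * (t * t) +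
        (-2 * ∫ a, w a * F a ∂α) * t + ∫ a, w a * F a ^ 2 ∂α := by
      have e1 : (fun a => w a * (t - F a) ^ 2) =
          fun a => ((t * t) * w a + (-2 * t) * (w a * F a)) + w a * F a ^ 2 := by
        funext a
        ring
      rw [e1, integral_add, integral_add, integral_const_mul, integral_const_mul]
      · ring
      · exact hw.const_mul _
      · exact i1.const_mul _
      · exact (hw.const_mul _).add (i1.const_mul _)
      · exact i2
    rw [← e]
    exact h0
  have h := discrim_le_zero key
  unfold discrim at h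
  nlinarith

end gen

section main

variable {P H : Type} [Group P] [Group H] [TopologicalSpace P] [TopologicalSpace H]
  [IsTopologicalGroup P] [IsTopologicalGroup H] [LocallyCompactSpace P] [LocallyCompactSpace H]
  [T2Space P] [T2Space H] [SecondCountableTopology P] [SecondCountableTopology H]
  [MeasurableSpace P] [MeasurableSpace H] [BorelSpace P] [BorelSpace H]

private theorem tr_mulBI {D : Dat P H} {f g : P × H → ℝ} (hf : BI D f) (hg : BI D g) :
    BI D fun x => f x * g x := by
  obtain ⟨C, hC⟩ := hf.bdd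
  obtain ⟨C', hC'⟩ := hg.bdd
  refine ⟨hf.meas.mul hg.meas, ⟨C * C', ?_⟩, ?_⟩
  · intro x
    rw [abs_mul]
    exact mul_le_mul (hC x) (hC' x) (abs_nonneg _) ((abs_nonneg _).trans (hC x))
  · intro γ hγ x
    rw [hf.inv γ hγ, hg.inv γ hγ]

private theorem tr_shiftBI {D : Dat P H} {f : P × H → ℝ} (hf : BI D f) (g : P × H) :
    BI D fun x => f (x * g) := by
  obtain ⟨C, hC⟩ := hf.bdd
  refine ⟨hf.meas.comp (measurable_mul_const g), ⟨C, fun x => hC _⟩, ?_⟩
  intro γ hγ x
  rw [mul_assoc, hf.inv γ hγ]

private theorem tr_avgBI {A : Type} [MeasurableSpace A] {α : Measure A} [SFinite α] {w : A → ℝ}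
    (hwm : Measurable w) (hw : Integrable w α) (hw0 : ∀ a, 0 ≤ w a) {ι : A → P × H}
    (hι : Measurable ι) {D : Dat P H} {f : P × H → ℝ} (hf : BI D f) :
    BI D fun x => ∫ a, w a * f (x * ι a) ∂α := by
  obtain ⟨C, hC⟩ := hf.bdd
  refine ⟨?_, ⟨∫ a, w a * C ∂α, ?_⟩, ?_⟩
  · apply StronglyMeasurable.measurable
    apply StronglyMeasurable.integral_prod_right (f := fun x a => w a * f (x * ι a))
    apply Measurable.stronglyMeasurable
    exact (hwm.comp measurable_snd).mul
      (hf.meas.comp (measurable_fst.mul (hι.comp measurable_snd)))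
  · intro x
    rw [← Real.norm_eq_abs]
    apply norm_integral_le_of_norm_le (hw.mul_const C)
    filter_upwards with a
    rw [Real.norm_eq_abs, abs_mul, abs_of_nonneg (hw0 a)]
    exact mul_le_mul_of_nonneg_left (hC _) (hw0 a)
  · intro γ hγ x
    apply integral_congr_ae
    filter_upwards with a
    rw [mul_assoc γ x, hf.inv γ hγ]

/-- the exchange of the mean and an average -/
private theorem tr_mnFub {A : Type} [MeasurableSpace A] {α : Measure A} [SFinite α] {w : A → ℝ}
    (hw : Integrable w α) {D : Dat P H} [SFinite D.μ]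
    (hχ : Integrable (fun x => (D.χ x).toReal) D.μ) {F : (P × H) × A → ℝ} (hF : Measurable F)
    {C : ℝ} (hC : ∀ z, |F z| ≤ C) :
    mn D (fun x => ∫ a, w a * F (x, a) ∂α) = ∫ a, w a * mn D (fun x => F (x, a)) ∂α :=
  tr_fub hχ hw hF hC

private theorem tr_shift {D : Dat P H} (hD : D.Ok) (hIM : S_IM P H)
    (hχ : Integrable (fun x => (D.χ x).toReal) D.μ) {f : P × H → ℝ} (hf : BI D f) (g : P × H) :
    mn D (fun x => f (x * g)) = mn D f := by
  obtain ⟨him, _⟩ := hIM D hD
  obtain ⟨C, hC⟩ := hf.bdd
  have key : ∀ f : P × H → ℝ, Measurable f → (∀ x, |f x| ≤ C) →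
      mn D f = (D.IM fun x => ENNReal.ofReal (f x + C)).toReal - C * ∫ x, (D.χ x).toReal ∂D.μ := by
    intro f hfm hfC
    have h0 : ∀ x, 0 ≤ f x + C := fun x => by
      have := (abs_le.1 (hfC x)).1
      linarith
    have e1 : (D.IM fun x => ENNReal.ofReal (f x + C)).toReal =
        ∫ x, (D.χ x).toReal * (f x + C) ∂D.μ := by
      unfold Dat.IM
      rw [← integral_toReal]
      · apply integral_congr_ae
        filter_upwards with x
        rw [ENNReal.toReal_mul, ENNReal.toReal_ofReal (h0 x)]
      · exact (hD.χm.mul (hfm.add_const C).ennreal_ofReal).aemeasurable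
      · filter_upwards with x
        apply ENNReal.mul_lt_top
        · exact lt_of_le_of_lt (hD.χ1 x) ENNReal.one_lt_top
        · exact ENNReal.ofReal_lt_top
    have e2 : ∫ x, (D.χ x).toReal * (f x + C) ∂D.μ = mn D f + C * ∫ x, (D.χ x).toReal ∂D.μ := by
      have e3 : (fun x => (D.χ x).toReal * (f x + C)) =
          fun x => (D.χ x).toReal * f x + C * (D.χ x).toReal := by
        funext x
        ring
      rw [e3, integral_add, integral_const_mul]
      · rfl
      · exact tr_int hχ hfm hfC
      · exact hχ.const_mul C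
    rw [e1, e2]
    ring
  rw [key f hf.meas hC, key (fun x => f (x * g)) (hf.meas.comp (measurable_mul_const g))
    (fun x => hC _)]
  have h1 := him (fun x => ENNReal.ofReal (f x + C)) (hf.meas.add_const C).ennreal_ofReal (by
    intro γ hγ x
    rw [hf.inv γ hγ]) g
  rw [h1]

end main

variable (P H : Type) [Group P] [Group H] [TopologicalSpace P] [TopologicalSpace H]
  [IsTopologicalGroup P] [IsTopologicalGroup H] [LocallyCompactSpace P] [LocallyCompactSpace H]
  [T2Space P] [T2Space H] [SecondCountableTopology P] [SecondCountableTopology H]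
  [MeasurableSpace P] [MeasurableSpace H] [BorelSpace P] [BorelSpace H]

theorem tTR : S_inst P H → S_IM P H → S_nu P H → S_BI P H → S_TR P H := by
  intro hinst hIM hnu hBI D hD
  obtain ⟨s1, s2, s3, _, i5, i6, i7, i8, _⟩ := hinst D hD
  obtain ⟨b1, b2, b3, b4, b5, b6, b7, b8, b9, b10, b11, b12, b13, b14, b15, b16, b17⟩ := hBI D hD
  obtain ⟨n1, _, _, n4, n5, n6, _, _⟩ := hnu D hD
  have hh1 := hD.haar₁
  have hh2 := hD.haar₂
  have hr2 := hD.right₂
  have hi2 := hD.inv₂
  -- weights
  have hχint : Integrable (fun x => (D.χ x).toReal) D.μ := by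
    apply integrable_toReal_of_lintegral_ne_top hD.χm.aemeasurable
    rw [hD.mass]
    exact ENNReal.one_ne_top
  have hνm : Measurable D.ν := hD.νc.measurable
  have hνm' : Measurable fun h => (D.ν h).toReal := hνm.ennreal_toReal
  have hνi : Integrable (fun h => (D.ν h).toReal) D.μ₂ := by
    apply integrable_toReal_of_lintegral_ne_top hνm.aemeasurable
    rw [hD.νint]
    exact ENNReal.one_ne_top
  have hνint : ∫ h, (D.ν h).toReal ∂D.μ₂ = 1 := by
    rw [integral_toReal hνm.aemeasurable]
    · rw [hD.νint, ENNReal.toReal_one]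
    · filter_upwards with h
      exact lt_of_le_of_ne le_top (hD.νt h)
  have hν0 : ∀ h, 0 ≤ (D.ν h).toReal := fun h => ENNReal.toReal_nonneg
  have hkfin : ∀ k : P → ℝ≥0∞, KB k → ∫⁻ q, k q ∂D.μ₁ ≠ ∞ := by
    intro k hk
    obtain ⟨C, hC, hkC⟩ := hk.bdd
    obtain ⟨K, hK, hkK⟩ := hk.supp
    have h1 : ∫⁻ q, k q ∂D.μ₁ ≤ ∫⁻ q in K, C ∂D.μ₁ := by
      rw [← lintegral_indicator hK.measurableSet]
      apply lintegral_mono
      intro q
      by_cases hq : q ∈ K
      · rw [Set.indicator_of_mem hq]
        exact hkC q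
      · rw [hkK q hq]
        exact zero_le
    refine ne_top_of_le_ne_top ?_ h1
    rw [lintegral_const, Measure.restrict_apply MeasurableSet.univ, Set.univ_inter]
    exact ENNReal.mul_ne_top hC hK.measure_lt_top.ne
  have hki : ∀ k : P → ℝ≥0∞, KB k → Integrable (fun q => (k q).toReal) D.μ₁ := fun k hk =>
    integrable_toReal_of_lintegral_ne_top hk.meas.aemeasurable (hkfin k hk)
  have hkm : ∀ k : P → ℝ≥0∞, KB k → Measurable (fun q => (k q).toReal) := fun k hk =>
    hk.meas.ennreal_toReal
  have hkint : ∀ k : P → ℝ≥0∞, KB k → ∫ q, (k q).toReal ∂D.μ₁ = (∫⁻ q, k q ∂D.μ₁).toReal := by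
    intro k hk
    rw [integral_toReal hk.meas.aemeasurable]
    filter_upwards with q
    obtain ⟨C, hC, hkC⟩ := hk.bdd
    exact lt_of_le_of_lt (hkC q) (lt_of_le_of_ne le_top hC)
  have hιH : Measurable fun h : H => (((1 : P), h) : P × H) := measurable_const.prodMk measurable_id
  have hιP : Measurable fun q : P => ((q, (1 : H)) : P × H) := measurable_id.prodMk measurable_const
  -- (1), (2), (3)
  have c1 : ∀ f, BI D f → BI D (TTJ D f) := fun f hf =>
    tr_avgBI hνm' hνi hν0 hιH hf
  have c2 : ∀ k f, KB k → BI D f → BI D (RR D k f) := fun k f hk hf =>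
    tr_avgBI (hkm k hk) (hki k hk) (fun _ => ENNReal.toReal_nonneg) hιP hf
  have c3 : ∀ h f, BI D f → BI D (tau h f) := fun h f hf => tr_shiftBI hf _
  have shift : ∀ f, BI D f → ∀ g : P × H, mn D (fun x => f (x * g)) = mn D f :=
    fun f hf g => tr_shift hD hIM hχint hf g
  -- general facts on averages
  have avg_mn : ∀ (A : Type) [MeasurableSpace A] (α : Measure A) [SFinite α] (w : A → ℝ)
      (ι : A → P × H) (f : P × H → ℝ), Integrable w α → Measurable ι → BI D f →
      mn D (fun x => ∫ a, w a * f (x * ι a) ∂α) = (∫ a, w a ∂α) * mn D f := by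
    intro A _ α _ w ι f hw hι hf
    obtain ⟨C, hC⟩ := hf.bdd
    have h1 := tr_mnFub (D := D) (α := α) hw hχint (F := fun z : (P × H) × A => f (z.1 * ι z.2))
      (hf.meas.comp (measurable_fst.mul (hι.comp measurable_snd))) (C := C) (fun z => hC _)
    simp only at h1
    rw [h1]
    simp only [shift f hf]
    rw [integral_mul_const]
  have avg_ns : ∀ (A : Type) [MeasurableSpace A] (α : Measure A) [SFinite α] (w : A → ℝ)
      (ι : A → P × H) (f : P × H → ℝ), Measurable w → Integrable w α → (∀ a, 0 ≤ w a) →
      Measurable ι → BI D f →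
      ns D (fun x => ∫ a, w a * f (x * ι a) ∂α) ≤ (∫ a, w a ∂α) ^ 2 * ns D f := by
    intro A _ α _ w ι f hwm hw hw0 hι hf
    obtain ⟨C, hC⟩ := hf.bdd
    have hf2 : BI D (fun x => f x * f x) := tr_mulBI hf hf
    have hav := tr_avgBI (α := α) hwm hw hw0 hι hf
    have hav2 := tr_avgBI (α := α) hwm hw hw0 hι hf2
    have h1 : ns D (fun x => ∫ a, w a * f (x * ι a) ∂α) ≤
        mn D (fun x => (∫ a, w a ∂α) * ∫ a, w a * (f (x * ι a) * f (x * ι a)) ∂α) := by
      unfold ns ip mn
      apply integral_mono
      · exact b4 _ _ hav hav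
      · exact b5 _ (b2 _ _ hav2)
      · intro x
        apply mul_le_mul_of_nonneg_left _ ENNReal.toReal_nonneg
        have hj := tr_jensen (α := α) hw hw0 (F := fun a => f (x * ι a))
          (hf.meas.comp (hι.const_mul x)) (C := C) (fun a => hC _)
        rw [sq] at hj
        refine hj.trans (le_of_eq ?_)
        congr 1
        apply integral_congr_ae
        filter_upwards with a
        rw [sq]
    refine h1.trans (le_of_eq ?_)
    have h2 : mn D (fun x => (∫ a, w a ∂α) * ∫ a, w a * (f (x * ι a) * f (x * ι a)) ∂α) =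
        (∫ a, w a ∂α) * mn D (fun x => ∫ a, w a * (f (x * ι a) * f (x * ι a)) ∂α) := by
      unfold mn
      rw [← integral_const_mul]
      apply integral_congr_ae
      filter_upwards with x
      ring
    rw [h2, avg_mn A α w ι _ hw hι hf2]
    have h3 : ns D f = mn D (fun x => f x * f x) := rfl
    rw [h3]
    ring
  have c14 : ∀ h f g, BI D f → BI D g → ip D (tau h f) (tau h g) = ip D f g := by
    intro h f g hf hg
    exact shift (fun x => f x * g x) (tr_mulBI hf hg) ((1 : P), h)
  -- self-adjointness
  have c5 : ∀ f g, BI D f → BI D g → ip D (TTJ D f) g = ip D f (TTJ D g) := by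
    intro f g hf hg
    obtain ⟨C, hC⟩ := hf.bdd
    obtain ⟨C', hC'⟩ := hg.bdd
    have hbd : ∀ x y, |f x * g y| ≤ C * C' := by
      intro x y
      rw [abs_mul]
      exact mul_le_mul (hC x) (hC' y) (abs_nonneg _) ((abs_nonneg _).trans (hC x))
    have e1 : ip D (TTJ D f) g = ∫ h, (D.ν h).toReal *
        mn D (fun x => f (x * ((1 : P), h)) * g x) ∂D.μ₂ := by
      have h1 := tr_mnFub (D := D) (α := D.μ₂) hνi hχint
        (F := fun z : (P × H) × H => f (z.1 * ((1 : P), z.2)) * g z.1)
        ((hf.meas.comp (measurable_fst.mul (hιH.comp measurable_snd))).mul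
          (hg.meas.comp measurable_fst)) (C := C * C') (fun z => hbd _ _)
      simp only at h1
      rw [← h1]
      unfold ip mn TTJ
      apply integral_congr_ae
      filter_upwards with x
      congr 1
      rw [← integral_mul_const]
      apply integral_congr_ae
      filter_upwards with h
      ring
    have e2 : ip D f (TTJ D g) = ∫ h, (D.ν h).toReal *
        mn D (fun x => f x * g (x * ((1 : P), h))) ∂D.μ₂ := by
      have h1 := tr_mnFub (D := D) (α := D.μ₂) hνi hχint
        (F := fun z : (P × H) × H => f z.1 * g (z.1 * ((1 : P), z.2)))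
        ((hf.meas.comp measurable_fst).mul
          (hg.meas.comp (measurable_fst.mul (hιH.comp measurable_snd))))
        (C := C * C') (fun z => hbd _ _)
      simp only at h1
      rw [← h1]
      unfold ip mn TTJ
      apply integral_congr_ae
      filter_upwards with x
      congr 1
      rw [← integral_const_mul]
      apply integral_congr_ae
      filter_upwards with h
      ring
    rw [e1, e2]
    rw [← integral_inv_eq_self (μ := D.μ₂) (fun h => (D.ν h).toReal *
        mn D (fun x => f (x * ((1 : P), h)) * g x))]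
    apply integral_congr_ae
    filter_upwards with h
    rw [hD.νi]
    congr 1
    have h2 := shift (fun x => f (x * ((1 : P), h⁻¹)) * g x)
      (tr_mulBI (tr_shiftBI hf _) hg) ((1 : P), h)
    rw [← h2]
    congr 1
    funext x
    have h3 : x * ((1 : P), h) * ((1 : P), h⁻¹) = x := by
      rw [mul_assoc]
      have : (((1 : P), h) : P × H) * ((1 : P), h⁻¹) = 1 := by
        apply Prod.ext
        · simp
        · simp
      rw [this, mul_one]
    rw [h3]
  have c6 : ∀ f, BI D f → ns D (TTJ D f) ≤ ns D f := by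
    intro f hf
    have := avg_ns H D.μ₂ (fun h => (D.ν h).toReal) (fun h => ((1 : P), h)) f hνm' hνi hν0 hιH hf
    rw [hνint, one_pow, one_mul] at this
    exact this
  have c7 : ∀ k f, KB k → BI D f →
      ns D (RR D k f) ≤ (∫⁻ q, k q ∂D.μ₁).toReal ^ 2 * ns D f := by
    intro k f hk hf
    have := avg_ns P D.μ₁ (fun q => (k q).toReal) (fun q => (q, (1 : H))) f (hkm k hk) (hki k hk)
      (fun _ => ENNReal.toReal_nonneg) hιP hf
    rw [hkint k hk] at this
    exact this
  have c8 : ∀ f, BI D f → mn D (TTJ D f) = mn D f := by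
    intro f hf
    have := avg_mn H D.μ₂ (fun h => (D.ν h).toReal) (fun h => ((1 : P), h)) f hνi hιH hf
    rw [hνint, one_mul] at this
    exact this
  have c9 : ∀ k f, KB k → BI D f →
      mn D (RR D k f) = (∫⁻ q, k q ∂D.μ₁).toReal * mn D f := by
    intro k f hk hf
    have := avg_mn P D.μ₁ (fun q => (k q).toReal) (fun q => (q, (1 : H))) f (hki k hk) hιP hf
    rw [hkint k hk] at this
    exact this
  refine ⟨c1, c2, c3, ?_, c5, c6, c7, c8, c9, ?_, ?_, ?_, ?_, c14, ?_⟩
  · -- commutation
    intro k f hk hf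
    obtain ⟨C, hC⟩ := hf.bdd
    funext x
    unfold TTJ RR
    have h1 := tr_fub (μ := D.μ₂) (α := D.μ₁) hνi (hki k hk)
      (F := fun z : H × P => f (x * ((1 : P), z.1) * (z.2, (1 : H))))
      (hf.meas.comp (((hιH.comp measurable_fst).const_mul x).mul (hιP.comp measurable_snd)))
      (C := C) (fun z => hC _)
    simp only at h1
    rw [h1]
    apply integral_congr_ae
    filter_upwards with q
    congr 1
    apply integral_congr_ae
    filter_upwards with h
    congr 2
    rw [mul_assoc, mul_assoc]
    congr 1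
    apply Prod.ext
    · simp
    · simp
  · intro f g hf hg
    obtain ⟨C, hC⟩ := hf.bdd
    obtain ⟨C', hC'⟩ := hg.bdd
    funext x
    unfold TTJ
    rw [← integral_sub]
    · apply integral_congr_ae
      filter_upwards with h
      ring
    · exact tr_int hνi (hf.meas.comp (hιH.const_mul x)) (fun h => hC _)
    · exact tr_int hνi (hg.meas.comp (hιH.const_mul x)) (fun h => hC' _)
  · intro k f g hk hf hg
    obtain ⟨C, hC⟩ := hf.bdd
    obtain ⟨C', hC'⟩ := hg.bdd
    funext x
    unfold RR
    rw [← integral_sub]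
    · apply integral_congr_ae
      filter_upwards with h
      ring
    · exact tr_int (hki k hk) (hf.meas.comp (hιP.const_mul x)) (fun h => hC _)
    · exact tr_int (hki k hk) (hg.meas.comp (hιP.const_mul x)) (fun h => hC' _)
  · intro c
    funext x
    unfold TTJ
    rw [integral_mul_const, hνint, one_mul]
  · intro k c hk
    funext x
    unfold RR
    rw [integral_mul_const, hkint k hk]
  · intro g hg
    obtain ⟨C, hC⟩ := hg.bdd
    have hC0 : 0 ≤ C := (abs_nonneg _).trans (hC 1)
    -- facts on nu 2
    have hν2m : Measurable (fun v => (D.nu 2 v).toReal) := (n1 2).ennreal_toReal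
    have hν2i : Integrable (fun v => (D.nu 2 v).toReal) D.μ₂ := by
      apply integrable_toReal_of_lintegral_ne_top (n1 2).aemeasurable
      rw [n5 2]
      exact ENNReal.one_ne_top
    have hν2fin : ∀ᵐ v ∂D.μ₂, D.nu 2 v < ∞ := by
      apply ae_lt_top (n1 2)
      rw [n5 2]
      exact ENNReal.one_ne_top
    have hν2int : ∫ v, (D.nu 2 v).toReal ∂D.μ₂ = 1 := by
      rw [integral_toReal (n1 2).aemeasurable hν2fin, n5 2, ENNReal.toReal_one]
    have hnu2 : ∀ v, D.nu 2 v = ∫⁻ q, D.ν q * D.ν (q⁻¹ * v) ∂D.μ₂ := by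
      intro v
      have := n6 1 1 le_rfl le_rfl v
      exact this.symm
    -- TTJ (TTJ g) as an average with nu 2
    have hTT : ∀ x, TTJ D (TTJ D g) x = ∫ v, (D.nu 2 v).toReal * g (x * ((1 : P), v)) ∂D.μ₂ := by
      intro x
      have hprodm : Measurable (fun z : H × H => D.ν z.1 * D.ν (z.1⁻¹ * z.2)) :=
        (hνm.comp measurable_fst).mul (hνm.comp (measurable_fst.inv.mul measurable_snd))
      have hprodfin : ∫⁻ z, D.ν z.1 * D.ν (z.1⁻¹ * z.2) ∂(D.μ₂.prod D.μ₂) ≠ ∞ := by
        rw [lintegral_prod _ hprodm.aemeasurable]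
        have e1 : ∀ h : H, ∫⁻ v, D.ν h * D.ν (h⁻¹ * v) ∂D.μ₂ = D.ν h := by
          intro h
          have hm : Measurable fun v => D.ν (h⁻¹ * v) := hνm.comp (measurable_const_mul _)
          rw [lintegral_const_mul _ hm,
            lintegral_mul_left_eq_self (μ := D.μ₂) D.ν h⁻¹, hD.νint, mul_one]
        simp only [e1]
        rw [hD.νint]
        exact ENNReal.one_ne_top
      have hI : Integrable (fun z : H × H => (D.ν z.1 * D.ν (z.1⁻¹ * z.2)).toReal *
          g (x * ((1 : P), z.2))) (D.μ₂.prod D.μ₂) := by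
        apply tr_int (C := C) (integrable_toReal_of_lintegral_ne_top hprodm.aemeasurable hprodfin)
          (hg.meas.comp ((hιH.comp measurable_snd).const_mul x))
        intro z
        exact hC _
      have hswap := integral_integral_swap (f := fun h v => (D.ν h * D.ν (h⁻¹ * v)).toReal *
          g (x * ((1 : P), v))) hI
      have e1 : TTJ D (TTJ D g) x = ∫ h, ∫ v, (D.ν h * D.ν (h⁻¹ * v)).toReal *
          g (x * ((1 : P), v)) ∂D.μ₂ ∂D.μ₂ := by
        unfold TTJ
        apply integral_congr_ae
        filter_upwards with h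
        rw [← integral_mul_left_eq_self (μ := D.μ₂)
          (fun v => (D.ν h * D.ν (h⁻¹ * v)).toReal * g (x * ((1 : P), v))) h]
        rw [← integral_const_mul]
        apply integral_congr_ae
        filter_upwards with h'
        rw [inv_mul_cancel_left, ENNReal.toReal_mul]
        have e3 : x * ((1 : P), h) * ((1 : P), h') = x * ((1 : P), h * h') := by
          rw [mul_assoc]
          congr 1
          apply Prod.ext
          · simp
          · simp
        rw [e3]
        ring
      rw [e1, hswap]
      apply integral_congr_ae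
      filter_upwards with v
      rw [integral_mul_const]
      congr 1
      rw [hnu2 v, integral_toReal]
      · exact (hνm.mul (hνm.comp (measurable_inv.mul_const v))).aemeasurable
      · filter_upwards with h
        exact ENNReal.mul_lt_top (lt_of_le_of_ne le_top (hD.νt h))
          (lt_of_le_of_ne le_top (hD.νt _))
    have hip : ∫ v, (D.nu 2 v).toReal * ip D (tau v g) g ∂D.μ₂ = ns D (TTJ D g) := by
      have e1 : ns D (TTJ D g) = ip D (TTJ D (TTJ D g)) g := by
        unfold ns
        rw [c5 (TTJ D g) g (c1 g hg) hg]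
      rw [e1]
      have hbd : ∀ x y, |g x * g y| ≤ C * C := by
        intro x y
        rw [abs_mul]
        exact mul_le_mul (hC x) (hC y) (abs_nonneg _) hC0
      have h1 := tr_mnFub (D := D) (α := D.μ₂) hν2i hχint
        (F := fun z : (P × H) × H => g (z.1 * ((1 : P), z.2)) * g z.1)
        ((hg.meas.comp (measurable_fst.mul (hιH.comp measurable_snd))).mul
          (hg.meas.comp measurable_fst)) (C := C * C) (fun z => hbd _ _)
      simp only at h1
      have e2 : ∀ v, ip D (tau v g) g = mn D (fun x => g (x * ((1 : P), v)) * g x) := fun v => rfl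
      simp only [e2]
      rw [← h1]
      unfold ip mn
      apply integral_congr_ae
      filter_upwards with x
      congr 1
      rw [hTT x, ← integral_mul_const]
      apply integral_congr_ae
      filter_upwards with v
      ring
    have hns : ∀ v, ns D (fun x => tau v g x - g x) = 2 * ns D g - 2 * ip D (tau v g) g := by
      intro v
      have ht := c3 v g hg
      have hs := (b1 (tau v g) g ht hg).2
      unfold ns
      rw [b8 (tau v g) g _ ht hg hs, b6 (tau v g), b6 g (fun x => tau v g x - g x),
        b8 (tau v g) g _ ht hg ht, b8 (tau v g) g _ ht hg hg, c14 v g g hg hg, b6 g (tau v g)]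
      ring
    simp only [hns]
    have hipb : ∀ v, |ip D (tau v g) g| ≤ ns D g := by
      intro v
      have h1 := b11 (tau v g) g (c3 v g hg) hg
      have h2 : ns D (tau v g) = ns D g := c14 v g g hg hg
      rw [h2, ← sq] at h1
      exact abs_le_of_sq_le_sq h1 (b10 g)
    have hipm : Measurable (fun v => ip D (tau v g) g) := by
      apply StronglyMeasurable.measurable
      unfold ip tau
      apply StronglyMeasurable.integral_prod_right
        (f := fun v x => (D.χ x).toReal * (g (x * ((1 : P), v)) * g x))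
      apply Measurable.stronglyMeasurable
      exact ((hD.χm.ennreal_toReal).comp measurable_snd).mul
        ((hg.meas.comp (measurable_snd.mul (hιH.comp measurable_fst))).mul
          (hg.meas.comp measurable_snd))
    have e1 : (fun v => (D.nu 2 v).toReal * (2 * ns D g - 2 * ip D (tau v g) g)) =
        fun v => (2 * ns D g) * (D.nu 2 v).toReal - 2 * ((D.nu 2 v).toReal * ip D (tau v g) g) := by
      funext v
      ring
    rw [e1, integral_sub, integral_const_mul, integral_const_mul, hip, hν2int]
    · ring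
    · exact hν2i.const_mul _
    · exact (tr_int hν2i hipm hipb).const_mul _

end Pool.Agent.MPEF.U
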