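import Pool.Agent.Lib.MP_ef3f0f_gt.U.J.Spec

set_option autoImplicit false
set_option linter.unusedSectionVars false

/-! Almost invariance under `H`. -/

namespace Pool.Agent.MPEF.U

open MeasureTheory Topology
open scoped ENNReal Pointwise

variable (P H : Type) [Group P] [Group H] [TopologicalSpace P] [TopologicalSpace H]
  [IsTopologicalGroup P] [IsTopologicalGroup H] [LocallyCompactSpace P] [LocallyCompactSpace H]
  [T2Space P] [T2Space H] [SecondCountableTopology P] [SecondCountableTopology H]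
  [MeasurableSpace P] [MeasurableSpace H] [BorelSpace P] [BorelSpace H]

/-- The neighbourhood `W` and the lower bound of the second convolution power. -/
private theorem a_W (hO : S_O P H) (hnu : S_nu P H) (D : Dat P H) (hD : D.Ok) :
    ∃ (W : Set H) (c : ℝ), IsOpen W ∧ (1 : H) ∈ W ∧ IsCompact (closure W) ∧ 0 < c ∧
      (∀ w ∈ W, c ≤ (D.nu 2 w).toReal) ∧
      ∀ h ∈ D.O, ∀ w ∈ W, c ≤ (D.nu 2 (h * w)).toReal := by
  obtain ⟨hO1, hO2, hO3, hO4, hO5, hO6, hO7⟩ := hO D hD
  obtain ⟨hnm, hnl, hnp, -, -, -, ⟨C₀, hC₀, hbd⟩, -⟩ := hnu D hD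
  have hKO : IsCompact (closure D.O) := by simpa using hO6 1
  have hsub : closure D.O ⊆ D.O ^ 2 := by simpa using hO5 1
  obtain ⟨V, hV, hKV⟩ := compact_open_separated_mul_right hKO (hO1 2 (by norm_num)) hsub
  obtain ⟨L, hL, hLV, hLc⟩ := LocallyCompactSpace.local_compact_nhds (1 : H) V hV
  have h1W : (1 : H) ∈ interior L := mem_interior_iff_mem_nhds.mpr hL
  have hcl : closure (interior L) ⊆ L := closure_minimal interior_subset hLc.isClosed
  have hKc : IsCompact (closure D.O * L) := hKO.mul hLc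
  have hKs : closure D.O * L ⊆ D.O ^ 2 := (Set.mul_subset_mul_left hLV).trans hKV
  have h1O : (1 : H) ∈ D.O := hD.ν1
  have hne : (closure D.O * L).Nonempty :=
    ⟨1 * 1, Set.mul_mem_mul (subset_closure h1O) (interior_subset h1W)⟩
  obtain ⟨a, ha, hmin⟩ := LowerSemicontinuousOn.exists_isMinOn hne hKc
    ((hnl 2).lowerSemicontinuousOn _)
  have ha0 : D.nu 2 a ≠ 0 := ((hnp 2 (by norm_num) a).mpr (hKs ha)).ne'
  have hfin : ∀ h, D.nu 2 h ≠ ∞ := fun h => ne_top_of_le_ne_top hC₀ (hbd 2 h)
  have key : ∀ h ∈ D.O, ∀ w ∈ interior L, (D.nu 2 a).toReal ≤ (D.nu 2 (h * w)).toReal := by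
    intro h hh w hw
    exact ENNReal.toReal_mono (hfin _)
      (hmin (Set.mul_mem_mul (subset_closure hh) (interior_subset hw)))
  refine ⟨interior L, (D.nu 2 a).toReal, isOpen_interior, h1W,
    hLc.of_isClosed_subset isClosed_closure hcl, ENNReal.toReal_pos ha0 (hfin a), ?_, key⟩
  intro w hw
  have := key 1 h1O w hw
  rwa [one_mul] at this

private theorem a_meas (hi : S_inst P H) (D : Dat P H) (hD : D.Ok) (g : P × H → ℝ)
    (hg : BI D g) : Measurable fun v : H => ns D (fun x => tau v g x - g x) := by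
  obtain ⟨-, -, hσ, -⟩ := hi D hD
  have h1 : Measurable fun q : H × (P × H) => g (q.2 * ((1 : P), q.1)) :=
    hg.meas.comp (measurable_snd.mul (measurable_const.prodMk measurable_fst))
  have h2 : Measurable fun q : H × (P × H) => g q.2 := hg.meas.comp measurable_snd
  have h3 : Measurable fun q : H × (P × H) => (D.χ q.2).toReal *
      ((g (q.2 * ((1 : P), q.1)) - g q.2) * (g (q.2 * ((1 : P), q.1)) - g q.2)) :=
    (hD.χm.comp measurable_snd).ennreal_toReal.mul ((h1.sub h2).mul (h1.sub h2))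
  exact (h3.stronglyMeasurable.integral_prod_right').measurable

/-- One step. -/
private theorem a_one (hi : S_inst P H) (hO : S_O P H) (hnu : S_nu P H) (hB : S_BI P H)
    (hT : S_TR P H) (D : Dat P H) (hD : D.Ok) :
    ∃ C : ℝ, 0 ≤ C ∧ ∀ g, BI D g → ∀ h ∈ D.O,
      ns D (fun x => tau h g x - g x) ≤ C * (ns D g - ns D (TTJ D g)) := by
  obtain ⟨W, c, hWo, hW1, hWc, hc, hcW, hcO⟩ := a_W P H hO hnu D hD
  obtain ⟨-, hσ₂, -, -⟩ := hi D hD
  obtain ⟨hnm, -, -, -, hint, -⟩ := hnu D hD
  obtain ⟨hB1, hB2, hB3, hB4, hB5, hB6, hB7, hB8, hB9, hB10, hB11, hB12, hB13, -⟩ := hB D hD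
  obtain ⟨-, -, hT3, -, -, -, -, -, -, -, -, -, -, hT14, hT15⟩ := hT D hD
  haveI := hD.haar₂
  have hWm : MeasurableSet W := hWo.measurableSet
  have hWfin : D.μ₂ W ≠ ∞ :=
    ne_top_of_le_ne_top hWc.measure_lt_top.ne (measure_mono subset_closure)
  have hWpos : 0 < (D.μ₂ W).toReal :=
    ENNReal.toReal_pos (hWo.measure_pos D.μ₂ ⟨1, hW1⟩).ne' hWfin
  refine ⟨8 / (c * (D.μ₂ W).toReal), by positivity, fun g hg h hh => ?_⟩
  set A : H → ℝ := fun v => ns D (fun x => tau v g x - g x) with hA
  have hAm : Measurable A := a_meas P H hi D hD g hg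
  have hA0 : ∀ v, 0 ≤ A v := fun v => hB10 _
  have hAb : ∀ v, A v ≤ 4 * ns D g := by
    intro v
    have h1 := hB13 (tau v g) g (hT3 v g hg) hg
    have h2 : ns D (tau v g) = ns D g := hT14 v g g hg hg
    have h3 : A v ≤ 2 * ns D (tau v g) + 2 * ns D g := h1
    linarith
  have hν : Integrable (fun v => (D.nu 2 v).toReal) D.μ₂ := by
    refine integrable_toReal_of_lintegral_ne_top (hnm 2).aemeasurable ?_
    rw [hint 2]
    exact ENNReal.one_ne_top
  have hI : Integrable (fun v => (D.nu 2 v).toReal * A v) D.μ₂ := by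
    refine Integrable.mono' (hν.mul_const (4 * ns D g))
      (((hnm 2).ennreal_toReal.mul hAm).aestronglyMeasurable)
      (Filter.Eventually.of_forall fun v => ?_)
    rw [Real.norm_eq_abs, abs_of_nonneg (mul_nonneg ENNReal.toReal_nonneg (hA0 v))]
    exact mul_le_mul_of_nonneg_left (hAb v) ENNReal.toReal_nonneg
  have hkey : ∀ w : H, ns D (fun x => tau h g x - g x) ≤ 2 * A w + 2 * A (h * w) := by
    intro w
    have e1 : (fun x => tau h g x - g x) =
        fun x => (fun x => tau (h * w) g x - g x) x -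
          tau h (fun x => tau w g x - g x) x := by
      funext x
      simp only [tau]
      have : x * ((1 : P), h * w) = x * ((1 : P), h) * ((1 : P), w) :=
        Prod.ext (by simp) (by simp [mul_assoc])
      rw [this]
      ring
    have hw : BI D (fun x => tau w g x - g x) := (hB1 _ _ (hT3 w g hg) hg).2
    have hhw : BI D (fun x => tau (h * w) g x - g x) := (hB1 _ _ (hT3 (h * w) g hg) hg).2
    have h1 := hB13 _ _ hhw (hT3 h _ hw)
    have h2 : ns D (tau h fun x => tau w g x - g x) = A w := hT14 h _ _ hw hw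
    rw [e1]
    have h3 : ns D (fun x => (fun x => tau (h * w) g x - g x) x -
        tau h (fun x => tau w g x - g x) x) ≤ 2 * A (h * w) +
        2 * ns D (tau h fun x => tau w g x - g x) := h1
    linarith
  -- integrable pieces
  have hind : Integrable (W.indicator fun _ : H => (1 : ℝ)) D.μ₂ :=
    (integrable_indicator_iff hWm).mpr (integrableOn_const hWfin)
  have hint2 : ∀ B : H → ℝ, Measurable B → (∀ v, 0 ≤ B v) → (∀ v, B v ≤ 4 * ns D g) →
      Integrable (fun w => W.indicator (fun _ : H => (1 : ℝ)) w * B w) D.μ₂ := by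
    intro B hBm hB0 hBb
    refine Integrable.mono' (hind.mul_const (4 * ns D g))
      (((measurable_const.indicator hWm).mul hBm).aestronglyMeasurable)
      (Filter.Eventually.of_forall fun v => ?_)
    have h0 : 0 ≤ W.indicator (fun _ : H => (1 : ℝ)) v :=
      Set.indicator_nonneg (fun _ _ => zero_le_one) v
    rw [Real.norm_eq_abs, abs_of_nonneg (mul_nonneg h0 (hB0 v))]
    exact mul_le_mul_of_nonneg_left (hBb v) h0
  have hAh : Measurable fun w => A (h * w) := hAm.comp (measurable_const_mul h)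
  have i1 := hint2 A hAm hA0 hAb
  have i2 := hint2 (fun w => A (h * w)) hAh (fun v => hA0 _) (fun v => hAb _)
  have c1 : c * ∫ w, W.indicator (fun _ : H => (1 : ℝ)) w * A w ∂D.μ₂ ≤
      ∫ v, (D.nu 2 v).toReal * A v ∂D.μ₂ := by
    rw [← integral_const_mul]
    refine integral_mono (i1.const_mul c) hI fun w => ?_
    change c * (W.indicator (fun _ : H => (1 : ℝ)) w * A w) ≤ (D.nu 2 w).toReal * A w
    by_cases hw : w ∈ W
    · rw [Set.indicator_of_mem hw, one_mul]
      exact mul_le_mul_of_nonneg_right (hcW w hw) (hA0 w)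
    · rw [Set.indicator_of_notMem hw, zero_mul, mul_zero]
      exact mul_nonneg ENNReal.toReal_nonneg (hA0 w)
  have c2 : c * ∫ w, W.indicator (fun _ : H => (1 : ℝ)) w * A (h * w) ∂D.μ₂ ≤
      ∫ v, (D.nu 2 v).toReal * A v ∂D.μ₂ := by
    rw [← integral_const_mul]
    have e1 : ∫ v, (D.nu 2 v).toReal * A v ∂D.μ₂ =
        ∫ v, (D.nu 2 (h * v)).toReal * A (h * v) ∂D.μ₂ :=
      (integral_mul_left_eq_self (fun v => (D.nu 2 v).toReal * A v) h).symm
    rw [e1]
    refine integral_mono (i2.const_mul c) (hI.comp_mul_left h) fun w => ?_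
    change c * (W.indicator (fun _ : H => (1 : ℝ)) w * A (h * w)) ≤
      (D.nu 2 (h * w)).toReal * A (h * w)
    by_cases hw : w ∈ W
    · rw [Set.indicator_of_mem hw, one_mul]
      exact mul_le_mul_of_nonneg_right (hcO h hh w hw) (hA0 _)
    · rw [Set.indicator_of_notMem hw, zero_mul, mul_zero]
      exact mul_nonneg ENNReal.toReal_nonneg (hA0 _)
  have c3 : (D.μ₂ W).toReal * ns D (fun x => tau h g x - g x) ≤
      2 * ∫ w, W.indicator (fun _ : H => (1 : ℝ)) w * A w ∂D.μ₂ +
        2 * ∫ w, W.indicator (fun _ : H => (1 : ℝ)) w * A (h * w) ∂D.μ₂ := by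
    have e1 : (D.μ₂ W).toReal * ns D (fun x => tau h g x - g x) =
        ∫ w, W.indicator (fun _ : H => (1 : ℝ)) w * ns D (fun x => tau h g x - g x) ∂D.μ₂ := by
      rw [integral_mul_const, integral_indicator hWm, integral_const, smul_eq_mul, mul_one]
      simp [Measure.real]
    rw [e1, ← integral_const_mul, ← integral_const_mul,
      ← integral_add (i1.const_mul 2) (i2.const_mul 2)]
    refine integral_mono (hind.mul_const _) ((i1.const_mul 2).add (i2.const_mul 2)) fun w => ?_
    have h0 : 0 ≤ W.indicator (fun _ : H => (1 : ℝ)) w :=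
      Set.indicator_nonneg (fun _ _ => zero_le_one) w
    calc W.indicator (fun _ : H => (1 : ℝ)) w * ns D (fun x => tau h g x - g x)
        ≤ W.indicator (fun _ : H => (1 : ℝ)) w * (2 * A w + 2 * A (h * w)) :=
          mul_le_mul_of_nonneg_left (hkey w) h0
      _ = 2 * (W.indicator (fun _ : H => (1 : ℝ)) w * A w) +
          2 * (W.indicator (fun _ : H => (1 : ℝ)) w * A (h * w)) := by ring
  have hTR := hT15 g hg
  have hTR' : ∫ v, (D.nu 2 v).toReal * A v ∂D.μ₂ = 2 * (ns D g - ns D (TTJ D g)) := hTR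
  rw [hTR'] at c1 c2
  have hcm : 0 < c * (D.μ₂ W).toReal := mul_pos hc hWpos
  rw [div_mul_eq_mul_div, le_div_iff₀ hcm]
  have c4 := mul_le_mul_of_nonneg_left c3 hc.le
  nlinarith [c1, c2, c4]

theorem ta : S_inst P H → S_O P H → S_nu P H → S_BI P H → S_TR P H → S_a P H := by
  intro hi hO hnu hB hT D hD
  obtain ⟨C, hC, hone⟩ := a_one P H hi hO hnu hB hT D hD
  obtain ⟨hB1, hB2, hB3, hB4, hB5, hB6, hB7, hB8, hB9, hB10, hB11, hB12, hB13, -⟩ := hB D hD
  obtain ⟨-, -, hT3, -, -, -, -, -, -, -, -, -, -, hT14, hT15⟩ := hT D hD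
  refine ⟨C, hC, fun δ hδ g hg hgap => ?_⟩
  set R : ℝ := Real.sqrt (C * δ ^ 2 * ns D g) with hR
  have hns : 0 ≤ ns D g := hB10 g
  have hX : 0 ≤ C * δ ^ 2 * ns D g := by positivity
  have h1 : ∀ o ∈ D.O, Real.sqrt (ns D fun x => tau o g x - g x) ≤ R := by
    intro o ho
    refine Real.sqrt_le_sqrt ?_
    have h2 := hone g hg o ho
    have h3 : ns D g - ns D (TTJ D g) ≤ δ ^ 2 * ns D g := by linarith
    calc ns D (fun x => tau o g x - g x) ≤ C * (ns D g - ns D (TTJ D g)) := h2
      _ ≤ C * (δ ^ 2 * ns D g) := mul_le_mul_of_nonneg_left h3 hC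
      _ = C * δ ^ 2 * ns D g := by ring
  have h2 : ∀ (l : ℕ) (h : H), h ∈ D.O ^ l →
      Real.sqrt (ns D fun x => tau h g x - g x) ≤ l * R := by
    intro l
    induction l with
    | zero =>
      intro h hh
      rw [pow_zero, Set.mem_one] at hh
      subst hh
      have e1 : (fun x => tau (1 : H) g x - g x) = fun x => (0 : ℝ) * g x := by
        funext x
        simp only [tau]
        have : x * ((1 : P), (1 : H)) = x := mul_one x
        rw [this]
        ring
      have e2 : ns D (fun x => tau (1 : H) g x - g x) = 0 := by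
        rw [e1]
        unfold ns
        rw [hB9, zero_mul]
      rw [e2, Real.sqrt_zero]
      simp
    | succ l ih =>
      intro h hh
      rw [pow_succ] at hh
      obtain ⟨h', hh', o, ho, rfl⟩ := Set.mem_mul.mp hh
      have e1 : (fun x => tau (h' * o) g x - g x) =
          fun x => tau h' (fun x => tau o g x - g x) x + (fun x => tau h' g x - g x) x := by
        funext x
        simp only [tau]
        have : x * ((1 : P), h' * o) = x * ((1 : P), h') * ((1 : P), o) :=
          Prod.ext (by simp) (by simp [mul_assoc])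
        rw [this]
        ring
      have hw : BI D (fun x => tau o g x - g x) := (hB1 _ _ (hT3 o g hg) hg).2
      have hhw : BI D (fun x => tau h' g x - g x) := (hB1 _ _ (hT3 h' g hg) hg).2
      have h3 := hB12 _ _ (hT3 h' _ hw) hhw
      have h4 : ns D (tau h' fun x => tau o g x - g x) = ns D fun x => tau o g x - g x :=
        hT14 h' _ _ hw hw
      rw [e1]
      rw [h4] at h3
      have h5 := h1 o ho
      have h6 := ih h' hh'
      push_cast
      calc Real.sqrt (ns D fun x => tau h' (fun x => tau o g x - g x) x +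
            (fun x => tau h' g x - g x) x)
          ≤ Real.sqrt (ns D fun x => tau o g x - g x) +
            Real.sqrt (ns D fun x => tau h' g x - g x) := h3
        _ ≤ R + l * R := add_le_add h5 h6
        _ = (l + 1) * R := by ring
  intro l h hh
  have h3 := h2 l h hh
  have h4 : ns D (fun x => tau h g x - g x) ≤ (l * R) ^ 2 := by
    rw [← Real.sq_sqrt (hB10 fun x => tau h g x - g x)]
    exact pow_le_pow_left₀ (Real.sqrt_nonneg _) h3 2
  calc ns D (fun x => tau h g x - g x) ≤ (l * R) ^ 2 := h4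
    _ = (l : ℝ) ^ 2 * (C * δ ^ 2 * ns D g) := by rw [mul_pow, hR, Real.sq_sqrt hX]
    _ = C * (l : ℝ) ^ 2 * δ ^ 2 * ns D g := by ring

end Pool.Agent.MPEF.U
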