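import Pool.Agent.Lib.MP_ef3f0f_gt.U.J.Spec

set_option autoImplicit false
set_option linter.unusedSectionVars false

/-!
# MP_ef3f0f_gt, Theorem U, Part J, module coef: `N` as a matrix coefficient
-/

namespace Pool.Agent.MPEF.U

open MeasureTheory Topology
open scoped ENNReal Pointwise

variable (P H : Type) [Group P] [Group H] [TopologicalSpace P] [TopologicalSpace H]
  [IsTopologicalGroup P] [IsTopologicalGroup H] [LocallyCompactSpace P] [LocallyCompactSpace H]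
  [T2Space P] [T2Space H] [SecondCountableTopology P] [SecondCountableTopology H]
  [MeasurableSpace P] [MeasurableSpace H] [BorelSpace P] [BorelSpace H]

private theorem coef_tkm (D : Dat P H) (k : P → ℝ≥0∞) (n : ℕ) (hk : Measurable k)
    (hn : Measurable (D.nu n)) : Measurable (D.tk k n) := by
  unfold Dat.tk
  exact (hk.comp measurable_fst).mul (hn.comp measurable_snd)

private theorem coef_int_ne_top (D : Dat P H) (hD : D.Ok) (k : P → ℝ≥0∞) (hk : KB k) :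
    ∫⁻ q, k q ∂D.μ₁ ≠ ∞ := by
  obtain ⟨-, ⟨C, hC, hCb⟩, ⟨K, hK, hK0⟩⟩ := hk
  have i1 := hD.haar₁
  have h1 : ∫⁻ q, k q ∂D.μ₁ ≤ C * D.μ₁ K := by
    calc ∫⁻ q, k q ∂D.μ₁ ≤ ∫⁻ q, K.indicator (fun _ => C) q ∂D.μ₁ := by
          apply lintegral_mono
          intro q
          by_cases hq : q ∈ K
          · rw [Set.indicator_of_mem hq]
            exact hCb q
          · rw [hK0 q hq]
            exact zero_le
      _ = C * D.μ₁ K := by
          rw [lintegral_indicator hK.measurableSet, setLIntegral_const]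
  exact (h1.trans_lt (ENNReal.mul_lt_top (lt_top_iff_ne_top.2 hC) hK.measure_lt_top)).ne

private theorem coef_cvP (D : Dat P H) (hD : D.Ok) (k k' : P → ℝ≥0∞) (hk : KB k) (hk' : KB k') :
    KB (cvJ D k k') ∧ ∫⁻ q, cvJ D k k' q ∂D.μ₁ = (∫⁻ q, k q ∂D.μ₁) * ∫⁻ q, k' q ∂D.μ₁ := by
  have hfin := coef_int_ne_top P H D hD k hk
  obtain ⟨hm, ⟨C, hC, hCb⟩, ⟨K, hK, hK0⟩⟩ := hk
  obtain ⟨hm', ⟨C', hC', hCb'⟩, ⟨K', hK', hK0'⟩⟩ := hk'
  have i1 := hD.haar₁
  have hmeas2 : Measurable fun p : P × P => k p.2 * k' (p.2⁻¹ * p.1) :=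
    (hm.comp measurable_snd).mul (hm'.comp ((measurable_inv.comp measurable_snd).mul measurable_fst))
  refine ⟨⟨?_, ⟨(∫⁻ q, k q ∂D.μ₁) * C', ENNReal.mul_ne_top hfin hC', ?_⟩, ⟨K * K', hK.mul hK', ?_⟩⟩, ?_⟩
  · unfold cvJ
    exact Measurable.lintegral_prod_right' (f := fun p : P × P => k p.2 * k' (p.2⁻¹ * p.1)) hmeas2
  · intro g
    unfold cvJ
    rw [← lintegral_mul_const _ hm]
    exact lintegral_mono fun q => mul_le_mul_right (hCb' _) _
  · intro g hg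
    unfold cvJ
    have h1 : ∀ q, k q * k' (q⁻¹ * g) = 0 := by
      intro q
      by_cases hq : q ∈ K
      · by_cases hq2 : q⁻¹ * g ∈ K'
        · exact absurd (Set.mem_mul.2 ⟨q, hq, q⁻¹ * g, hq2, by group⟩) hg
        · rw [hK0' _ hq2, mul_zero]
      · rw [hK0 _ hq, zero_mul]
    rw [lintegral_congr h1, lintegral_zero]
  · unfold cvJ
    rw [lintegral_lintegral_swap hmeas2.aemeasurable]
    have e1 : ∀ q : P, ∫⁻ s, k q * k' (q⁻¹ * s) ∂D.μ₁ = k q * ∫⁻ s, k' s ∂D.μ₁ := by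
      intro q
      have hmq : Measurable fun s => k' (q⁻¹ * s) := hm'.comp (measurable_const_mul _)
      rw [lintegral_const_mul _ hmq, lintegral_mul_left_eq_self]
    rw [lintegral_congr e1, lintegral_mul_const _ hm]

private theorem coef_N2 (D : Dat P H) (hD : D.Ok) (hc : Countable D.Γ) (hnu : S_nu P H)
    (k : P → ℝ≥0∞) (m : ℕ) (hm : 1 ≤ m) (z y : P × H) :
    D.N (D.tk k (m + 1)) z y =
      ∫⁻ h, D.ν h * D.N (D.tk k m) (z * ((1 : P), h)) y ∂D.μ₂ := by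
  obtain ⟨hm1, -, -, -, -, hsg, -, -⟩ := hnu D hD
  unfold Dat.N Dat.tk
  have e0 : ∀ (h : H) (u : D.Γ), ((z * ((1 : P), h))⁻¹ * (u : P × H) * y).1 =
      (z⁻¹ * (u : P × H) * y).1 := by
    intro h u
    simp only [Prod.fst_mul, Prod.fst_inv, mul_one]
  have e1 : ∀ (h : H) (u : D.Γ), ((z * ((1 : P), h))⁻¹ * (u : P × H) * y).2 =
      h⁻¹ * (z⁻¹ * (u : P × H) * y).2 := by
    intro h u
    simp only [Prod.snd_mul, Prod.snd_inv]
    group
  simp only [e0, e1]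
  have e2 : ∀ h : H, D.ν h * ∑' u : D.Γ, k (z⁻¹ * (u : P × H) * y).1 *
      D.nu m (h⁻¹ * (z⁻¹ * (u : P × H) * y).2) = ∑' u : D.Γ, D.ν h *
      (k (z⁻¹ * (u : P × H) * y).1 * D.nu m (h⁻¹ * (z⁻¹ * (u : P × H) * y).2)) :=
    fun q => ENNReal.tsum_mul_left.symm
  rw [lintegral_congr e2]
  have hνm : Measurable D.ν := hD.νc.measurable
  have hmq : ∀ u : D.Γ, Measurable fun h : H => D.nu m (h⁻¹ * (z⁻¹ * (u : P × H) * y).2) :=
    fun u => (hm1 m).comp (measurable_inv.mul_const _)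
  have hme : ∀ u : D.Γ, AEMeasurable (fun h : H => D.ν h * (k (z⁻¹ * (u : P × H) * y).1 *
      D.nu m (h⁻¹ * (z⁻¹ * (u : P × H) * y).2))) D.μ₂ := fun u =>
    (hνm.mul ((hmq u).const_mul _)).aemeasurable
  rw [lintegral_tsum hme]
  apply tsum_congr
  intro u
  have e3 : D.nu (m + 1) (z⁻¹ * (u : P × H) * y).2 =
      ∫⁻ h, D.ν h * D.nu m (h⁻¹ * (z⁻¹ * (u : P × H) * y).2) ∂D.μ₂ := by
    rw [add_comm m 1]
    exact (hsg 1 m le_rfl hm _).symm
  have hmu : Measurable fun h : H => D.ν h * D.nu m (h⁻¹ * (z⁻¹ * (u : P × H) * y).2) :=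
    hνm.mul (hmq u)
  rw [e3, ← lintegral_const_mul _ hmu]
  apply lintegral_congr
  intro h
  ring

private theorem coef_TT (D : Dat P H) (hD : D.Ok) (F : P × H → ℝ≥0∞)
    (hF : Measurable F) (hFb : ∀ z, F z ≠ ∞) (z : P × H) :
    (∫⁻ h, D.ν h * F (z * ((1 : P), h)) ∂D.μ₂).toReal = TTJ D (fun z => (F z).toReal) z := by
  unfold TTJ
  have hm2 : Measurable fun h : H => D.ν h * F (z * ((1 : P), h)) :=
    hD.νc.measurable.mul (hF.comp (measurable_const.mul (measurable_const.prodMk measurable_id)))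
  rw [← integral_toReal hm2.aemeasurable]
  · apply integral_congr_ae
    filter_upwards with h
    rw [ENNReal.toReal_mul]
  · filter_upwards with h
    exact ENNReal.mul_lt_top (lt_top_iff_ne_top.2 (hD.νt h)) (lt_top_iff_ne_top.2 (hFb _))

private theorem coef_IM (D : Dat P H) (hD : D.Ok) (F : P × H → ℝ≥0∞)
    (hF : Measurable F) (hFb : ∀ z, F z ≠ ∞) :
    (D.IM F).toReal = ∫ z, (D.χ z).toReal * (F z).toReal ∂D.μ := by
  unfold Dat.IM
  have hm2 : Measurable fun z => D.χ z * F z := hD.χm.mul hF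
  rw [← integral_toReal hm2.aemeasurable]
  · apply integral_congr_ae
    filter_upwards with z
    rw [ENNReal.toReal_mul]
  · filter_upwards with z
    exact ENNReal.mul_lt_top (lt_of_le_of_lt (hD.χ1 z) ENNReal.one_lt_top)
      (lt_top_iff_ne_top.2 (hFb _))

private theorem coef_shift (D : Dat P H) (g : P) (k : P → ℝ≥0∞) (n : ℕ) (z y : P × H) :
    D.N (D.tk (fun s => k (g⁻¹ * s)) n) z y = D.N (D.tk k n) (z * (g, (1 : H))) y := by
  unfold Dat.N Dat.tk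
  apply tsum_congr
  intro u
  have e0 : ((z * (g, (1 : H)))⁻¹ * (u : P × H) * y).1 = g⁻¹ * (z⁻¹ * (u : P × H) * y).1 := by
    simp only [Prod.fst_mul, Prod.fst_inv]
    group
  have e1 : ((z * (g, (1 : H)))⁻¹ * (u : P × H) * y).2 = (z⁻¹ * (u : P × H) * y).2 := by
    simp only [Prod.snd_mul, Prod.snd_inv, mul_one]
  rw [e0, e1]

private theorem coef_kg (g : P) (k : P → ℝ≥0∞) (hk : KB k) : KB (fun s => k (g⁻¹ * s)) := by
  obtain ⟨hm, ⟨C, hC, hCb⟩, ⟨K, hK, hK0⟩⟩ := hk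
  refine ⟨hm.comp (measurable_const_mul _), ⟨C, hC, fun s => hCb _⟩,
    ⟨(fun s => g * s) '' K, hK.image (continuous_const.mul continuous_id), ?_⟩⟩
  intro s hs
  apply hK0
  intro h
  exact hs ⟨g⁻¹ * s, h, mul_inv_cancel_left g s⟩

theorem tcoef : S_inst P H → S_nu P H → S_mg P H → S_Up P H → S_BI P H → S_rho P H →
    S_coef P H := by
  intro hinst hnu hmg hup _ _ D hD κ k₂ hκ hk₂
  obtain ⟨s1, s2, s3, hcount, -, -, -, -, -⟩ := hinst D hD
  obtain ⟨g1, g2, g3, g4, g5, -, g7, g8⟩ := hmg D hD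
  have hnm := (hnu D hD).1
  have hNm : ∀ (k : P → ℝ≥0∞), Measurable k → ∀ n, Measurable
      fun q : (P × H) × (P × H) => D.N (D.tk k n) q.1 q.2 := fun k hk n =>
    g3 _ (coef_tkm P H D k n hk (hnm n))
  have hNl : ∀ (k : P → ℝ≥0∞), Measurable k → ∀ n y, Measurable fun z => D.N (D.tk k n) z y :=
    fun k hk n y => (hNm k hk n).comp (measurable_id.prodMk measurable_const)
  have hNr : ∀ (k : P → ℝ≥0∞), Measurable k → ∀ n y, Measurable fun z => D.N (D.tk k n) y z :=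
    fun k hk n y => (hNm k hk n).comp (measurable_const.prodMk measurable_id)
  have hNt : ∀ (k : P → ℝ≥0∞), KB k → ∀ n x y, D.N (D.tk k n) x y ≠ ∞ := by
    intro k hk n x y
    obtain ⟨C, hC, hCb⟩ := hup D hD k hk.meas hk.bdd hk.supp
    exact ((hCb n x y).trans_lt (lt_top_iff_ne_top.2 hC)).ne
  obtain ⟨Cκ, hCκ, hCκb⟩ := hup D hD κ hκ.meas hκ.bdd hκ.supp
  have hb : ∀ y z, (D.N (D.tk κ 1) y z).toReal ≤ Cκ.toReal := fun y z =>
    ENNReal.toReal_mono hCκ (hCκb 1 y z)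
  have hint : ∫⁻ g, D.tk κ 1 g ∂D.μ = ∫⁻ q, κ q ∂D.μ₁ := by
    unfold Dat.tk Dat.μ
    rw [lintegral_prod_mul hκ.meas.aemeasurable (hnm 1).aemeasurable]
    have h1 : ∫⁻ y, D.nu 1 y ∂D.μ₂ = 1 := hD.νint
    rw [h1, mul_one]
  have hTT : ∀ (y : P × H) (m : ℕ), (fun z => (D.N (D.tk k₂ (m + 1)) z y).toReal) =
      (TTJ D)^[m] fun z => (D.N (D.tk k₂ 1) z y).toReal := by
    intro y m
    induction m with
    | zero => rfl
    | succ m ih =>
      rw [Function.iterate_succ_apply', ← ih]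
      funext z
      rw [← coef_TT P H D hD (fun z => D.N (D.tk k₂ (m + 1)) z y) (hNl k₂ hk₂.meas (m + 1) y)
        (fun z => hNt k₂ hk₂ _ _ _) z]
      rw [coef_N2 P H D hD hcount hnu k₂ (m + 1) (Nat.le_add_left 1 m) z y]
  have hconv : ∀ g : P, (fun s => ∫⁻ q, κ q * k₂ (g⁻¹ * q⁻¹ * s) ∂D.μ₁) =
      cvJ D κ (fun s => k₂ (g⁻¹ * s)) := by
    intro g
    unfold cvJ
    funext s
    apply lintegral_congr
    intro q
    rw [mul_assoc g⁻¹]
  refine ⟨?_, ⟨Cκ.toReal, ENNReal.toReal_nonneg, hb⟩, ?_, ?_⟩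
  · intro y
    refine ⟨⟨?_, ⟨Cκ.toReal, ?_⟩, ?_⟩, ⟨?_, ⟨Cκ.toReal, ?_⟩, ?_⟩, ?_, ?_⟩
    · exact (hNl κ hκ.meas 1 y).ennreal_toReal
    · intro z
      rw [abs_of_nonneg ENNReal.toReal_nonneg]
      exact hb z y
    · intro γ hγ z
      show (D.N (D.tk κ 1) (γ * z) y).toReal = (D.N (D.tk κ 1) z y).toReal
      rw [g1 (D.tk κ 1) z y ⟨γ, hγ⟩]
    · exact (hNr κ hκ.meas 1 y).ennreal_toReal
    · intro z
      rw [abs_of_nonneg ENNReal.toReal_nonneg]
      exact hb y z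
    · intro γ hγ z
      show (D.N (D.tk κ 1) y (γ * z)).toReal = (D.N (D.tk κ 1) y z).toReal
      rw [g2 (D.tk κ 1) y z ⟨γ, hγ⟩]
    · unfold mn
      rw [← coef_IM P H D hD (fun z => D.N (D.tk κ 1) z y) (hNl κ hκ.meas 1 y)
        (fun z => hNt κ hκ _ _ _), g8 _ (coef_tkm P H D κ 1 hκ.meas (hnm 1)), hint]
    · unfold mn
      rw [← coef_IM P H D hD (fun z => D.N (D.tk κ 1) y z) (hNr κ hκ.meas 1 y)
        (fun z => hNt κ hκ _ _ _), g7 _ (coef_tkm P H D κ 1 hκ.meas (hnm 1)), hint]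
  · intro g n _ x y
    rw [hconv g]
    exact hNt _ (coef_cvP P H D hD κ _ hκ (coef_kg P g k₂ hk₂)).1 n x y
  · intro g m x y
    have hkg := coef_kg P g k₂ hk₂
    rw [hconv g]
    have e2 : D.N (D.tk (cvJ D κ (fun s => k₂ (g⁻¹ * s))) (m + 2)) x y =
        D.IM fun z => D.N (D.tk κ 1) x z *
        D.N (D.tk (fun s => k₂ (g⁻¹ * s)) (m + 1)) z y := by
      have h1 := g4 (D.tk κ 1) (D.tk (fun s => k₂ (g⁻¹ * s)) (m + 1))
        (coef_tkm P H D κ 1 hκ.meas (hnm 1)) (coef_tkm P H D _ (m + 1) hkg.meas (hnm _)) x y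
        (fun _ => 1)
      have h2 : ∀ u : D.Γ, (∫⁻ q, D.tk κ 1 q * D.tk (fun s => k₂ (g⁻¹ * s)) (m + 1)
          (q⁻¹ * (x⁻¹ * (u : P × H) * y)) ∂D.μ) * 1 =
          D.tk (cvJ D κ (fun s => k₂ (g⁻¹ * s))) (m + 2) (x⁻¹ * (u : P × H) * y) := by
        intro u
        rw [mul_one, g5 κ _ 1 (m + 1) hκ.meas hkg.meas le_rfl (Nat.le_add_left 1 m)]
        have h3 : 1 + (m + 1) = m + 2 := by ring
        rw [h3]
        rfl
      rw [tsum_congr h2] at h1
      have h4 : D.N (D.tk (cvJ D κ (fun s => k₂ (g⁻¹ * s))) (m + 2)) x y =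
          ∑' u : D.Γ, D.tk (cvJ D κ (fun s => k₂ (g⁻¹ * s))) (m + 2)
            (x⁻¹ * (u : P × H) * y) := rfl
      rw [h4, ← h1]
      have h5 : (fun z => ∑' e : D.Γ, ∑' e' : D.Γ, D.tk κ 1 (x⁻¹ * (e : P × H) * z) *
          D.tk (fun s => k₂ (g⁻¹ * s)) (m + 1) (z⁻¹ * (e' : P × H) * y) * 1) =
          fun z => D.N (D.tk κ 1) x z *
            D.N (D.tk (fun s => k₂ (g⁻¹ * s)) (m + 1)) z y := by
        funext z
        unfold Dat.N
        rw [← ENNReal.tsum_mul_right]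
        apply tsum_congr
        intro e
        rw [← ENNReal.tsum_mul_left]
        apply tsum_congr
        intro e'
        rw [mul_one]
      rw [h5]
    have hmz : Measurable fun z => D.N (D.tk κ 1) x z *
        D.N (D.tk (fun s => k₂ (g⁻¹ * s)) (m + 1)) z y :=
      (hNr κ hκ.meas 1 x).mul (hNl _ hkg.meas (m + 1) y)
    rw [e2, coef_IM P H D hD _ hmz
      (fun z => ENNReal.mul_ne_top (hNt κ hκ _ _ _) (hNt _ hkg _ _ _))]
    unfold ip
    apply integral_congr_ae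
    filter_upwards with z
    rw [ENNReal.toReal_mul, coef_shift P H D g k₂ (m + 1) z y]
    have h6 := congrFun (hTT y m) (z * (g, (1 : H)))
    unfold rho
    rw [← h6]

end Pool.Agent.MPEF.U
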