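import Pool.Agent.Lib.MP_ef3f0f_gt.U.J.Spec

set_option autoImplicit false

/-!
# MP_ef3f0f_gt, Theorem U, Part J: gap and iteration (`S_it`)
-/

namespace Pool.Agent.MPEF.U

open MeasureTheory Topology
open scoped ENNReal Pointwise

section

variable (P H : Type) [Group P] [Group H] [TopologicalSpace P] [TopologicalSpace H]
  [IsTopologicalGroup P] [IsTopologicalGroup H] [LocallyCompactSpace P] [LocallyCompactSpace H]
  [T2Space P] [T2Space H] [SecondCountableTopology P] [SecondCountableTopology H]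
  [MeasurableSpace P] [MeasurableSpace H] [BorelSpace P] [BorelSpace H]

theorem tit : S_BI P H → S_TR P H → S_rho P H → S_AVc P H → S_al P H → S_poin P H →
    S_it P H := by
  intro hBI hTR hrho hAVc hal hpoin D hD X hX
  obtain ⟨K, b, C1, hK, hC1, hp⟩ := hpoin D hD
  obtain ⟨C2, hC2, ha⟩ := hal D hD X hX K hK b
  obtain ⟨T1, -, -, -, -, T6, -, T8, -⟩ := hTR D hD
  obtain ⟨R1, R2, -, R4, R5, -⟩ := hrho D hD
  obtain ⟨-, -, -, hPH⟩ := hAVc D hD
  have hPH' := hPH X hX
  have B0 : ∀ f, 0 ≤ ns D f := (hBI D hD).2.2.2.2.2.2.2.2.2.1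
  set C0 : ℝ := max 1 (C1 * C2) with hC0
  have hC01 : 1 ≤ C0 := le_max_left _ _
  have hC0p : 0 < C0 := lt_of_lt_of_le one_pos hC01
  -- the gap
  have gap : ∀ f, BI D f → mn D f = 0 → ns D (X.PH (TTJ D f)) ≤ (1 - 1 / C0) * ns D f := by
    intro f hf h0
    have hle : ns D (X.PH (TTJ D f)) ≤ ns D f :=
      ((hPH' _ (T1 f hf)).2.1).trans (T6 f hf)
    have h1 : ns D f ≤ C1 * (C2 * (ns D f - ns D (X.PH (TTJ D f)))) :=
      hp f hf h0 _ (mul_nonneg hC2 (sub_nonneg.2 hle)) (fun q hq h hh => ha f hf q hq h hh)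
    have h2 : ns D f ≤ C0 * (ns D f - ns D (X.PH (TTJ D f))) := by
      refine h1.trans ?_
      rw [← mul_assoc]
      exact mul_le_mul_of_nonneg_right (le_max_right _ _) (sub_nonneg.2 hle)
    have h3 : ns D f / C0 ≤ ns D f - ns D (X.PH (TTJ D f)) := by
      rw [div_le_iff₀ hC0p]
      linarith
    have h4 : (1 - 1 / C0) * ns D f = ns D f - ns D f / C0 := by ring
    rw [h4]
    linarith
  have hq0 : 0 ≤ 1 - 1 / C0 := by
    rw [sub_nonneg, div_le_one hC0p]
    exact hC01
  have hq1 : 1 - 1 / C0 < 1 := by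
    have : 0 < 1 / C0 := by positivity
    linarith
  refine ⟨1 - 1 / C0, hq0, hq1, fun g => ?_⟩
  set Q : (P × H → ℝ) → P × H → ℝ := fun f => X.PH (rho g f) with hQ
  -- `Q` commutes with `TTJ`
  have com : ∀ f, BI D f → Q (TTJ D f) = TTJ D (Q f) := by
    intro f hf
    show X.PH (rho g (TTJ D f)) = TTJ D (X.PH (rho g f))
    rw [← R5 g f hf, (hPH' _ (R1 g f hf)).2.2.2.1]
  have com' : ∀ (j : ℕ) (f), BI D f → Q ((TTJ D)^[j] f) = (TTJ D)^[j] (Q f) := by
    intro j
    induction j with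
    | zero => intro f _; rfl
    | succ j ih =>
      intro f hf
      rw [Function.iterate_succ_apply, ih _ (T1 f hf), com f hf, ← Function.iterate_succ_apply]
  have ctr : ∀ (j : ℕ) (f), BI D f → ns D ((TTJ D)^[j] f) ≤ ns D f := by
    intro j
    induction j with
    | zero => intro f _; exact le_rfl
    | succ j ih =>
      intro f hf
      rw [Function.iterate_succ_apply]
      exact (ih _ (T1 f hf)).trans (T6 f hf)
  intro m
  induction m with
  | zero =>
    intro M _ f hf _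
    rw [pow_zero, one_mul]
    exact ctr M f hf
  | succ m ih =>
    intro M hM f hf h0
    obtain ⟨M', rfl⟩ : ∃ M', M = M' + 1 := ⟨M - 1, by omega⟩
    have hg : BI D (rho g f) := R1 g f hf
    have hTg : BI D (TTJ D (rho g f)) := T1 _ hg
    have e0 : Q (TTJ D f) = X.PH (TTJ D (rho g f)) := by
      show X.PH (rho g (TTJ D f)) = X.PH (TTJ D (rho g f))
      rw [R5 g f hf]
    have hf1 : BI D (Q (TTJ D f)) := by
      rw [e0]
      exact (hPH' _ hTg).1
    have hm1 : mn D (Q (TTJ D f)) = 0 := by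
      rw [e0, (hPH' _ hTg).2.2.1, T8 _ hg, R4 g f hf, h0]
    have hn1 : ns D (Q (TTJ D f)) ≤ (1 - 1 / C0) * ns D f := by
      rw [e0, ← R2 g f hf]
      exact gap _ hg (by rw [R4 g f hf, h0])
    have e1 : Q^[m + 1] ((TTJ D)^[M' + 1] f) = Q^[m] ((TTJ D)^[M'] (Q (TTJ D f))) := by
      rw [Function.iterate_succ_apply, Function.iterate_succ_apply, com' M' _ (T1 f hf)]
    rw [e1, pow_succ]
    refine (ih M' (by omega) _ hf1 hm1).trans ?_
    rw [mul_assoc]
    exact mul_le_mul_of_nonneg_left hn1 (pow_nonneg hq0 m)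

end

end Pool.Agent.MPEF.U
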