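import Pool.Agent.Lib.MP_ef3f0f_gt.U.J.Spec

set_option autoImplicit false

/-!
# MP_ef3f0f_gt, Theorem U, Part J, module lipN: the coefficients are Lipschitz
-/

namespace Pool.Agent.MPEF.U

open MeasureTheory Topology
open scoped ENNReal Pointwise

variable (P H : Type) [Group P] [Group H] [TopologicalSpace P] [TopologicalSpace H]
  [IsTopologicalGroup P] [IsTopologicalGroup H] [LocallyCompactSpace P] [LocallyCompactSpace H]
  [T2Space P] [T2Space H] [SecondCountableTopology P] [SecondCountableTopology H]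
  [MeasurableSpace P] [MeasurableSpace H] [BorelSpace P] [BorelSpace H]

omit [TopologicalSpace P] [TopologicalSpace H]
  [IsTopologicalGroup P] [IsTopologicalGroup H] [LocallyCompactSpace P] [LocallyCompactSpace H]
  [T2Space P] [T2Space H] [SecondCountableTopology P] [SecondCountableTopology H]
  [BorelSpace P] [BorelSpace H] in
/-- Domination of sums. -/
private theorem lipN_dom (D : Dat P H) (k J : P → ℝ≥0∞) (c : ℝ≥0∞) (x z x' z' : P × H)
    (h : ∀ u : D.Γ, D.tk k 1 (x'⁻¹ * (u : P × H) * z') ≤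
      D.tk k 1 (x⁻¹ * (u : P × H) * z) + c * D.tk J 1 (x⁻¹ * (u : P × H) * z)) :
    D.N (D.tk k 1) x' z' ≤ D.N (D.tk k 1) x z + c * D.N (D.tk J 1) x z := by
  unfold Dat.N
  rw [← ENNReal.tsum_mul_left, ← ENNReal.tsum_add]
  exact ENNReal.tsum_le_tsum h

private theorem lipN_real {a b e : ℝ≥0∞} {r : ℝ} (ha : a ≠ ∞) (hb : b ≠ ∞) (he : e ≠ ∞)
    (h1 : a ≤ b + e) (h2 : b ≤ a + e) (hr : e.toReal ≤ r) : |a.toReal - b.toReal| ≤ r := by
  have h3 : a.toReal ≤ b.toReal + e.toReal := by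
    rw [← ENNReal.toReal_add hb he]
    exact ENNReal.toReal_mono (ENNReal.add_ne_top.2 ⟨hb, he⟩) h1
  have h4 : b.toReal ≤ a.toReal + e.toReal := by
    rw [← ENNReal.toReal_add ha he]
    exact ENNReal.toReal_mono (ENNReal.add_ne_top.2 ⟨ha, he⟩) h2
  rw [abs_le]
  constructor <;> linarith

private theorem lipN_pt {a b : ℝ≥0∞} {r : ℝ} (ha : a ≠ ∞) (hb : b ≠ ∞)
    (h : |a.toReal - b.toReal| ≤ r) : a ≤ b + ENNReal.ofReal r := by
  have h1 : a.toReal ≤ b.toReal + r := by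
    have := (abs_le.1 h).2
    linarith
  have h2 : 0 ≤ r := (abs_nonneg _).trans h
  calc a = ENNReal.ofReal a.toReal := (ENNReal.ofReal_toReal ha).symm
    _ ≤ ENNReal.ofReal (b.toReal + r) := ENNReal.ofReal_le_ofReal h1
    _ = ENNReal.ofReal b.toReal + ENNReal.ofReal r :=
        ENNReal.ofReal_add ENNReal.toReal_nonneg h2
    _ = b + ENNReal.ofReal r := by rw [ENNReal.ofReal_toReal hb]

theorem tlipN : S_inst P H → S_nu P H → S_Up P H → S_coef P H → S_lipN P H := by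
  intro _hinst _hnu hUp hcoef D hD X hX k hk
  obtain ⟨hKB, L, hL0, hL⟩ := hk
  obtain ⟨K, hKc, hK⟩ := hKB.supp
  obtain ⟨Ck, hCk, hkC⟩ := hKB.bdd
  obtain ⟨K₀, hK₀c, hK₀⟩ := hX.Vc
  have hkt : ∀ q, k q ≠ ∞ := fun q => ne_top_of_le_ne_top hCk (hkC q)
  set S : Set P := K ∪ (K * K₀ ∪ K₀ * K) with hS
  have hSc : IsCompact S := hKc.union ((hKc.mul hK₀c).union (hK₀c.mul hKc))
  have hSm : MeasurableSet S := hSc.isClosed.measurableSet
  set J : P → ℝ≥0∞ := S.indicator fun _ => 1 with hJ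
  have hJ1 : ∀ q ∈ S, J q = 1 := fun q hq => Set.indicator_of_mem hq _
  have hJm : Measurable J := measurable_const.indicator hSm
  obtain ⟨CJ, hCJ, hJle⟩ := hUp D hD J hJm ⟨1, ENNReal.one_ne_top, fun q =>
    Set.indicator_le_self' (fun _ _ => zero_le) q⟩
    ⟨S, hSc, fun q hq => Set.indicator_of_notMem hq _⟩
  obtain ⟨CN, hCN, hNle⟩ := hUp D hD k hKB.meas hKB.bdd hKB.supp
  have hNt : ∀ x y, D.N (D.tk k 1) x y ≠ ∞ := fun x y => ne_top_of_le_ne_top hCN (hNle 1 x y)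
  obtain ⟨hBI, -, -, -⟩ := hcoef D hD k k hKB hKB
  -- the pointwise inequalities
  have hin : ∀ η : ℝ, η ≤ 1 → ∀ g ∈ X.V η, g ∈ K₀ ∧ g⁻¹ ∈ K₀ := fun η hη g hg =>
    ⟨hK₀ (hX.Vm η 1 hη hg), hK₀ (hX.Vm η 1 hη (hX.Vi η g hg))⟩
  have key : ∀ η : ℝ, 0 < η → η ≤ 1 → ∀ g ∈ X.V η, ∀ q : P,
      (k (q * g) ≤ k q + ENNReal.ofReal (L * η) * J q ∧
        k q ≤ k (q * g) + ENNReal.ofReal (L * η) * J q) ∧
      (k (g * q) ≤ k q + ENNReal.ofReal (L * η) * J q ∧
        k q ≤ k (g * q) + ENNReal.ofReal (L * η) * J q) := by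
    intro η hη0 hη g hg q
    obtain ⟨hg1, hg2⟩ := hin η hη g hg
    by_cases hq : q ∈ S
    · rw [hJ1 q hq, mul_one]
      obtain ⟨h1, h2⟩ := hL η hη0 hη g hg q
      have h1' := h1
      have h2' := h2
      rw [abs_sub_comm] at h1' h2'
      exact ⟨⟨lipN_pt (hkt _) (hkt _) h1, lipN_pt (hkt _) (hkt _) h1'⟩,
        lipN_pt (hkt _) (hkt _) h2, lipN_pt (hkt _) (hkt _) h2'⟩
    · have h0 : k q = 0 := hK q fun h => hq (Or.inl h)
      have h1 : k (q * g) = 0 := hK _ fun h => hq (Or.inr (Or.inl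
        (Set.mem_mul.2 ⟨q * g, h, g⁻¹, hg2, by group⟩)))
      have h2 : k (g * q) = 0 := hK _ fun h => hq (Or.inr (Or.inr
        (Set.mem_mul.2 ⟨g⁻¹, hg2, g * q, h, by group⟩)))
      rw [h0, h1, h2]
      exact ⟨⟨zero_le, zero_le⟩, zero_le, zero_le⟩
  -- the right shift
  have hR : ∀ η : ℝ, 0 < η → η ≤ 1 → ∀ g ∈ X.V η, ∀ x z : P × H,
      |(D.N (D.tk k 1) x (z * (g, (1 : H)))).toReal - (D.N (D.tk k 1) x z).toReal| ≤
        L * CJ.toReal * η := by
    intro η hη0 hη g hg x z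
    have e1 : ∀ u : D.Γ, x⁻¹ * (u : P × H) * (z * (g, (1 : H))) =
        ((x⁻¹ * (u : P × H) * z).1 * g, (x⁻¹ * (u : P × H) * z).2) := by
      intro u
      rw [← mul_assoc]
      ext
      · rfl
      · exact mul_one _
    have h1 := lipN_dom P H D k J (ENNReal.ofReal (L * η)) x z x (z * (g, (1 : H))) (by
      intro u
      rw [e1]
      unfold Dat.tk
      rw [← mul_assoc, ← add_mul]
      exact mul_le_mul_left (key η hη0 hη g hg _).1.1 _)
    have h2 : D.N (D.tk k 1) x z ≤ D.N (D.tk k 1) x (z * (g, (1 : H))) +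
        ENNReal.ofReal (L * η) * D.N (D.tk J 1) x z := by
      unfold Dat.N
      rw [← ENNReal.tsum_mul_left, ← ENNReal.tsum_add]
      refine ENNReal.tsum_le_tsum fun u => ?_
      rw [e1]
      unfold Dat.tk
      rw [← mul_assoc, ← add_mul]
      exact mul_le_mul_left (key η hη0 hη g hg _).1.2 _
    have h3 : ENNReal.ofReal (L * η) * D.N (D.tk J 1) x z ≤ ENNReal.ofReal (L * η) * CJ :=
      mul_le_mul_right (hJle 1 x z) _
    refine lipN_real (hNt _ _) (hNt _ _) (ENNReal.mul_ne_top ENNReal.ofReal_ne_top hCJ)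
      (h1.trans (add_le_add_right h3 _)) (h2.trans (add_le_add_right h3 _)) ?_
    rw [ENNReal.toReal_mul, ENNReal.toReal_ofReal (by positivity)]
    exact le_of_eq (by ring)
  -- the left shift
  have hLs : ∀ η : ℝ, 0 < η → η ≤ 1 → ∀ g ∈ X.V η, ∀ x z : P × H,
      |(D.N (D.tk k 1) (z * (g, (1 : H))) x).toReal - (D.N (D.tk k 1) z x).toReal| ≤
        L * CJ.toReal * η := by
    intro η hη0 hη g hg x z
    have hg' := hX.Vi η g hg
    have e1 : ∀ u : D.Γ, (z * (g, (1 : H)))⁻¹ * (u : P × H) * x =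
        (g⁻¹ * (z⁻¹ * (u : P × H) * x).1, (z⁻¹ * (u : P × H) * x).2) := by
      intro u
      rw [mul_inv_rev, mul_assoc, mul_assoc]
      ext
      · show g⁻¹ * (z⁻¹ * ((u : P × H) * x)).1 = _
        rw [mul_assoc]
      · show (1 : H)⁻¹ * (z⁻¹ * ((u : P × H) * x)).2 = _
        rw [inv_one, one_mul, mul_assoc]
    have h1 := lipN_dom P H D k J (ENNReal.ofReal (L * η)) z x (z * (g, (1 : H))) x (by
      intro u
      rw [e1]
      unfold Dat.tk
      rw [← mul_assoc, ← add_mul]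
      exact mul_le_mul_left (key η hη0 hη g⁻¹ hg' _).2.1 _)
    have h2 : D.N (D.tk k 1) z x ≤ D.N (D.tk k 1) (z * (g, (1 : H))) x +
        ENNReal.ofReal (L * η) * D.N (D.tk J 1) z x := by
      unfold Dat.N
      rw [← ENNReal.tsum_mul_left, ← ENNReal.tsum_add]
      refine ENNReal.tsum_le_tsum fun u => ?_
      rw [e1]
      unfold Dat.tk
      rw [← mul_assoc, ← add_mul]
      exact mul_le_mul_left (key η hη0 hη g⁻¹ hg' _).2.2 _
    have h3 : ENNReal.ofReal (L * η) * D.N (D.tk J 1) z x ≤ ENNReal.ofReal (L * η) * CJ :=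
      mul_le_mul_right (hJle 1 z x) _
    refine lipN_real (hNt _ _) (hNt _ _) (ENNReal.mul_ne_top ENNReal.ofReal_ne_top hCJ)
      (h1.trans (add_le_add_right h3 _)) (h2.trans (add_le_add_right h3 _)) ?_
    rw [ENNReal.toReal_mul, ENNReal.toReal_ofReal (by positivity)]
    exact le_of_eq (by ring)
  have hC1 : ∀ x y, |(D.N (D.tk k 1) x y).toReal| ≤ max CN.toReal (L * CJ.toReal) := by
    intro x y
    rw [abs_of_nonneg ENNReal.toReal_nonneg]
    exact (ENNReal.toReal_mono hCN (hNle 1 x y)).trans (le_max_left _ _)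
  have hC2 : ∀ η : ℝ, 0 < η → L * CJ.toReal * η ≤ max CN.toReal (L * CJ.toReal) * η :=
    fun η hη => mul_le_mul_of_nonneg_right (le_max_right _ _) hη.le
  refine ⟨max CN.toReal (L * CJ.toReal), le_max_of_le_left ENNReal.toReal_nonneg, fun x => ⟨?_, ?_⟩⟩
  · exact ⟨(hBI x).2.1, fun z => hC1 _ _, fun η hη0 hη g hg z =>
      (hR η hη0 hη g hg x z).trans (hC2 η hη0)⟩
  · exact ⟨(hBI x).1, fun z => hC1 _ _, fun η hη0 hη g hg z =>
      (hLs η hη0 hη g hg x z).trans (hC2 η hη0)⟩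

end Pool.Agent.MPEF.U
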