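import Pool.Agent.Lib.MP_ef3f0f_gt.U.J.Spec

set_option autoImplicit false
set_option linter.unusedSectionVars false

/-!
# MP_ef3f0f_gt, Theorem U, Part J: mixing with a polynomial rate
-/

namespace Pool.Agent.MPEF.U

open MeasureTheory Topology
open scoped ENNReal Pointwise

variable (P H : Type) [Group P] [Group H] [TopologicalSpace P] [TopologicalSpace H]
  [IsTopologicalGroup P] [IsTopologicalGroup H] [LocallyCompactSpace P] [LocallyCompactSpace H]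
  [T2Space P] [T2Space H] [SecondCountableTopology P] [SecondCountableTopology H]
  [MeasurableSpace P] [MeasurableSpace H] [BorelSpace P] [BorelSpace H]

/-- The case of mean zero. -/
private theorem mix_zero (hBI : S_BI P H) (hrho : S_rho P H) (hAV : S_AVc P H)
    (hit : S_it P H) (hsh : S_sh P H) (hnum : S_num) (D : Dat P H) (hD : D.Ok) (X : BX P)
    (hX : X.Ok) (C₁ : ℝ) (hC₁ : 0 ≤ C₁) : ∃ C : ℝ, 0 ≤ C ∧
    ∀ f f', LF D X C₁ f → LF D X C₁ f' → mn D f' = 0 → ∀ n M : ℕ, 1 ≤ n → n ≤ M + 2 →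
      |ip D f (rho (X.a ^ n) ((TTJ D)^[M] f'))| ≤ C * ((n : ℝ)⁻¹) ^ 6 := by
  obtain ⟨-, -, -, -, -, -, -, -, -, -, bCS, -⟩ := hBI D hD
  obtain ⟨rB, rN, -, -, -, r1, -⟩ := hrho D hD
  obtain ⟨aC, aR, aI, aP⟩ := hAV D hD
  obtain ⟨s1, -, s3⟩ := hsh D hD X hX C₁ hC₁
  obtain ⟨q, hq0, hq1, hq⟩ := hit D hD X hX
  obtain ⟨Cb, hCb, hbox⟩ := hX.box
  obtain ⟨C', n₀, hC', hn⟩ := hnum q Cb hq0 hq1 hCb.le
  have hLF : ∀ f', LF D X C₁ f' → ∀ M : ℕ, LF D X C₁ ((TTJ D)^[M] f') := by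
    intro f' hf' M
    induction M with
    | zero => exact hf'
    | succ M ih => rw [Function.iterate_succ_apply']; exact s1 _ ih
  have hns : ∀ f, LF D X C₁ f → ns D f ≤ C₁ ^ 2 := by
    intro f hf
    have := (s3 f f hf hf).1 1
    rw [r1] at this
    exact (le_abs_self _).trans this
  refine ⟨2 * C₁ ^ 2 * C' + C₁ ^ 2 * (n₀ : ℝ) ^ 6, by positivity, ?_⟩
  intro f f' hf hf' h0 n M hn1 hnM
  have hnpos : (0 : ℝ) < n := by exact_mod_cast hn1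
  have hinv : 0 ≤ ((n : ℝ)⁻¹) ^ 6 := by positivity
  by_cases hlt : n < n₀
  · have h1 := (s3 f _ hf (hLF f' hf' M)).1 (X.a ^ n)
    have h2 : 1 ≤ (n₀ : ℝ) ^ 6 * ((n : ℝ)⁻¹) ^ 6 := by
      rw [← mul_pow]
      apply one_le_pow₀
      rw [← div_eq_mul_inv, one_le_div hnpos]
      exact_mod_cast hlt.le
    have h3 : C₁ ^ 2 ≤ C₁ ^ 2 * ((n₀ : ℝ) ^ 6 * ((n : ℝ)⁻¹) ^ 6) :=
      le_mul_of_one_le_right (sq_nonneg _) h2
    have h4 : 0 ≤ 2 * C₁ ^ 2 * C' * ((n : ℝ)⁻¹) ^ 6 := by positivity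
    calc _ ≤ C₁ ^ 2 := h1
      _ ≤ C₁ ^ 2 * ((n₀ : ℝ) ^ 6 * ((n : ℝ)⁻¹) ^ 6) := h3
      _ ≤ _ := by rw [add_mul]; linarith
  · obtain ⟨s, m, s₀, hs1, hm1, hss, hns0, hmn, hη1, hsum⟩ := hn n (not_lt.mp hlt)
    have hmM : m ≤ M := by omega
    set η : ℝ := Cb * m * (1 / 2) ^ s with hη
    have hm0 : (0 : ℝ) < m := by exact_mod_cast hm1
    have hη0 : 0 < η := by positivity
    set F := (TTJ D)^[M] f' with hF
    have hFL : LF D X C₁ F := hLF f' hf' M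
    have hAVQ : AV D ((fun f => X.PH (rho (X.a ^ s) f))^[m]) ((X.B * {X.a ^ s}) ^ m) :=
      aI _ _ (aC _ _ _ _ (aP X hX) (aR (X.a ^ s))) m
    obtain ⟨hQB, -, -, -, hQ⟩ := hAVQ F hFL.bi
    have h1 : |ip D f (rho (X.a ^ s₀) ((fun f => X.PH (rho (X.a ^ s) f))^[m] F)) -
        ip D f (rho (X.a ^ n) F)| ≤ 2 * C₁ ^ 2 * η := by
      refine hQ f hf.bi (X.a ^ s₀) _ _ fun p hp => ?_
      obtain ⟨g, hg, g', hg', hgg⟩ := hbox s₀ s m hs1 hm1 hss hη1 p hp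
      rw [hgg, ← hns0]
      exact (s3 f F hf hFL).2 η hη0 hη1 g hg g' hg' _
    have h2 : |ip D f (rho (X.a ^ s₀) ((fun f => X.PH (rho (X.a ^ s) f))^[m] F))| ≤
        C₁ ^ 2 * Real.sqrt (q ^ m) := by
      have h3 := bCS f _ hf.bi (rB (X.a ^ s₀) _ hQB)
      rw [rN _ _ hQB] at h3
      have h4 := hq (X.a ^ s) m M hmM f' hf'.bi h0
      have h5 : ns D f ≤ C₁ ^ 2 := hns f hf
      have h6 : ns D f' ≤ C₁ ^ 2 := hns f' hf'
      have hqm : 0 ≤ q ^ m := pow_nonneg hq0 m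
      have h7 : q ^ m * ns D f' ≤ q ^ m * C₁ ^ 2 := mul_le_mul_of_nonneg_left h6 hqm
      have h8 : ip D f (rho (X.a ^ s₀) ((fun f => X.PH (rho (X.a ^ s) f))^[m] F)) ^ 2 ≤
          (C₁ ^ 2 * Real.sqrt (q ^ m)) ^ 2 := by
        rw [mul_pow, Real.sq_sqrt hqm]
        calc _ ≤ _ := h3
          _ ≤ ns D f * (q ^ m * C₁ ^ 2) := by
            refine mul_le_mul_of_nonneg_left (h4.trans h7) ?_
            obtain ⟨-, -, -, -, -, -, -, -, -, b0, -⟩ := hBI D hD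
            exact b0 f
          _ ≤ C₁ ^ 2 * (q ^ m * C₁ ^ 2) := mul_le_mul_of_nonneg_right h5 (by positivity)
          _ = _ := by ring
      exact abs_le_of_sq_le_sq h8 (by positivity)
    have h9 : |ip D f (rho (X.a ^ n) F)| ≤ 2 * C₁ ^ 2 * η + C₁ ^ 2 * Real.sqrt (q ^ m) := by
      have h10 := abs_sub_abs_le_abs_sub (ip D f (rho (X.a ^ n) F))
        (ip D f (rho (X.a ^ s₀) ((fun f => X.PH (rho (X.a ^ s) f))^[m] F)))
      rw [abs_sub_comm] at h10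
      linarith
    have h11 : 0 ≤ C₁ ^ 2 * Real.sqrt (q ^ m) := by positivity
    have h12 : 2 * C₁ ^ 2 * (η + Real.sqrt (q ^ m)) ≤ 2 * C₁ ^ 2 * (C' * ((n : ℝ)⁻¹) ^ 6) :=
      mul_le_mul_of_nonneg_left hsum (by positivity)
    have h13 : 0 ≤ C₁ ^ 2 * (n₀ : ℝ) ^ 6 * ((n : ℝ)⁻¹) ^ 6 := by positivity
    rw [add_mul]
    nlinarith

theorem tmix : S_BI P H → S_TR P H → S_rho P H → S_AVc P H → S_it P H → S_sh P H → S_num →
    S_mix P H := by
  intro hBI hTR hrho hAV hit hsh hnum D hD X hX C₀ hC₀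
  obtain ⟨C, hC, hmain⟩ := mix_zero P H hBI hrho hAV hit hsh hnum D hD X hX (2 * C₀) (by positivity)
  obtain ⟨bAS, -, bC, -, -, ipc, -, ipS, bsm, -, -, -, -, mnc, mni, -, -⟩ := hBI D hD
  obtain ⟨tB, -, -, -, -, -, -, -, -, tS, -, tc, -, -, -⟩ := hTR D hD
  obtain ⟨rB, -, -, -, -, -, -, -, rc, rS⟩ := hrho D hD
  obtain ⟨-, s2, -⟩ := hsh D hD X hX C₀ hC₀
  refine ⟨C, hC, ?_⟩
  intro f f' hf hf' n M hn hnM
  have hf2 : LF D X (2 * C₀) f := by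
    refine ⟨hf.bi, fun x => (hf.le x).trans (by linarith), fun η h0 h1 g hg x => ?_⟩
    exact (hf.lip η h0 h1 g hg x).trans (by nlinarith [mul_nonneg hC₀ h0.le])
  have h1 := hmain f _ hf2 (s2 f' hf').1 (s2 f' hf').2 n M hn hnM
  have hTB : ∀ M : ℕ, BI D ((TTJ D)^[M] f') := by
    intro M
    induction M with
    | zero => exact hf'.bi
    | succ M ih => rw [Function.iterate_succ_apply']; exact tB _ ih
  have hT : ∀ M : ℕ, (TTJ D)^[M] (fun x => f' x - mn D f') =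
      fun x => (TTJ D)^[M] f' x - mn D f' := by
    intro M
    induction M with
    | zero => rfl
    | succ M ih =>
      rw [Function.iterate_succ_apply', Function.iterate_succ_apply', ih, tS _ _ (hTB M) (bC _), tc]
  have h2 : ip D f (rho (X.a ^ n) ((TTJ D)^[M] (fun x => f' x - mn D f'))) =
      ip D f (rho (X.a ^ n) ((TTJ D)^[M] f')) - mn D f * mn D f' := by
    rw [hT M, rS (X.a ^ n) ((TTJ D)^[M] f') (fun _ => mn D f'), rc, ipc f,
      ipS _ _ _ (rB _ _ (hTB M)) (bC _) hf.bi, ipc _ f]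
    have h3 : ip D (fun _ => mn D f') f = mn D f' * mn D f := by
      have h4 := bsm (mn D f') (fun _ => (1 : ℝ)) f
      simp only [mul_one] at h4
      rw [h4, mni f, ipc]
    rw [h3, mul_comm (mn D f) (mn D f')]
  rw [← h2]
  exact h1

end Pool.Agent.MPEF.U
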