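import Pool.Agent.Lib.MP_ef3f0f_gt.U.J.Spec

/-! # Theorem U, Part J, module num (helper47): choice of the lengths -/

set_option autoImplicit false

namespace Pool.Agent.MPEF.U

open MeasureTheory Topology
open scoped ENNReal Pointwise

private theorem num_L0 (A : ℕ) : ∃ L₀ : ℕ, ∀ L : ℕ, L₀ ≤ L → 14 * (A + 1) * L ^ 2 ≤ 2 ^ L := by
  have h := tendsto_pow_const_div_const_pow_of_one_lt 2 (r := (2 : ℝ)) one_lt_two
  have hpos : (0 : ℝ) < 1 / (14 * (A + 1)) := by positivity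
  have h1 := h.eventually (gt_mem_nhds hpos)
  obtain ⟨L₀, hL⟩ := Filter.eventually_atTop.1 h1
  refine ⟨L₀, fun L hl => ?_⟩
  have h2 := hL L hl
  have h3 : (0 : ℝ) < 2 ^ L := by positivity
  rw [div_lt_div_iff₀ h3 (by positivity)] at h2
  have h4 : ((14 * (A + 1) * L ^ 2 : ℕ) : ℝ) ≤ ((2 ^ L : ℕ) : ℝ) := by
    push_cast
    linarith
  exact_mod_cast h4

theorem tnum : S_num := by
  intro q C hq0 hq1 hC
  obtain ⟨A', hA'⟩ := exists_pow_lt_of_lt_one (show (0 : ℝ) < (1 / 2) ^ 12 by norm_num) hq1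
  obtain ⟨L₀, hL₀⟩ := num_L0 (A' + 1)
  have hA : q ^ (A' + 1) ≤ (1 / 2) ^ 12 :=
    (pow_le_pow_of_le_one hq0 hq1.le (Nat.le_succ A')).trans hA'.le
  refine ⟨C + 1, max (2 ^ L₀) (max ⌈C⌉₊ 2), by linarith, fun n hn => ?_⟩
  have hn1 : 2 ^ L₀ ≤ n := (le_max_left _ _).trans hn
  have hn2 : ⌈C⌉₊ ≤ n := ((le_max_left _ _).trans (le_max_right _ _)).trans hn
  have hn3 : 2 ≤ n := ((le_max_right _ _).trans (le_max_right _ _)).trans hn
  have hCn : C ≤ n := (Nat.le_ceil C).trans (by exact_mod_cast hn2)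
  obtain ⟨L, hL⟩ : ∃ L, L = Nat.log 2 n + 1 := ⟨_, rfl⟩
  have hlt : n < 2 ^ L := by
    rw [hL]
    exact Nat.lt_pow_succ_log_self (by norm_num) n
  have hge : 2 ^ L ≤ 2 * n := by
    rw [hL, pow_succ]
    have := Nat.pow_log_le_self 2 (show n ≠ 0 by omega)
    omega
  have hLL : L₀ ≤ L := by
    have : L₀ ≤ Nat.log 2 n := Nat.le_log_of_pow_le (by norm_num) hn1
    omega
  have hL1 : 1 ≤ L := by omega
  have h14 := (hL₀ L hLL).trans hge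
  have hLsq : L ≤ L ^ 2 := by
    rw [sq]
    exact Nat.le_mul_of_pos_left L hL1
  obtain ⟨k, hk⟩ : ∃ k, k = n / (7 * L) := ⟨_, rfl⟩
  have hs : 0 < 7 * L := by omega
  have hk1 : (A' + 1) * L + 1 ≤ k := by
    rw [hk, Nat.le_div_iff_mul_le hs]
    nlinarith
  have hk2 : k * (7 * L) ≤ n := by
    rw [hk]
    exact Nat.div_mul_le_self n (7 * L)
  have hAL : 1 ≤ (A' + 1) * L := Nat.mul_pos (Nat.succ_pos _) hL1
  obtain ⟨m, hm⟩ : ∃ m, k = m + 1 := ⟨k - 1, by omega⟩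
  have hmA : (A' + 1) * L ≤ m := by omega
  have hms : m * (7 * L) + 7 * L ≤ n := by
    rw [hm, add_mul, one_mul] at hk2
    exact hk2
  have hmn : m + 2 ≤ n := by
    have h1 : m * 7 ≤ m * (7 * L) := Nat.mul_le_mul_left m (by omega)
    omega
  have hnpos : (0 : ℝ) < n := by exact_mod_cast (by omega : 0 < n)
  obtain ⟨x, hx⟩ : ∃ x : ℝ, x = (n : ℝ)⁻¹ := ⟨_, rfl⟩
  have hxpos : 0 < x := by
    rw [hx]
    positivity
  have hnx : (n : ℝ) * x = 1 := by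
    rw [hx]
    exact mul_inv_cancel₀ hnpos.ne'
  have hx1 : x ≤ 1 := by
    have h1 : (1 : ℝ) ≤ n := by exact_mod_cast (by omega : 1 ≤ n)
    nlinarith
  have hhalf : (1 / 2 : ℝ) ^ L ≤ x := by
    rw [hx, one_div, inv_pow]
    apply inv_anti₀ hnpos
    exact_mod_cast hlt.le
  have hhalf0 : (0 : ℝ) ≤ (1 / 2 : ℝ) ^ L := by positivity
  have hpow7 : (1 / 2 : ℝ) ^ (7 * L) ≤ x ^ 7 := by
    rw [mul_comm, pow_mul]
    exact pow_le_pow_left₀ hhalf0 hhalf 7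
  have hmle : (m : ℝ) ≤ n := by exact_mod_cast (by omega : m ≤ n)
  have hm6 : (m : ℝ) * (1 / 2 : ℝ) ^ (7 * L) ≤ x ^ 6 := by
    calc (m : ℝ) * (1 / 2 : ℝ) ^ (7 * L) ≤ n * x ^ 7 :=
          mul_le_mul hmle hpow7 (by positivity) hnpos.le
      _ = (n * x) * x ^ 6 := by ring
      _ = x ^ 6 := by rw [hnx, one_mul]
  have hC6 : C * m * (1 / 2 : ℝ) ^ (7 * L) ≤ C * x ^ 6 := by
    rw [mul_assoc]
    exact mul_le_mul_of_nonneg_left hm6 hC
  have hx6 : x ^ 6 ≤ x := by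
    calc x ^ 6 ≤ x ^ 1 := pow_le_pow_of_le_one hxpos.le hx1 (by norm_num)
      _ = x := pow_one x
  have hsq : q ^ m ≤ (x ^ 6) ^ 2 := by
    calc q ^ m ≤ q ^ ((A' + 1) * L) := pow_le_pow_of_le_one hq0 hq1.le hmA
      _ = (q ^ (A' + 1)) ^ L := pow_mul q _ _
      _ ≤ ((1 / 2) ^ 12) ^ L := pow_le_pow_left₀ (pow_nonneg hq0 _) hA L
      _ = ((1 / 2) ^ L) ^ 12 := by rw [← pow_mul, ← pow_mul, mul_comm]
      _ ≤ x ^ 12 := pow_le_pow_left₀ hhalf0 hhalf 12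
      _ = (x ^ 6) ^ 2 := by ring
  have hsqrt : Real.sqrt (q ^ m) ≤ x ^ 6 := by
    rw [Real.sqrt_le_left (by positivity)]
    exact hsq
  refine ⟨7 * L, m, n - m * (7 * L), by omega, by omega, by omega, by omega, hmn, ?_, ?_⟩
  · calc C * m * (1 / 2 : ℝ) ^ (7 * L) ≤ C * x ^ 6 := hC6
      _ ≤ n * x := mul_le_mul hCn hx6 (by positivity) hnpos.le
      _ = 1 := hnx
  · rw [← hx]
    calc C * m * (1 / 2 : ℝ) ^ (7 * L) + Real.sqrt (q ^ m) ≤ C * x ^ 6 + x ^ 6 :=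
          add_le_add hC6 hsqrt
      _ = (C + 1) * x ^ 6 := by ring

end Pool.Agent.MPEF.U
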