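import Pool.Agent.Lib.MP_ef3f0f_gt.U.J.Spec

set_option autoImplicit false

/-! # MP_ef3f0f_gt, Theorem U, Part J, module ph: almost invariance from a small defect of `PH` -/

namespace Pool.Agent.MPEF.U

open MeasureTheory Topology
open scoped ENNReal Pointwise

variable (P H : Type) [Group P] [Group H] [TopologicalSpace P] [TopologicalSpace H]
  [IsTopologicalGroup P] [IsTopologicalGroup H] [LocallyCompactSpace P] [LocallyCompactSpace H]
  [T2Space P] [T2Space H] [SecondCountableTopology P] [SecondCountableTopology H]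
  [MeasurableSpace P] [MeasurableSpace H] [BorelSpace P] [BorelSpace H]

omit [Group P] [Group H] [TopologicalSpace P] [TopologicalSpace H]
  [IsTopologicalGroup P] [IsTopologicalGroup H] [LocallyCompactSpace P] [LocallyCompactSpace H]
  [T2Space P] [T2Space H] [SecondCountableTopology P] [SecondCountableTopology H]
  [BorelSpace P] [BorelSpace H] in
private theorem ph_symm [Group P] [Group H] (D : Dat P H) (f g : P × H → ℝ) :
    ns D (fun x => f x - g x) = ns D (fun x => g x - f x) := by
  unfold ns ip
  refine integral_congr_ae (Filter.Eventually.of_forall fun x => ?_)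
  change (D.χ x).toReal * ((f x - g x) * (f x - g x)) =
    (D.χ x).toReal * ((g x - f x) * (g x - f x))
  ring

omit [Group P] [Group H] [TopologicalSpace P] [TopologicalSpace H]
  [IsTopologicalGroup P] [IsTopologicalGroup H] [LocallyCompactSpace P] [LocallyCompactSpace H]
  [T2Space P] [T2Space H] [SecondCountableTopology P] [SecondCountableTopology H]
  [BorelSpace P] [BorelSpace H] in
private theorem ph_zero [Group P] [Group H] (D : Dat P H) (f : P × H → ℝ) :
    ns D (fun x => f x - f x) = 0 := by
  unfold ns ip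
  simp

private theorem ph_list (hBI : S_BI P H) (hrho : S_rho P H) (hAA : S_AAJ P H) (D : Dat P H)
    (hD : D.Ok) (l : List (ℝ → P)) (hc : ∀ e ∈ l, Continuous e)
    (ha : ∀ e ∈ l, ∀ s t, e (s + t) = e s * e t) :
    ∃ C : ℝ, 0 ≤ C ∧ ∀ f, BI D f → BI D (l.foldr (fun e f => AA e f) f) ∧
      0 ≤ ns D f - ns D (l.foldr (fun e f => AA e f) f) ∧
      (∀ e ∈ l, ∀ r : ℝ, |r| ≤ 1 →
        ns D (fun x => rho (e r) f x - f x) ≤
          C * (ns D f - ns D (l.foldr (fun e f => AA e f) f))) ∧
      ns D (fun x => l.foldr (fun e f => AA e f) f x - f x) ≤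
        C * (ns D f - ns D (l.foldr (fun e f => AA e f) f)) := by
  obtain ⟨b1, -, -, -, -, -, -, -, -, -, -, -, b13, -⟩ := hBI D hD
  obtain ⟨r1, r2, -, -, -, -, -, -, -, r10⟩ := hrho D hD
  induction l with
  | nil =>
    refine ⟨0, le_rfl, fun f hf => ⟨hf, ?_, ?_, ?_⟩⟩
    · rw [List.foldr_nil, sub_self]
    · intro e he
      exact absurd he List.not_mem_nil
    · rw [zero_mul]
      exact (ph_zero P H D f).le
  | cons e l ih =>
    obtain ⟨C, hC, hl⟩ := ih (fun e' he' => hc e' (List.mem_cons_of_mem _ he'))
      (fun e' he' => ha e' (List.mem_cons_of_mem _ he'))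
    refine ⟨128 + 8 * C, by linarith, fun f hf => ?_⟩
    obtain ⟨h1, h2, h3, h4⟩ := hl f hf
    rw [List.foldr_cons]
    set F := l.foldr (fun e f => AA e f) f with hF
    obtain ⟨hAV, hdef⟩ := hAA D hD e (hc e List.mem_cons_self) (ha e List.mem_cons_self)
    obtain ⟨a1, a2, -⟩ := hAV F h1
    obtain ⟨d1, d2⟩ := hdef F h1
    have hGbi : BI D (fun x => f x - F x) := (b1 f F hf h1).2
    have hGns : ns D (fun x => f x - F x) ≤ C * (ns D f - ns D F) := by
      rw [ph_symm P H D f F]
      exact h4
    have hx : 0 ≤ C * (ns D f - ns D F) := mul_nonneg hC h2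
    have hy : 0 ≤ C * (ns D F - ns D (AA e F)) := mul_nonneg hC (sub_nonneg.mpr a2)
    refine ⟨a1, by linarith, ?_, ?_⟩
    · intro e' he' r hr
      rcases List.mem_cons.1 he' with rfl | he'
      · have k1 := d1 r hr
        have k2 : BI D (rho (e' r) fun x => f x - F x) := r1 _ _ hGbi
        have k3 := b13 (fun x => rho (e' r) F x - F x)
          (fun x => (f x - F x) - rho (e' r) (fun x => f x - F x) x)
          (b1 _ _ (r1 _ _ h1) h1).2 (b1 _ _ hGbi k2).2
        have k4 := b13 (fun x => f x - F x) (rho (e' r) fun x => f x - F x) hGbi k2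
        have k5 := r2 (e' r) _ hGbi
        have k6 : (fun x => (rho (e' r) F x - F x) -
            ((f x - F x) - rho (e' r) (fun x => f x - F x) x)) =
            fun x => rho (e' r) f x - f x := by
          rw [r10]
          funext x
          ring
        rw [k6] at k3
        rw [k5] at k4
        nlinarith
      · have k1 := h3 e' he' r hr
        nlinarith
    · have k3 := b13 (fun x => AA e F x - F x) (fun x => f x - F x) (b1 _ _ a1 h1).2 hGbi
      have k6 : (fun x => (AA e F x - F x) - (f x - F x)) = fun x => AA e F x - f x := by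
        funext x
        ring
      rw [k6] at k3
      nlinarith

theorem tphJ : S_BI P H → S_rho P H → S_AAJ P H → S_phJ P H := by
  intro hBI hrho hAA D hD X hX
  obtain ⟨C, hC, h⟩ := ph_list P H hBI hrho hAA D hD X.e hX.ec hX.ea
  exact ⟨C, hC, fun f hf => (h f hf).2⟩

end Pool.Agent.MPEF.U
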