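import Pool.Agent.Lib.MP_ef3f0f_gt.U.J.Spec

set_option autoImplicit false
set_option linter.unusedSectionVars false

/-! MP_ef3f0f_gt, part II, module poin: the Poincare inequality. -/

namespace Pool.Agent.MPEF.U

open MeasureTheory Topology
open scoped ENNReal Pointwise

variable (P H : Type) [Group P] [Group H] [TopologicalSpace P] [TopologicalSpace H]
  [IsTopologicalGroup P] [IsTopologicalGroup H] [LocallyCompactSpace P] [LocallyCompactSpace H]
  [T2Space P] [T2Space H] [SecondCountableTopology P] [SecondCountableTopology H]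
  [MeasurableSpace P] [MeasurableSpace H] [BorelSpace P] [BorelSpace H]

private theorem poin_ofReal {X : Type} [MeasurableSpace X] (μ : Measure X) (f : X → ℝ)
    (h0 : ∀ x, 0 ≤ f x) : ENNReal.ofReal (∫ x, f x ∂μ) ≤ ∫⁻ x, ENNReal.ofReal (f x) ∂μ := by
  by_cases hf : AEStronglyMeasurable f μ
  · rw [integral_eq_lintegral_of_nonneg_ae (Filter.Eventually.of_forall h0) hf]
    exact ENNReal.ofReal_toReal_le
  · rw [integral_non_aestronglyMeasurable hf, ENNReal.ofReal_zero]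
    exact zero_le

/-- Right translates. -/
private theorem poin_rt (D : Dat P H) {f : P × H → ℝ} (hf : BI D f) (k : P × H) :
    BI D fun x => f (x * k) := by
  obtain ⟨C, hC⟩ := hf.bdd
  refine ⟨hf.meas.comp (measurable_mul_const k), ⟨C, fun x => hC _⟩, fun γ hγ x => ?_⟩
  show f (γ * x * k) = f (x * k)
  rw [mul_assoc, hf.inv γ hγ]

/-- The double integral. -/
private theorem poin_dbl (hi : S_inst P H) (D : Dat P H) (hD : D.Ok) (E : Set (P × H))
    (hE : MeasurableSet E) (hL : MeasurableSet (E⁻¹ * E)) (f : P × H → ℝ) (hf : Measurable f) :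
    ∫⁻ x in E, ∫⁻ x' in E, ENNReal.ofReal ((f x - f x') ^ 2) ∂D.μ ∂D.μ ≤
      ∫⁻ k in E⁻¹ * E, ∫⁻ x in E, ENNReal.ofReal ((f (x * k) - f x) ^ 2) ∂D.μ ∂D.μ := by
  obtain ⟨-, -, hs, -, -, h6, -⟩ := hi D hD
  have h1 : ∀ x ∈ E, ∫⁻ x' in E, ENNReal.ofReal ((f x - f x') ^ 2) ∂D.μ ≤
      ∫⁻ k in E⁻¹ * E, ENNReal.ofReal ((f (x * k) - f x) ^ 2) ∂D.μ := by
    intro x hx
    rw [← lintegral_indicator hE, ← lintegral_indicator hL,
      ← lintegral_mul_left_eq_self _ x]
    refine lintegral_mono fun k => ?_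
    by_cases hk : x * k ∈ E
    · have hk2 : k ∈ E⁻¹ * E := by
        refine Set.mem_mul.2 ⟨x⁻¹, Set.inv_mem_inv.2 hx, x * k, hk, ?_⟩
        rw [inv_mul_cancel_left]
      rw [Set.indicator_of_mem hk, Set.indicator_of_mem hk2]
      refine le_of_eq ?_
      congr 1
      ring
    · rw [Set.indicator_of_notMem hk]
      exact zero_le
  refine (setLIntegral_mono' hE h1).trans (le_of_eq ?_)
  have hm : Measurable fun p : (P × H) × (P × H) =>
      ENNReal.ofReal ((f (p.1 * p.2) - f p.1) ^ 2) := by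
    have h2 : Measurable fun p : (P × H) × (P × H) => f (p.1 * p.2) :=
      hf.comp (measurable_fst.mul measurable_snd)
    exact ((h2.sub (hf.comp measurable_fst)).pow_const 2).ennreal_ofReal
  exact lintegral_lintegral_swap hm.aemeasurable

theorem tpoin : S_inst P H → S_O P H → S_IM P H → S_BI P H → S_var P H → S_poin P H := by
  intro hi hO hIM hBI hvar D hD
  obtain ⟨-, -, -, -, hhaar, -, -, -, E, hE, hcov⟩ := hi D hD
  obtain ⟨-, -, -, -, -, -, hO7⟩ := hO D hD
  obtain ⟨-, hIM2, -, -⟩ := hIM D hD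
  obtain ⟨hB1, -, -, -, -, -, -, -, -, hns0, -, -, -, -, -, -, hnsI⟩ := hBI D hD
  have hEm : MeasurableSet E := hE.measurableSet
  have hL : IsCompact (E⁻¹ * E) := hE.inv.mul hE
  have hLm : MeasurableSet (E⁻¹ * E) := hL.measurableSet
  obtain ⟨b, hb⟩ := hO7 _ (hL.image continuous_snd)
  obtain ⟨CE, hCE, hCE2⟩ := hIM2 E hE
  have hCt : CE * D.μ (E⁻¹ * E) ≠ ∞ := ENNReal.mul_ne_top hCE hL.measure_lt_top.ne
  refine ⟨Prod.fst '' (E⁻¹ * E), b, (CE * D.μ (E⁻¹ * E)).toReal, hL.image continuous_fst,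
    ENNReal.toReal_nonneg, fun f hf hmn M hM hq => ?_⟩
  have h1 := hvar D hD E E hEm hE subset_rfl hcov f hf hmn
  have h2 : ENNReal.ofReal (2 * ns D f) ≤
      ∫⁻ x in E, ∫⁻ x' in E, ENNReal.ofReal ((f x - f x') ^ 2) ∂D.μ ∂D.μ := by
    refine (ENNReal.ofReal_le_ofReal h1).trans ?_
    refine (poin_ofReal (D.μ.restrict E) _
      (fun x => integral_nonneg fun x' => sq_nonneg _)).trans ?_
    exact lintegral_mono fun x => poin_ofReal (D.μ.restrict E) _ (fun x' => sq_nonneg _)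
  have h3 : ∀ k ∈ E⁻¹ * E, ∫⁻ x in E, ENNReal.ofReal ((f (x * k) - f x) ^ 2) ∂D.μ ≤
      CE * ENNReal.ofReal M := by
    intro k hk
    have hg : BI D fun x => f (x * k) - f x := (hB1 _ _ (poin_rt P H D hf k) hf).2
    have h4 := hCE2 (fun x => ENNReal.ofReal ((f (x * k) - f x) ^ 2))
      ((hg.meas.pow_const 2).ennreal_ofReal)
      (fun γ hγ x => congrArg (fun t : ℝ => ENNReal.ofReal (t ^ 2)) (hg.inv γ hγ x))
    refine h4.trans ?_
    rw [← hnsI _ hg]
    gcongr
    exact hq k.1 (Set.mem_image_of_mem Prod.fst hk) k.2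
      (hb (Set.mem_image_of_mem Prod.snd hk))
  have h5 : ENNReal.ofReal (2 * ns D f) ≤ CE * D.μ (E⁻¹ * E) * ENNReal.ofReal M := by
    refine h2.trans ((poin_dbl P H hi D hD E hEm hLm f hf.meas).trans ?_)
    refine (setLIntegral_mono' hLm h3).trans (le_of_eq ?_)
    rw [setLIntegral_const]
    ring
  have h6 : ENNReal.ofReal (2 * ns D f) ≤
      ENNReal.ofReal ((CE * D.μ (E⁻¹ * E)).toReal * M) := by
    rw [ENNReal.ofReal_mul ENNReal.toReal_nonneg, ENNReal.ofReal_toReal hCt]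
    exact h5
  have h7 : 2 * ns D f ≤ (CE * D.μ (E⁻¹ * E)).toReal * M :=
    (ENNReal.ofReal_le_ofReal_iff (mul_nonneg ENNReal.toReal_nonneg hM)).1 h6
  have h8 := hns0 f
  linarith

end Pool.Agent.MPEF.U
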