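import Pool.Agent.Lib.MP_ef3f0f_gt.U.J.Spec

set_option autoImplicit false
set_option linter.unusedSectionVars false

/-!
# MP_ef3f0f_gt, Theorem U, Part J: the translations `rho g` (helper26)
-/

namespace Pool.Agent.MPEF.U

open MeasureTheory Topology
open scoped ENNReal Pointwise

section main

variable {P H : Type} [Group P] [Group H] [TopologicalSpace P] [TopologicalSpace H]
  [IsTopologicalGroup P] [IsTopologicalGroup H] [LocallyCompactSpace P] [LocallyCompactSpace H]
  [T2Space P] [T2Space H] [SecondCountableTopology P] [SecondCountableTopology H]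
  [MeasurableSpace P] [MeasurableSpace H] [BorelSpace P] [BorelSpace H]

private theorem rho_int {X : Type} [MeasurableSpace X] {μ : Measure X} {u F : X → ℝ}
    (hu : Integrable u μ) (hF : Measurable F)
    {C : ℝ} (hC : ∀ x, |F x| ≤ C) : Integrable (fun x => u x * F x) μ :=
  hu.mul_bdd (c := C) hF.aestronglyMeasurable (Filter.Eventually.of_forall fun x => by
    rw [Real.norm_eq_abs]; exact hC x)

private theorem rho_mulBI {D : Dat P H} {f g : P × H → ℝ} (hf : BI D f) (hg : BI D g) :
    BI D fun x => f x * g x := by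
  obtain ⟨C, hC⟩ := hf.bdd
  obtain ⟨C', hC'⟩ := hg.bdd
  refine ⟨hf.meas.mul hg.meas, ⟨C * C', ?_⟩, ?_⟩
  · intro x
    rw [abs_mul]
    exact mul_le_mul (hC x) (hC' x) (abs_nonneg _) ((abs_nonneg _).trans (hC x))
  · intro γ hγ x
    rw [hf.inv γ hγ, hg.inv γ hγ]

private theorem rho_shiftBI {D : Dat P H} {f : P × H → ℝ} (hf : BI D f) (g : P × H) :
    BI D fun x => f (x * g) := by
  obtain ⟨C, hC⟩ := hf.bdd
  refine ⟨hf.meas.comp (measurable_mul_const g), ⟨C, fun x => hC _⟩, ?_⟩
  intro γ hγ x
  rw [mul_assoc, hf.inv γ hγ]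

private theorem rho_shift {D : Dat P H} (hD : D.Ok) (hIM : S_IM P H)
    (hχ : Integrable (fun x => (D.χ x).toReal) D.μ) {f : P × H → ℝ} (hf : BI D f) (g : P × H) :
    mn D (fun x => f (x * g)) = mn D f := by
  obtain ⟨him, _⟩ := hIM D hD
  obtain ⟨C, hC⟩ := hf.bdd
  have key : ∀ f : P × H → ℝ, Measurable f → (∀ x, |f x| ≤ C) →
      mn D f = (D.IM fun x => ENNReal.ofReal (f x + C)).toReal - C * ∫ x, (D.χ x).toReal ∂D.μ := by
    intro f hfm hfC
    have h0 : ∀ x, 0 ≤ f x + C := fun x => by
      have := (abs_le.1 (hfC x)).1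
      linarith
    have e1 : (D.IM fun x => ENNReal.ofReal (f x + C)).toReal =
        ∫ x, (D.χ x).toReal * (f x + C) ∂D.μ := by
      unfold Dat.IM
      rw [← integral_toReal]
      · apply integral_congr_ae
        filter_upwards with x
        rw [ENNReal.toReal_mul, ENNReal.toReal_ofReal (h0 x)]
      · exact (hD.χm.mul (hfm.add_const C).ennreal_ofReal).aemeasurable
      · filter_upwards with x
        apply ENNReal.mul_lt_top
        · exact lt_of_le_of_lt (hD.χ1 x) ENNReal.one_lt_top
        · exact ENNReal.ofReal_lt_top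
    have e2 : ∫ x, (D.χ x).toReal * (f x + C) ∂D.μ = mn D f + C * ∫ x, (D.χ x).toReal ∂D.μ := by
      have e3 : (fun x => (D.χ x).toReal * (f x + C)) =
          fun x => (D.χ x).toReal * f x + C * (D.χ x).toReal := by
        funext x
        ring
      rw [e3, integral_add, integral_const_mul]
      · rfl
      · exact rho_int hχ hfm hfC
      · exact hχ.const_mul C
    rw [e1, e2]
    ring
  rw [key f hf.meas hC, key (fun x => f (x * g)) (hf.meas.comp (measurable_mul_const g))
    (fun x => hC _)]
  have h1 := him (fun x => ENNReal.ofReal (f x + C)) (hf.meas.add_const C).ennreal_ofReal (by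
    intro γ hγ x
    rw [hf.inv γ hγ]) g
  rw [h1]

end main

variable (P H : Type) [Group P] [Group H] [TopologicalSpace P] [TopologicalSpace H]
  [IsTopologicalGroup P] [IsTopologicalGroup H] [LocallyCompactSpace P] [LocallyCompactSpace H]
  [T2Space P] [T2Space H] [SecondCountableTopology P] [SecondCountableTopology H]
  [MeasurableSpace P] [MeasurableSpace H] [BorelSpace P] [BorelSpace H]

theorem trho : S_inst P H → S_IM P H → S_BI P H → S_rho P H := by
  intro _hinst hIM _hBI D hD
  have hχint : Integrable (fun x => (D.χ x).toReal) D.μ := by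
    apply integrable_toReal_of_lintegral_ne_top hD.χm.aemeasurable
    rw [hD.mass]
    exact ENNReal.one_ne_top
  have shift : ∀ f, BI D f → ∀ g : P × H, mn D (fun x => f (x * g)) = mn D f :=
    fun f hf g => rho_shift hD hIM hχint hf g
  have hip : ∀ g f f', BI D f → BI D f' → ip D (rho g f) (rho g f') = ip D f f' :=
    fun g f f' hf hf' => shift (fun x => f x * f' x) (rho_mulBI hf hf') (g, (1 : H))
  refine ⟨fun g f hf => rho_shiftBI hf _, fun g f hf => hip g f f hf hf, hip,
    fun g f hf => shift f hf _, ?_, ?_, ?_, ?_, fun _ _ => rfl, fun _ _ _ => rfl⟩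
  · intro g f _
    funext x
    unfold TTJ rho
    apply integral_congr_ae
    filter_upwards with h
    congr 2
    rw [mul_assoc, mul_assoc]
    congr 1
    apply Prod.ext
    · simp
    · simp
  · intro f
    funext x
    unfold rho
    congr 1
    exact mul_one x
  · intro g g' f
    funext x
    unfold rho
    congr 1
    rw [mul_assoc]
    congr 1
    apply Prod.ext
    · rfl
    · simp
  · intro g h f
    funext x
    unfold rho tau
    congr 1
    rw [mul_assoc]
    congr 1
    apply Prod.ext
    · simp
    · simp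

end Pool.Agent.MPEF.U
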