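import Pool.Agent.Lib.MP_ef3f0f_gt.U.J.Spec

set_option autoImplicit false
set_option linter.unusedSectionVars false

/-!
# MP_ef3f0f_gt, Theorem U, Part J: Lipschitz functions and small shifts
-/

namespace Pool.Agent.MPEF.U

open MeasureTheory Topology
open scoped ENNReal Pointwise

variable (P H : Type) [Group P] [Group H] [TopologicalSpace P] [TopologicalSpace H]
  [IsTopologicalGroup P] [IsTopologicalGroup H] [LocallyCompactSpace P] [LocallyCompactSpace H]
  [T2Space P] [T2Space H] [SecondCountableTopology P] [SecondCountableTopology H]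
  [MeasurableSpace P] [MeasurableSpace H] [BorelSpace P] [BorelSpace H]

theorem tsh : S_BI P H → S_TR P H → S_rho P H → S_sh P H := by
  intro hBI hTR hrho D hD X hX C hC
  obtain ⟨bAS, bSm, bC, -, bI1, ipc, -, ipS, -, -, -, -, -, mnc, -, mnS, -⟩ := hBI D hD
  obtain ⟨tB, -, -, -, -, -, -, -, -, -, -, tc, -, -, -⟩ := hTR D hD
  obtain ⟨rB, -, rI, rM, -, r1, rm, -, -, rS⟩ := hrho D hD
  have hνm : Measurable D.ν := hD.νc.measurable
  have hνI : Integrable (fun h => (D.ν h).toReal) D.μ₂ :=
    integrable_toReal_of_lintegral_ne_top hνm.aemeasurable (by rw [hD.νint]; exact ENNReal.one_ne_top)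
  have hχI : ∀ c : ℝ, Integrable (fun x => (D.χ x).toReal * c) D.μ := fun c => bI1 _ (bC c)
  have hχc : ∀ c : ℝ, ∫ x, (D.χ x).toReal * c ∂D.μ = c := fun c => mnc c
  -- bounds for `ip` and `mn`
  have ipb : ∀ (a b : P × H → ℝ) (A B : ℝ), 0 ≤ A → (∀ x, |a x| ≤ A) → (∀ x, |b x| ≤ B) →
      |ip D a b| ≤ A * B := by
    intro a b A B hA ha hb
    have := norm_integral_le_of_norm_le (hχI (A * B))
      (f := fun x => (D.χ x).toReal * (a x * b x)) (Filter.Eventually.of_forall fun x => by
        rw [Real.norm_eq_abs, abs_mul, abs_of_nonneg ENNReal.toReal_nonneg, abs_mul]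
        exact mul_le_mul_of_nonneg_left (mul_le_mul (ha x) (hb x) (abs_nonneg _) hA)
          ENNReal.toReal_nonneg)
    rw [hχc, Real.norm_eq_abs] at this
    exact this
  have mnb : ∀ (a : P × H → ℝ) (A : ℝ), (∀ x, |a x| ≤ A) → |mn D a| ≤ A := by
    intro a A ha
    have := norm_integral_le_of_norm_le (hχI A)
      (f := fun x => (D.χ x).toReal * a x) (Filter.Eventually.of_forall fun x => by
        rw [Real.norm_eq_abs, abs_mul, abs_of_nonneg ENNReal.toReal_nonneg]
        exact mul_le_mul_of_nonneg_left (ha x) ENNReal.toReal_nonneg)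
    rw [hχc, Real.norm_eq_abs] at this
    exact this
  -- bound for the averages with the weight `ν`
  have hνc : ∀ c : ℝ, ∫ h, (D.ν h).toReal * c ∂D.μ₂ = c := by
    intro c
    have := congrFun (tc c) (1 : P × H)
    exact this
  have nub : ∀ (φ : H → ℝ) (A : ℝ), (∀ h, |φ h| ≤ A) →
      |∫ h, (D.ν h).toReal * φ h ∂D.μ₂| ≤ A := by
    intro φ A hφ
    have := norm_integral_le_of_norm_le (hνI.mul_const A)
      (f := fun h => (D.ν h).toReal * φ h) (Filter.Eventually.of_forall fun x => by
        rw [Real.norm_eq_abs, abs_mul, abs_of_nonneg ENNReal.toReal_nonneg]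
        exact mul_le_mul_of_nonneg_left (hφ x) ENNReal.toReal_nonneg)
    rw [hνc, Real.norm_eq_abs] at this
    exact this
  have hint : ∀ f, BI D f → ∀ x : P × H,
      Integrable (fun h => (D.ν h).toReal * f (x * ((1 : P), h))) D.μ₂ := by
    intro f hf x
    obtain ⟨c, hc⟩ := hf.bdd
    refine hνI.mul_bdd (c := c) ?_ (Filter.Eventually.of_forall fun h => hc _)
    have hm : Measurable fun h : H => x * ((1 : P), h) :=
      measurable_const.mul (measurable_const.prodMk measurable_id)
    exact (hf.meas.comp hm).aestronglyMeasurable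
  refine ⟨?_, ?_, ?_⟩
  · intro f hf
    refine ⟨tB f hf.bi, fun x => nub _ C fun h => hf.le _, ?_⟩
    intro η h0 h1 g hg x
    have e : TTJ D f (x * (g, (1 : H))) - TTJ D f x =
        ∫ h, (D.ν h).toReal * (f (x * ((1 : P), h) * (g, (1 : H))) - f (x * ((1 : P), h))) ∂D.μ₂ := by
      unfold TTJ
      rw [← integral_sub (hint f hf.bi _) (hint f hf.bi _)]
      refine integral_congr_ae (Filter.Eventually.of_forall fun h => ?_)
      have e1 : x * (g, (1 : H)) * ((1 : P), h) = x * ((1 : P), h) * (g, (1 : H)) := by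
        apply Prod.ext <;> simp
      simp only [e1]
      ring
    rw [e]
    exact nub _ _ fun h => hf.lip η h0 h1 g hg _
  · intro f hf
    have hm := mnb f C hf.le
    refine ⟨⟨(bAS f _ hf.bi (bC (mn D f))).2, fun x => ?_, ?_⟩, ?_⟩
    · calc |f x - mn D f| ≤ |f x| + |mn D f| := abs_sub _ _
        _ ≤ 2 * C := by linarith [hf.le x]
    · intro η h0 h1 g hg x
      have := hf.lip η h0 h1 g hg x
      rw [sub_sub_sub_cancel_right]
      nlinarith [mul_nonneg hC h0.le]
    · rw [mnS f _ hf.bi (bC _), mnc, sub_self]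
  · intro f f' hf hf'
    refine ⟨fun h => ?_, ?_⟩
    · rw [sq]
      exact ipb _ _ C C hC hf.le fun x => hf'.le _
    · intro η h0 h1 g hg g' hg' h
      have e1 : ip D f (rho (g * h * g') f') = ip D (rho g⁻¹ f) (rho h (rho g' f')) := by
        have e2 : rho g (rho g⁻¹ f) = f := by rw [rm, mul_inv_cancel, r1]
        have e3 : rho (g * h * g') f' = rho g (rho h (rho g' f')) := by
          rw [rm, rm, mul_assoc]
        conv_lhs => rw [e3, ← e2]
        exact rI g _ _ (rB _ _ hf.bi) (rB _ _ (rB _ _ hf'.bi))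
      have e4 : ip D (rho g⁻¹ f) (rho h (rho g' f')) - ip D f (rho h f') =
          ip D (fun x => rho g⁻¹ f x - f x) (rho h (rho g' f')) +
            ip D (fun x => rho h (rho g' f') x - rho h f' x) f := by
        rw [ipS _ _ _ (rB _ _ hf.bi) hf.bi (rB _ _ (rB _ _ hf'.bi)),
          ipS _ _ _ (rB _ _ (rB _ _ hf'.bi)) (rB _ _ hf'.bi) hf.bi,
          ipc f (rho h (rho g' f')), ipc f (rho h f')]
        ring
      rw [e1, e4]
      have b1 : |ip D (fun x => rho g⁻¹ f x - f x) (rho h (rho g' f'))| ≤ (C * η) * C :=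
        ipb _ _ _ _ (mul_nonneg hC h0.le) (fun x => hf.lip η h0 h1 _ (hX.Vi η g hg) x)
          fun x => hf'.le _
      have b2 : |ip D (fun x => rho h (rho g' f') x - rho h f' x) f| ≤ (C * η) * C :=
        ipb _ _ _ _ (mul_nonneg hC h0.le) (fun x => hf'.lip η h0 h1 _ hg' _) hf.le
      calc _ ≤ _ := abs_add_le _ _
        _ ≤ 2 * C ^ 2 * η := by nlinarith

end Pool.Agent.MPEF.U
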