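import Pool.Agent.Lib.MP_ef3f0f_gt.Z.disc
import Pool.Agent.Lib.MP_ef3f0f_gt.Z.chi
import Pool.Agent.Lib.MP_ef3f0f_gt.Z.unim
import Pool.Agent.Lib.MP_ef3f0f_gt.Z.prodinv
import Pool.Agent.Lib.MP_ef3f0f_gt.Z.nuEx
import Pool.Agent.Lib.MP_ef3f0f_gt.U.Z.Dat
import Pool.Agent.Lib.MP_ef3f0f_gt.U.Z.inst
import Pool.Agent.Lib.MP_ef3f0f_gt.U.Z.O
import Pool.Agent.Lib.MP_ef3f0f_gt.U.Z.nu
import Pool.Agent.Lib.MP_ef3f0f_gt.U.Z.Harn
import Pool.Agent.Lib.MP_ef3f0f_gt.U.Z.unf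
import Pool.Agent.Lib.MP_ef3f0f_gt.U.Z.IM
import Pool.Agent.Lib.MP_ef3f0f_gt.U.Z.Up
import Pool.Agent.Lib.MP_ef3f0f_gt.U.Z.mg
import Pool.Agent.Lib.MP_ef3f0f_gt.U.J.BI
import Pool.Agent.Lib.MP_ef3f0f_gt.U.J.TR
import Pool.Agent.Lib.MP_ef3f0f_gt.U.J.a
import Pool.Agent.Lib.MP_ef3f0f_gt.U.J.var
import Pool.Agent.Lib.MP_ef3f0f_gt.U.J.rho
import Pool.Agent.Lib.MP_ef3f0f_gt.U.J.AA
import Pool.Agent.Lib.MP_ef3f0f_gt.U.J.AVc
import Pool.Agent.Lib.MP_ef3f0f_gt.U.J.ph
import Pool.Agent.Lib.MP_ef3f0f_gt.U.J.al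
import Pool.Agent.Lib.MP_ef3f0f_gt.U.J.poin
import Pool.Agent.Lib.MP_ef3f0f_gt.U.J.it
import Pool.Agent.Lib.MP_ef3f0f_gt.U.J.sh
import Pool.Agent.Lib.MP_ef3f0f_gt.U.J.num
import Pool.Agent.Lib.MP_ef3f0f_gt.U.J.mix
import Pool.Agent.Lib.MP_ef3f0f_gt.U.J.coef
import Pool.Agent.Lib.MP_ef3f0f_gt.U.J.lipN
import Pool.Agent.Lib.MP_ef3f0f_gt.U.J.EquiU

set_option autoImplicit false

/-!
# MP_ef3f0f_gt, Theorem U: the statements of the Parts Z and J, without hypotheses

`aX : S_X P H` for all statements of `U/Z/Spec.lean` and `U/J/Spec.lean`.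
-/

namespace Pool.Agent.MPEF.U

open MeasureTheory Topology
open scoped ENNReal Pointwise

variable (P H : Type) [Group P] [Group H] [TopologicalSpace P] [TopologicalSpace H]
  [IsTopologicalGroup P] [IsTopologicalGroup H] [LocallyCompactSpace P] [LocallyCompactSpace H]
  [T2Space P] [T2Space H] [SecondCountableTopology P] [SecondCountableTopology H]
  [MeasurableSpace P] [MeasurableSpace H] [BorelSpace P] [BorelSpace H]

theorem aDat : S_Dat P H := tDat P H tdisc (tchi tdisc) tunim tprodinv tnuEx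

theorem ainst : S_inst P H := tinst P H

theorem aO : S_O P H := tO P H

theorem anu : S_nu P H := tnu P H (ainst P H) (aO P H)

theorem aHarn : S_Harn P H := tHarn P H (ainst P H) (aO P H) (anu P H)

theorem aunf : S_unf P H := tunf P H (ainst P H)

theorem aIM : S_IM P H := tIM P H (ainst P H) (aunf P H)

theorem amg : S_mg P H := tmg P H (ainst P H) (anu P H) (aunf P H)

theorem aUp : S_Up P H := tUp P H (ainst P H) (anu P H) (amg P H)

theorem aBI : S_BI P H := tBI P H (ainst P H)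

theorem aTR : S_TR P H := tTR P H (ainst P H) (aIM P H) (anu P H) (aBI P H)

theorem aa : S_a P H := ta P H (ainst P H) (aO P H) (anu P H) (aBI P H) (aTR P H)

theorem avar : S_var P H := tvar P H (ainst P H) (aunf P H) (aBI P H)

theorem arho : S_rho P H := trho P H (ainst P H) (aIM P H) (aBI P H)

theorem aAAJ : S_AAJ P H := tAAJ P H (ainst P H) (aBI P H) (arho P H)

theorem aAVc : S_AVc P H := tAVc P H (aBI P H) (arho P H) (aAAJ P H)

theorem aphJ : S_phJ P H := tphJ P H (aBI P H) (arho P H) (aAAJ P H)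

theorem aal : S_al P H :=
  tal P H (ainst P H) (aO P H) (aBI P H) (aTR P H) (aa P H) (arho P H) (aphJ P H)

theorem apoin : S_poin P H := tpoin P H (ainst P H) (aO P H) (aIM P H) (aBI P H) (avar P H)

theorem ait : S_it P H :=
  tit P H (aBI P H) (aTR P H) (arho P H) (aAVc P H) (aal P H) (apoin P H)

theorem ash : S_sh P H := tsh P H (aBI P H) (aTR P H) (arho P H)

theorem amix : S_mix P H :=
  tmix P H (aBI P H) (aTR P H) (arho P H) (aAVc P H) (ait P H) (ash P H) tnum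

theorem acoef : S_coef P H :=
  tcoef P H (ainst P H) (anu P H) (amg P H) (aUp P H) (aBI P H) (arho P H)

theorem alipN : S_lipN P H := tlipN P H (ainst P H) (anu P H) (aUp P H) (acoef P H)

/-- Equidistribution of the edges with the rate `n⁻⁶` in every cocompact lattice. -/
theorem aEquiU : S_EquiU P H :=
  tEquiU P H (ainst P H) (anu P H) (aUp P H) (aBI P H) (arho P H) (acoef P H) (alipN P H)
    (amix P H)

end Pool.Agent.MPEF.U
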