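import Pool.Agent.Lib.MP_ef3f0f_gt.U.Defs

set_option autoImplicit false

/-!
# MP_ef3f0f_gt, Theorem U, Part J (equidistribution of the edges): definitions

Real valued bounded measurable `Γ`-invariant functions on `P × H`; box data `BX` on `P`.
`Γ` is an arbitrary cocompact lattice (NO density hypothesis).
-/

namespace Pool.Agent.MPEF.U

open MeasureTheory Topology
open scoped ENNReal Pointwise

section
variable {P H : Type} [Group P] [Group H] [MeasurableSpace P] [MeasurableSpace H]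

/-- Bounded measurable `Γ`-invariant functions. -/
structure BI (D : Dat P H) (f : P × H → ℝ) : Prop where
  meas : Measurable f
  bdd : ∃ C : ℝ, ∀ x, |f x| ≤ C
  inv : ∀ γ ∈ D.Γ, ∀ x, f (γ * x) = f x

/-- Bounded measurable kernels with compact support on `P`. -/
structure KB [TopologicalSpace P] (k : P → ℝ≥0∞) : Prop where
  meas : Measurable k
  bdd : ∃ C : ℝ≥0∞, C ≠ ∞ ∧ ∀ g, k g ≤ C
  supp : ∃ K : Set P, IsCompact K ∧ ∀ g, g ∉ K → k g = 0

/-- Averaging over `H`. -/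
noncomputable def TTJ (D : Dat P H) (f : P × H → ℝ) : P × H → ℝ :=
  fun x => ∫ h, (D.ν h).toReal * f (x * ((1 : P), h)) ∂D.μ₂

/-- Averaging over `P` with the kernel `k`. -/
noncomputable def RR (D : Dat P H) (k : P → ℝ≥0∞) (f : P × H → ℝ) : P × H → ℝ :=
  fun x => ∫ q, (k q).toReal * f (x * (q, (1 : H))) ∂D.μ₁

/-- Inner product. -/
noncomputable def ip (D : Dat P H) (f g : P × H → ℝ) : ℝ :=
  ∫ x, (D.χ x).toReal * (f x * g x) ∂D.μ

/-- Norm squared. -/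
noncomputable def ns (D : Dat P H) (f : P × H → ℝ) : ℝ := ip D f f

/-- Mean. -/
noncomputable def mn (D : Dat P H) (f : P × H → ℝ) : ℝ := ∫ x, (D.χ x).toReal * f x ∂D.μ

/-- Right translation by an element of `H`. -/
def tau (h : H) (f : P × H → ℝ) : P × H → ℝ := fun x => f (x * ((1 : P), h))

/-- Right translation by an element of `P`. -/
def rho (g : P) (f : P × H → ℝ) : P × H → ℝ := fun x => f (x * (g, (1 : H)))

/-- The average over `{e t | 0 ≤ t ≤ 1}`. -/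
noncomputable def AA (e : ℝ → P) (f : P × H → ℝ) : P × H → ℝ :=
  fun x => ∫ t in Set.Icc (0 : ℝ) 1, f (x * (e t, (1 : H)))

/-- Convolution on `P`. -/
noncomputable def cvJ (D : Dat P H) (k k' : P → ℝ≥0∞) : P → ℝ≥0∞ :=
  fun s => ∫⁻ q, k q * k' (q⁻¹ * s) ∂D.μ₁

end

/-- Box data: an element `a`, a list `e` of one-parameter subgroups, and neighbourhoods `V η` of `1` of
size `η`. For `SL_n(ℝ)`: `a` the regular diagonal element, `e` the list of the elementary subgroups, first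
the lower triangular ones and then the upper triangular ones, `V η = {g | ‖g - 1‖ ≤ η, ‖g⁻¹ - 1‖ ≤ η}`. -/
structure BX (P : Type) where
  a : P
  e : List (ℝ → P)
  V : ℝ → Set P

section
variable {P : Type} [Group P]

/-- The elements `e s` with `e` in the list and `|s| ≤ 1`. -/
def BX.E (X : BX P) : Set P := {g | ∃ e ∈ X.e, ∃ s : ℝ, |s| ≤ 1 ∧ g = e s}

/-- The box `{e₁(t₁) ⋯ e_d(t_d) | 0 ≤ t_i ≤ 1}`. -/
def BX.B (X : BX P) : Set P := (X.e.map fun e => e '' Set.Icc (0 : ℝ) 1).prod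

/-- Lipschitz functions with respect to `V`. -/
def BX.Lip (X : BX P) (k : P → ℝ≥0∞) : Prop :=
  ∃ C : ℝ, 0 ≤ C ∧ ∀ η : ℝ, 0 < η → η ≤ 1 → ∀ g ∈ X.V η, ∀ q : P,
    |(k (q * g)).toReal - (k q).toReal| ≤ C * η ∧ |(k (g * q)).toReal - (k q).toReal| ≤ C * η

/-- The axioms of box data. -/
structure BX.Ok [TopologicalSpace P] (X : BX P) : Prop where
  ec : ∀ e ∈ X.e, Continuous e
  ea : ∀ e ∈ X.e, ∀ s t, e (s + t) = e s * e t
  ne : X.e ≠ []
  gen : ∀ K : Set P, IsCompact K → ∃ L : ℕ, K ⊆ X.E ^ L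
  Vi : ∀ η, ∀ g ∈ X.V η, g⁻¹ ∈ X.V η
  Vm : ∀ η η', η ≤ η' → X.V η ⊆ X.V η'
  Vc : ∃ K : Set P, IsCompact K ∧ X.V 1 ⊆ K
  box : ∃ C : ℝ, 0 < C ∧ ∀ s₀ s m : ℕ, 1 ≤ s → 1 ≤ m → s ≤ s₀ → C * m * (1 / 2) ^ s ≤ 1 →
    ∀ q ∈ (X.B * {X.a ^ s}) ^ m, ∃ g ∈ X.V (C * m * (1 / 2) ^ s),
      ∃ g' ∈ X.V (C * m * (1 / 2) ^ s), X.a ^ s₀ * q = g * X.a ^ (s₀ + m * s) * g'
  sep : ∀ Q O : Set P, IsCompact Q → IsOpen O → Q ⊆ O → ∃ k : P → ℝ≥0∞, Continuous k ∧
    X.Lip k ∧ (∀ g, k g ≤ 1) ∧ (∀ g ∈ Q, k g = 1) ∧ ∀ g, g ∉ O → k g = 0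

/-- The Lipschitz kernels. -/
def BX.NK [TopologicalSpace P] [MeasurableSpace P] (X : BX P) : Set (P → ℝ≥0∞) :=
  {k | KB k ∧ X.Lip k}

variable {H : Type} [Group H] [MeasurableSpace P] [MeasurableSpace H]

/-- The average over the box. -/
noncomputable def BX.PH (X : BX P) (f : P × H → ℝ) : P × H → ℝ :=
  X.e.foldr (fun e f => AA e f) f

/-- Lipschitz functions (along `P`) on `Γ \ (P × H)`, with the constant `C`. -/
structure LF (D : Dat P H) (X : BX P) (C : ℝ) (f : P × H → ℝ) : Prop where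
  bi : BI D f
  le : ∀ x, |f x| ≤ C
  lip : ∀ η : ℝ, 0 < η → η ≤ 1 → ∀ g ∈ X.V η, ∀ x, |f (x * (g, (1 : H))) - f x| ≤ C * η

/-- The operator `Q` is an average of the translations by the elements of `S`. -/
def AV (D : Dat P H) (Q : (P × H → ℝ) → P × H → ℝ) (S : Set P) : Prop :=
  ∀ f, BI D f → BI D (Q f) ∧ ns D (Q f) ≤ ns D f ∧ mn D (Q f) = mn D f ∧
    TTJ D (Q f) = Q (TTJ D f) ∧
    ∀ φ, BI D φ → ∀ (g₀ : P) (c ε : ℝ), (∀ s ∈ S, |ip D φ (rho (g₀ * s) f) - c| ≤ ε) →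
      |ip D φ (rho g₀ (Q f)) - c| ≤ ε

end

end Pool.Agent.MPEF.U
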