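import Pool.Agent.Lib.MP_ef3f0f_gt.U.J.Defs

set_option autoImplicit false

/-!
# MP_ef3f0f_gt, Theorem U, Part J (equidistribution of the edges with a polynomial rate): the statements

Modules `U/J/X.lean`: `theorem tX : S_Y P H → ... → S_X P H`, in a section with the same `variable` line
(explicit `P H`), namespace `Pool.Agent.MPEF.U`. Norm of `f` = `√(ns D f)`. All functions are real valued,
bounded, measurable; integrals over `x` with the weight `χ` (bounded, compact support). `Γ` is an arbitrary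
cocompact lattice of `P × H`.
-/

namespace Pool.Agent.MPEF.U

open MeasureTheory Topology
open scoped ENNReal Pointwise

variable (P H : Type) [Group P] [Group H] [TopologicalSpace P] [TopologicalSpace H]
  [IsTopologicalGroup P] [IsTopologicalGroup H] [LocallyCompactSpace P] [LocallyCompactSpace H]
  [T2Space P] [T2Space H] [SecondCountableTopology P] [SecondCountableTopology H]
  [MeasurableSpace P] [MeasurableSpace H] [BorelSpace P] [BorelSpace H]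

/-- Algebra of `BI` functions. Proof. `χ` is bounded by `1`, measurable, with integral `1`, so `χ.toReal * (bounded measurable)`
is integrable. Cauchy - Schwarz: discriminant of `t ↦ ns (f + t g)`. -/
def S_BI : Prop :=
  ∀ D : Dat P H, D.Ok →
    (∀ f g, BI D f → BI D g → BI D (fun x => f x + g x) ∧ BI D (fun x => f x - g x)) ∧
    (∀ (c : ℝ) (f), BI D f → BI D fun x => c * f x) ∧ (∀ c : ℝ, BI D fun _ => c) ∧
    (∀ f g, BI D f → BI D g → Integrable (fun x => (D.χ x).toReal * (f x * g x)) D.μ) ∧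
    (∀ f, BI D f → Integrable (fun x => (D.χ x).toReal * f x) D.μ) ∧
    (∀ f g, ip D f g = ip D g f) ∧
    (∀ f g h, BI D f → BI D g → BI D h → ip D (fun x => f x + g x) h = ip D f h + ip D g h) ∧
    (∀ f g h, BI D f → BI D g → BI D h → ip D (fun x => f x - g x) h = ip D f h - ip D g h) ∧
    (∀ (c : ℝ) (f g), ip D (fun x => c * f x) g = c * ip D f g) ∧
    (∀ f, 0 ≤ ns D f) ∧ (∀ f g, BI D f → BI D g → ip D f g ^ 2 ≤ ns D f * ns D g) ∧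
    (∀ f g, BI D f → BI D g →
      Real.sqrt (ns D fun x => f x + g x) ≤ Real.sqrt (ns D f) + Real.sqrt (ns D g)) ∧
    (∀ f g, BI D f → BI D g → ns D (fun x => f x - g x) ≤ 2 * ns D f + 2 * ns D g) ∧
    (∀ c : ℝ, mn D (fun _ => c) = c) ∧ (∀ f, mn D f = ip D f fun _ => 1) ∧
    (∀ f g, BI D f → BI D g → mn D (fun x => f x - g x) = mn D f - mn D g) ∧
    (∀ f, BI D f → ENNReal.ofReal (ns D f) = D.IM fun x => ENNReal.ofReal (f x ^ 2))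

/-- The operators. Proof. `TTJ`, `RR`, `tau` act on the right, so they preserve left invariance; Fubini on `P × H`; the shift
rule (`S_IM` (1)) gives `ip (tau h f) (tau h g) = ip f g`; self-adjointness of `TTJ` by `ν h⁻¹ = ν h` and inversion
invariance; contraction by Jensen (or Cauchy - Schwarz) for the probability density `ν` resp. the density
`k`, and the shift rule. Last one: `∫ ν^(2)(v) ns (tau v g - g) = 2 ns g - 2 ip (TTJ (TTJ g)) g`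
(`TTJ (TTJ g) (x) = ∫ ν^(2)(v) g(x v)`). -/
def S_TR : Prop :=
  ∀ D : Dat P H, D.Ok →
    (∀ f, BI D f → BI D (TTJ D f)) ∧ (∀ k f, KB k → BI D f → BI D (RR D k f)) ∧
    (∀ h f, BI D f → BI D (tau h f)) ∧
    (∀ k f, KB k → BI D f → TTJ D (RR D k f) = RR D k (TTJ D f)) ∧
    (∀ f g, BI D f → BI D g → ip D (TTJ D f) g = ip D f (TTJ D g)) ∧
    (∀ f, BI D f → ns D (TTJ D f) ≤ ns D f) ∧
    (∀ k f, KB k → BI D f → ns D (RR D k f) ≤ (∫⁻ q, k q ∂D.μ₁).toReal ^ 2 * ns D f) ∧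
    (∀ f, BI D f → mn D (TTJ D f) = mn D f) ∧
    (∀ k f, KB k → BI D f → mn D (RR D k f) = (∫⁻ q, k q ∂D.μ₁).toReal * mn D f) ∧
    (∀ f g, BI D f → BI D g → TTJ D (fun x => f x - g x) = fun x => TTJ D f x - TTJ D g x) ∧
    (∀ k f g, KB k → BI D f → BI D g →
      RR D k (fun x => f x - g x) = fun x => RR D k f x - RR D k g x) ∧
    (∀ c : ℝ, TTJ D (fun _ => c) = fun _ => c) ∧
    (∀ (k) (c : ℝ), KB k → RR D k (fun _ => c) = fun _ => (∫⁻ q, k q ∂D.μ₁).toReal * c) ∧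
    (∀ h f g, BI D f → BI D g → ip D (tau h f) (tau h g) = ip D f g) ∧
    (∀ g, BI D g → ∫ v, (D.nu 2 v).toReal * ns D (fun x => tau v g x - g x) ∂D.μ₂ =
      2 * (ns D g - ns D (TTJ D g)))

/-- (a) of II.2. Proof. `W` a symmetric open neighbourhood of `1` with `closure O * closure W ⊆ O²`; `ν^(2)` is lower
semicontinuous and positive on the compact set `closure (O W) ⊆ O²`, so `ν^(2) ≥ c > 0` on `W ∪ O W`. For `h ∈ O`, `w ∈ W`: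
`‖tau h g - g‖² ≤ 2 ‖tau h g - tau (h w) g‖² + 2 ‖tau (hw) g - g‖²` and `tau (h w) g = tau h (tau w g)`, so the first norm is `‖g - tau w g‖`. Integrate
over `w ∈ W`: `μ₂(W) ‖tau h g - g‖² ≤ (4/c) ∫ ν^(2)(v) ‖tau v g - g‖² dv = (8/c) (ns g - ns (TTJ g)) ≤ (8/c) δ² ns g`
(`S_TR`, last part). For `h ∈ O^l`: product of `l` elements of `O`, triangle inequality for `√ns`. -/
def S_a : Prop :=
  ∀ D : Dat P H, D.Ok → ∃ C : ℝ, 0 ≤ C ∧ ∀ δ : ℝ, 0 ≤ δ → ∀ g, BI D g →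
    (1 - δ ^ 2) * ns D g ≤ ns D (TTJ D g) → ∀ (l : ℕ) (h : H), h ∈ D.O ^ l →
      ns D (fun x => tau h g x - g x) ≤ C * (l : ℝ) ^ 2 * δ ^ 2 * ns D g

/-- Variance. Proof. `∫∫ χ(x) χ(x') (g x - g x')² = 2 ns g - 2 (mn g)²`; and for an invariant `F ≥ 0`:
`∫ χ F ≤ ∫ χ(x) ∑_γ 1_E(γ x) F(x) = ∫_E F` (unfold; `∑_γ 1_E(γ x) ≥ 1`), twice. -/
def S_var : Prop :=
  ∀ D : Dat P H, D.Ok → ∀ E K : Set (P × H), MeasurableSet E → IsCompact K → E ⊆ K →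
    (∀ x : P × H, ∃ γ ∈ D.Γ, γ * x ∈ E) → ∀ g, BI D g → mn D g = 0 →
      2 * ns D g ≤ ∫ x in E, ∫ x' in E, (g x - g x') ^ 2 ∂D.μ ∂D.μ

/-- The translations `rho g`. Proof. `rho` acts on the right, so it preserves left invariance; the shift rule (`S_IM` (1), written
with real functions as in `S_TR`: `∫ χ(x) F(x (g,1)) = ∫ χ(x) F(x)` for `F` bounded, measurable and `Γ`-invariant). `TTJ` and
`rho` commute as `(g, 1)` and `(1, h)` do. -/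
def S_rho : Prop :=
  ∀ D : Dat P H, D.Ok →
    (∀ g f, BI D f → BI D (rho g f)) ∧ (∀ g f, BI D f → ns D (rho g f) = ns D f) ∧
    (∀ g f f', BI D f → BI D f' → ip D (rho g f) (rho g f') = ip D f f') ∧
    (∀ g f, BI D f → mn D (rho g f) = mn D f) ∧
    (∀ g f, BI D f → TTJ D (rho g f) = rho g (TTJ D f)) ∧
    (∀ f : P × H → ℝ, rho (1 : P) f = f) ∧
    (∀ (g g' : P) (f : P × H → ℝ), rho g (rho g' f) = rho (g * g') f) ∧
    (∀ (g : P) (h : H) (f : P × H → ℝ), rho g (tau h f) = fun x => f (x * (g, h))) ∧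
    (∀ (g : P) (c : ℝ), rho g (fun _ : P × H => c) = fun _ => c) ∧
    (∀ (g : P) (f f' : P × H → ℝ),
      rho g (fun x => f x - f' x) = fun x => rho g f x - rho g f' x)

/-- The average over a one-parameter subgroup. Proof. `(x, t) ↦ f (x (e t, 1))` is measurable and bounded, Fubini (`Icc 0 1` has measure `1`):
`ip φ (rho g₀ (AA e f)) = ∫_0^1 ip φ (rho (g₀ * e t) f) dt`, which gives the last clause of `AV`; `ns (AA e f) ≤ ns f` by Jensen and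
`ns (rho g f) = ns f`; `mn`, `TTJ` by Fubini. **Defect identity:** `ns (AA e f) = ∫_0^1 ∫_0^1 ip (rho (e s) f) (rho (e t) f) ds dt`, so, with
`Δ = ns f - ns (AA e f)`: `∫_0^1 ∫_0^1 ns (rho (e s) f - rho (e t) f) ds dt = 2 Δ`. For `0 ≤ r ≤ 1/2`, `0 ≤ t ≤ 1/2`, `0 ≤ s ≤ 1`:
`ns (rho (e r) f - f) = ns (rho (e (r+t)) f - rho (e t) f) ≤ 2 ns (rho (e (r+t)) f - rho (e s) f) + 2 ns (rho (e s) f - rho (e t) f)`; integrate over `t ∈ [0,1/2]`,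
`s ∈ [0,1]`: `(1/2) ns (rho (e r) f - f) ≤ 4 Δ + 4 Δ`. Then `|r| ≤ 1`: `e r = e (r/2) e (r/2)`, and
`ns (rho g⁻¹ f - f) = ns (rho g f - f)`: the constant is `4 * 16`. The last one by Jensen. -/
def S_AAJ : Prop :=
  ∀ D : Dat P H, D.Ok → ∀ e : ℝ → P, Continuous e → (∀ s t, e (s + t) = e s * e t) →
    AV D (AA e) (e '' Set.Icc (0 : ℝ) 1) ∧ ∀ f, BI D f →
      (∀ r : ℝ, |r| ≤ 1 →
        ns D (fun x => rho (e r) f x - f x) ≤ 64 * (ns D f - ns D (AA e f))) ∧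
      ns D (fun x => AA e f x - f x) ≤ 64 * (ns D f - ns D (AA e f))

/-- Averages compose. Proof. Directly from the definition of `AV` (for the last clause of the composition: if the bound holds for all
`s ∈ S * S'` then, for `s ∈ S`, the clause for `Q'` with `g₀ * s` gives `|ip φ (rho (g₀ * s) (Q' f)) - c| ≤ ε`, then the clause for `Q`
and the function `Q' f`). `rho g`, `id`: `S_rho`. Iterates: induction on `m` (`pow_succ'`, `Function.iterate_succ_apply'`). `PH`: induction on the list `X.e` with `S_AAJ`. -/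
def S_AVc : Prop :=
  ∀ D : Dat P H, D.Ok →
    (∀ Q Q' S S', AV D Q S → AV D Q' S' → AV D (fun f => Q (Q' f)) (S * S')) ∧
    (∀ g : P, AV D (rho g) {g}) ∧
    (∀ Q S, AV D Q S → ∀ m : ℕ, AV D (Q^[m]) (S ^ m)) ∧
    ∀ X : BX P, X.Ok → AV D X.PH X.B

/-- Almost invariance from a small defect of `PH`. Proof. For a list `l` of one-parameter groups let `PH_l f = l.foldr AA f`,
`Δ_l f = ns f - ns (PH_l f) ≥ 0`. By induction on `l`: there is `C` with `ns (rho (e r) f - f) ≤ C Δ_l f` for all `e ∈ l`, `|r| ≤ 1`, and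
`ns (PH_l f - f) ≤ C Δ_l f`: for `e :: l` let `f' = PH_l f`; then `Δ_{e :: l} f = Δ_l f + (ns f' - ns (AA e f'))`; `S_AAJ` for `f'`, and
`rho (e r) f - f = (rho (e r) f' - f') + rho (e r) (f - f') - (f - f')`. -/
def S_phJ : Prop :=
  ∀ D : Dat P H, D.Ok → ∀ X : BX P, X.Ok → ∃ C : ℝ, 0 ≤ C ∧ ∀ f, BI D f →
    0 ≤ ns D f - ns D (X.PH f) ∧
    (∀ e ∈ X.e, ∀ r : ℝ, |r| ≤ 1 →
      ns D (fun x => rho (e r) f x - f x) ≤ C * (ns D f - ns D (X.PH f))) ∧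
    ns D (fun x => X.PH f x - f x) ≤ C * (ns D f - ns D (X.PH f))

/-- Almost invariance under compact sets. Proof. Let `Δ = ns f - ns (PH (TTJ f)) = (ns f - ns (TTJ f)) + (ns (TTJ f) - ns (PH (TTJ f)))`, both
terms `≥ 0` (`S_TR`, `S_phJ`). `S_a` with `δ² = (ns f - ns (TTJ f)) / ns f` (if `ns f = 0` with `δ = 0`) gives `ns (tau h f - f) ≤ C Δ` for `h ∈ O^b`, and
`ns (TTJ f - f) ≤ C Δ` by Jensen (`O = {ν > 0}`). `S_phJ` for `TTJ f`: `ns (rho (e r) (TTJ f) - TTJ f) ≤ C Δ`, so `ns (rho (e r) f - f) ≤ C' Δ`.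
For `q ∈ K ⊆ E^L`: product of `L` elements of `E`, triangle inequality. `f (x (q,h)) = rho q (tau h f) x`. -/
def S_al : Prop :=
  ∀ D : Dat P H, D.Ok → ∀ X : BX P, X.Ok → ∀ K : Set P, IsCompact K → ∀ b : ℕ,
    ∃ C : ℝ, 0 ≤ C ∧ ∀ f, BI D f → ∀ q ∈ K, ∀ h ∈ D.O ^ b,
      ns D (fun x => f (x * (q, h)) - f x) ≤ C * (ns D f - ns D (X.PH (TTJ D f)))

/-- Poincare inequality. Proof. `E` a compact set with `Γ E = P × H` (`S_inst`). `S_var` (with `E = K`):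
`2 ns f ≤ ∫_{x ∈ E} ∫_{x' ∈ E} (f x - f x')²`; put `x' = x k`, `k ∈ E⁻¹ E ⊆ K₁ × O^b` (`K₁` compact; `S_O`): at most
`∫_{k ∈ E⁻¹ E} ∫_{x ∈ E} (f x - f (x k))² ≤ ∫_{k ∈ E⁻¹ E} C ns (f (· k) - f)` (`S_IM` (2), `S_BI` (last part)) `≤ C μ(E⁻¹ E) M`. -/
def S_poin : Prop :=
  ∀ D : Dat P H, D.Ok → ∃ (K : Set P) (b : ℕ) (C : ℝ), IsCompact K ∧ 0 ≤ C ∧
    ∀ f, BI D f → mn D f = 0 → ∀ M : ℝ, 0 ≤ M →
      (∀ q ∈ K, ∀ h ∈ D.O ^ b, ns D (fun x => f (x * (q, h)) - f x) ≤ M) → ns D f ≤ C * M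

/-- **Gap and iteration.** Proof. `S_poin` and `S_al` (for its `K`, `b`): `ns f ≤ C₀ (ns f - ns (PH (TTJ f)))` for `f` of mean zero, with `C₀ ≥ 1`, so
`ns (PH (TTJ f)) ≤ q ns f`, `q = 1 - 1/C₀`. `TTJ` commutes with `rho g` and `PH` (`AV`): `(PH ∘ rho g)^[m] (TTJ^[M] f) =
(PH ∘ TTJ ∘ rho g)^[m] (TTJ^[M-m] f)`; means are preserved; induction. -/
def S_it : Prop :=
  ∀ D : Dat P H, D.Ok → ∀ X : BX P, X.Ok → ∃ q : ℝ, 0 ≤ q ∧ q < 1 ∧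
    ∀ (g : P) (m M : ℕ), m ≤ M → ∀ f, BI D f → mn D f = 0 →
      ns D ((fun f => X.PH (rho g f))^[m] ((TTJ D)^[M] f)) ≤ q ^ m * ns D f

/-- Lipschitz functions: `TTJ` preserves them; small shifts. Proof. `ip f (rho (g * h * g') f') = ip (rho g⁻¹ f) (rho h (rho g' f'))` and
`|rho g⁻¹ f - f| ≤ C η`, `|rho g' f' - f'| ≤ C η` pointwise; `∫ χ = 1`. -/
def S_sh : Prop :=
  ∀ D : Dat P H, D.Ok → ∀ X : BX P, X.Ok → ∀ C : ℝ, 0 ≤ C →
    (∀ f, LF D X C f → LF D X C (TTJ D f)) ∧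
    (∀ f, LF D X C f → LF D X (2 * C) (fun x => f x - mn D f) ∧ mn D (fun x => f x - mn D f) = 0) ∧
    ∀ f f', LF D X C f → LF D X C f' → (∀ h : P, |ip D f (rho h f')| ≤ C ^ 2) ∧
      ∀ η : ℝ, 0 < η → η ≤ 1 → ∀ g ∈ X.V η, ∀ g' ∈ X.V η, ∀ h : P,
        |ip D f (rho (g * h * g') f') - ip D f (rho h f')| ≤ 2 * C ^ 2 * η

/-- Choice of the lengths. Proof. `s = 7 (Nat.log 2 n + 1)`, so `2^s ≥ n^7` and `s ≤ 14 log₂ n` (`n ≥ 2`); `m = n / s - 1`, `s₀ = n - m s`, so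
`s ≤ s₀ < 2 s + 1`; `C m 2^{-s} ≤ C n^{-6}`. `m ≥ √n / C'` for large `n`, and `q^{√n / C'} n⁶ → 0`. -/
def S_num : Prop :=
  ∀ q C : ℝ, 0 ≤ q → q < 1 → 0 ≤ C → ∃ (C' : ℝ) (n₀ : ℕ), 0 ≤ C' ∧ ∀ n : ℕ, n₀ ≤ n →
    ∃ s m s₀ : ℕ, 1 ≤ s ∧ 1 ≤ m ∧ s ≤ s₀ ∧ n = s₀ + m * s ∧ m + 2 ≤ n ∧
      C * m * (1 / 2) ^ s ≤ 1 ∧ C * m * (1 / 2) ^ s + Real.sqrt (q ^ m) ≤ C' * ((n : ℝ)⁻¹) ^ 6

/-- **Mixing with a polynomial rate.** Proof. Replace `f'` by `f' - mn f'` (`S_sh`; `rho`, `TTJ` of constants are constants, `ip f const = const * mn f`): we may assume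
`mn f' = 0`. For `n < n₀` the trivial bound `C₀²`. Else `s, m, s₀` from `S_num` (with `q` from `S_it`, `C` from `X.Ok.box`),
`Q = fun f => PH (rho (a^s) f)`, `F = TTJ^[M] f'` (`m ≤ M`), `c = ip f (rho (a^n) F)`. `AV D (Q^[m]) ((B * {a^s})^m)` (`S_AVc`). For `p` in this set
`a^s₀ * p = g a^n g'` with `g, g' ∈ V η`, `η = C m 2^{-s}` (`box`), so `|ip f (rho (a^s₀ * p) F) - c| ≤ 8 C₀² η` (`S_sh`), and by `AV`
`|ip f (rho (a^s₀) (Q^[m] F)) - c| ≤ 8 C₀² η`. By Cauchy - Schwarz, `S_rho` and `S_it`: `|ip f (rho (a^s₀) (Q^[m] F))| ≤ C₀ √(q^m) 2 C₀`. -/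
def S_mix : Prop :=
  ∀ D : Dat P H, D.Ok → ∀ X : BX P, X.Ok → ∀ C₀ : ℝ, 0 ≤ C₀ → ∃ C : ℝ, 0 ≤ C ∧
    ∀ f f', LF D X C₀ f → LF D X C₀ f' → ∀ n M : ℕ, 1 ≤ n → n ≤ M + 2 →
      |ip D f (rho (X.a ^ n) ((TTJ D)^[M] f')) - mn D f * mn D f'| ≤ C * ((n : ℝ)⁻¹) ^ 6

/-- `N` as a matrix coefficient. Proof (compare `Q/Nf.lean`). `N K (·) y`, `N K y (·)` are left invariant, bounded (`S_Up`), measurable; the means are `∫ κ`
(`S_mg` (7), (8); `∫ ν = 1`). The kernel `k₂(g⁻¹ ·) ⊗ ν^(n+1)`: `N (tk (k₂(g⁻¹ ·)) m) z y = N (tk k₂ m) (z (g,1)) y`, and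
`N (tk k₂ (m+1)) z y = ∫ ν(h) N (tk k₂ m) (z (1,h)) y dh`, so it is `TTJ^m (N (tk k₂ 1) (·) y)`. `tk (k₁ * k₂(g⁻¹ ·)) (n+2) = tk k₁ 1 * tk (k₂(g⁻¹ ·)) (n+1)` (`S_mg` (5)), and
`N_{K * K'} x y = IM_z N_K x z · N_{K'} z y` (`S_mg` (4) with `F = 1`, reindexing `e' = e⁻¹ u`). `toReal` of finite quantities. -/
def S_coef : Prop :=
  ∀ D : Dat P H, D.Ok → ∀ k₁ k₂ : P → ℝ≥0∞, KB k₁ → KB k₂ →
    (∀ y, BI D (fun z => (D.N (D.tk k₁ 1) z y).toReal) ∧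
      BI D (fun z => (D.N (D.tk k₁ 1) y z).toReal) ∧
      mn D (fun z => (D.N (D.tk k₁ 1) z y).toReal) = (∫⁻ q, k₁ q ∂D.μ₁).toReal ∧
      mn D (fun z => (D.N (D.tk k₁ 1) y z).toReal) = (∫⁻ q, k₁ q ∂D.μ₁).toReal) ∧
    (∃ C : ℝ, 0 ≤ C ∧ ∀ y z, (D.N (D.tk k₁ 1) y z).toReal ≤ C) ∧
    (∀ (g : P) (n : ℕ), 1 ≤ n → ∀ x y,
      D.N (D.tk (fun s => ∫⁻ q, k₁ q * k₂ (g⁻¹ * q⁻¹ * s) ∂D.μ₁) n) x y ≠ ∞) ∧
    ∀ (g : P) (n : ℕ) (x y : P × H),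
      (D.N (D.tk (fun s => ∫⁻ q, k₁ q * k₂ (g⁻¹ * q⁻¹ * s) ∂D.μ₁) (n + 2)) x y).toReal =
        ip D (fun z => (D.N (D.tk k₁ 1) x z).toReal)
          (rho g ((TTJ D)^[n] fun z => (D.N (D.tk k₂ 1) z y).toReal))

/-- The coefficients are Lipschitz. Proof. `K` the support of `k`, `K₀` compact, symmetric, `V 1 ⊆ K₀`; for `g ∈ V η`: `|k(q g) - k(q)| ≤ C η 1_{K ∪ K K₀}(q)`, so
`|N (tk k 1) x (z (g,1)) - N (tk k 1) x z| ≤ C η N (tk 1_{K ∪ K K₀} 1) x z ≤ C' η` (`S_Up`; finite sums: only finitely many nonzero terms, or use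
`ENNReal` inequalities `k(q g) ≤ k(q) + C η 1(q)` and `k(q) ≤ k(q g) + C η 1(q)`). The other one: `(z (g,1))⁻¹ = (g⁻¹,1) z⁻¹`, `g⁻¹ ∈ V η`. -/
def S_lipN : Prop :=
  ∀ D : Dat P H, D.Ok → ∀ X : BX P, X.Ok → ∀ k ∈ X.NK, ∃ C : ℝ, 0 ≤ C ∧
    ∀ x, LF D X C (fun z => (D.N (D.tk k 1) x z).toReal) ∧
      LF D X C (fun z => (D.N (D.tk k 1) z x).toReal)

/-- **Equidistribution** (final statement of Part J). Proof. `NiceOk`: `KB`; `sep`: an open relatively compact `O'` between `Q` and `O` and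
`X.Ok.sep`. `Equi`: `kk μ₁ a k₁ k₂ n = fun s => ∫⁻ q, k₁ q * k₂ (g⁻¹ * q⁻¹ * s)` with `g = a^n`; `S_coef`, `S_lipN`, `S_mix` (`M = n - 2`) for
`n ≥ 2`; for `n = 1` the value is bounded uniformly in `x`, `y` (`S_Up`; the kernel `kk ..` is bounded measurable with compact support).
Means: `∫ k₁`, `∫ k₂`. -/
def S_EquiU : Prop :=
  ∀ X : BX P, X.Ok → NiceOk X.NK ∧
    ∀ G : PG P, G.a = X.a → ∀ D : Dat P H, D.Ok → Equi D G X.NK

end Pool.Agent.MPEF.U
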