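import Pool.Agent.Lib.MP_ef3f0f_gt.U.J.Spec

set_option autoImplicit false
set_option linter.unusedSectionVars false

/-! Almost invariance under compact sets. -/

namespace Pool.Agent.MPEF.U

open MeasureTheory Topology
open scoped ENNReal Pointwise

variable (P H : Type) [Group P] [Group H] [TopologicalSpace P] [TopologicalSpace H]
  [IsTopologicalGroup P] [IsTopologicalGroup H] [LocallyCompactSpace P] [LocallyCompactSpace H]
  [T2Space P] [T2Space H] [SecondCountableTopology P] [SecondCountableTopology H]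
  [MeasurableSpace P] [MeasurableSpace H] [BorelSpace P] [BorelSpace H]

/-- The operator `TTJ` moves `f` by at most the maximum over `O`. -/
private theorem al_TT (hi : S_inst P H) (hB : S_BI P H) (hT : S_TR P H) (D : Dat P H) (hD : D.Ok)
    (f : P × H → ℝ) (hf : BI D f) (M : ℝ)
    (hM : ∀ h ∈ D.O, ns D (fun x => tau h f x - f x) ≤ M) :
    ns D (fun x => TTJ D f x - f x) ≤ M := by
  obtain ⟨-, s2, s3, -⟩ := hi D hD
  obtain ⟨b1, b2, b3, b4, b5, b6, b7, b8, b9, b10, b11, -⟩ := hB D hD
  obtain ⟨c1, -, c3, -, -, -, -, -, -, -, -, -, -, c14, -⟩ := hT D hD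
  have hTf := c1 f hf
  obtain ⟨g, hgdef⟩ : ∃ g : P × H → ℝ, g = fun x => TTJ D f x - f x := ⟨_, rfl⟩
  have hg : BI D g := by
    rw [hgdef]
    exact (b1 _ _ hTf hf).2
  obtain ⟨C, hC⟩ := hf.bdd
  obtain ⟨C', hC'⟩ := hg.bdd
  have hνm : Measurable D.ν := hD.νc.measurable
  have hνi : Integrable (fun h => (D.ν h).toReal) D.μ₂ := by
    apply integrable_toReal_of_lintegral_ne_top hνm.aemeasurable
    rw [hD.νint]
    exact ENNReal.one_ne_top
  have hνint : ∫ h, (D.ν h).toReal ∂D.μ₂ = 1 := by
    rw [integral_toReal hνm.aemeasurable]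
    · rw [hD.νint, ENNReal.toReal_one]
    · filter_upwards with h
      exact lt_of_le_of_ne le_top (hD.νt h)
  have hχi : Integrable (fun x => (D.χ x).toReal) D.μ := by
    apply integrable_toReal_of_lintegral_ne_top hD.χm.aemeasurable
    rw [hD.mass]
    exact ENNReal.one_ne_top
  have hιH : Measurable fun h : H => (((1 : P), h) : P × H) := measurable_const.prodMk measurable_id
  have hbd : ∀ x y, |f x * g y| ≤ C * C' := by
    intro x y
    rw [abs_mul]
    exact mul_le_mul (hC x) (hC' y) (abs_nonneg _) ((abs_nonneg _).trans (hC x))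
  -- Fubini
  have hfub : ip D (TTJ D f) g = ∫ h, (D.ν h).toReal * ip D (tau h f) g ∂D.μ₂ := by
    have hI : Integrable (fun z : (P × H) × H => ((D.χ z.1).toReal * (D.ν z.2).toReal) *
        (f (z.1 * ((1 : P), z.2)) * g z.1)) (D.μ.prod D.μ₂) := by
      refine (hχi.mul_prod hνi).mul_bdd (c := C * C') ?_ (Filter.Eventually.of_forall fun z => ?_)
      · exact (((hf.meas.comp (measurable_fst.mul (hιH.comp measurable_snd))).mul
          (hg.meas.comp measurable_fst))).aestronglyMeasurable
      · rw [Real.norm_eq_abs]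
        exact hbd _ _
    have hsw := integral_integral_swap (f := fun (x : P × H) (h : H) =>
      ((D.χ x).toReal * (D.ν h).toReal) * (f (x * ((1 : P), h)) * g x)) hI
    have e1 : ip D (TTJ D f) g = ∫ x, ∫ h, ((D.χ x).toReal * (D.ν h).toReal) *
        (f (x * ((1 : P), h)) * g x) ∂D.μ₂ ∂D.μ := by
      unfold ip TTJ
      refine integral_congr_ae (Filter.Eventually.of_forall fun x => ?_)
      change (D.χ x).toReal * ((∫ h, (D.ν h).toReal * f (x * ((1 : P), h)) ∂D.μ₂) * g x) = _
      rw [← integral_mul_const, ← integral_const_mul]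
      refine integral_congr_ae (Filter.Eventually.of_forall fun h => ?_)
      change (D.χ x).toReal * ((D.ν h).toReal * f (x * ((1 : P), h)) * g x) = _
      ring
    rw [e1, hsw]
    refine integral_congr_ae (Filter.Eventually.of_forall fun h => ?_)
    change _ = (D.ν h).toReal * ip D (tau h f) g
    unfold ip tau
    rw [← integral_const_mul]
    refine integral_congr_ae (Filter.Eventually.of_forall fun x => ?_)
    change ((D.χ x).toReal * (D.ν h).toReal) * (f (x * ((1 : P), h)) * g x) = _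
    ring
  have hipm : Measurable (fun v => ip D (tau v f) g) := by
    apply StronglyMeasurable.measurable
    unfold ip tau
    apply StronglyMeasurable.integral_prod_right
      (f := fun v x => (D.χ x).toReal * (f (x * ((1 : P), v)) * g x))
    apply Measurable.stronglyMeasurable
    exact ((hD.χm.ennreal_toReal).comp measurable_snd).mul
      ((hf.meas.comp (measurable_snd.mul (hιH.comp measurable_fst))).mul
        (hg.meas.comp measurable_snd))
  have hipb : ∀ v, |ip D (tau v f) g| ≤ ns D f + ns D g := by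
    intro v
    have h1 := b11 (tau v f) g (c3 v f hf) hg
    have h2 : ns D (tau v f) = ns D f := c14 v f f hf hf
    rw [h2] at h1
    have h3 := b10 f
    have h4 := b10 g
    refine abs_le_of_sq_le_sq (h1.trans ?_) (by linarith)
    nlinarith
  have hI2 : Integrable (fun v => (D.ν v).toReal * ip D (tau v f) g) D.μ₂ :=
    hνi.mul_bdd (c := ns D f + ns D g) hipm.aestronglyMeasurable
      (Filter.Eventually.of_forall fun v => by rw [Real.norm_eq_abs]; exact hipb v)
  have hpt : ∀ v, (D.ν v).toReal * ip D (tau v f) g ≤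
      (D.ν v).toReal * (ip D f g + (M + ns D g) / 2) := by
    intro v
    by_cases hv : D.ν v = 0
    · rw [hv, ENNReal.toReal_zero, zero_mul, zero_mul]
    · refine mul_le_mul_of_nonneg_left ?_ ENNReal.toReal_nonneg
      have hvO : v ∈ D.O := pos_iff_ne_zero.2 hv
      have ht := c3 v f hf
      have hs : BI D (fun x => tau v f x - f x) := (b1 _ _ ht hf).2
      have h1 := b8 (tau v f) f g ht hf hg
      have h2 := b11 _ g hs hg
      have h3 := hM v hvO
      have h4 := b10 g
      have h5 := b10 (fun x => tau v f x - f x)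
      have h6 : |ip D (fun x => tau v f x - f x) g| ≤ (M + ns D g) / 2 := by
        refine abs_le_of_sq_le_sq (h2.trans ?_) (by linarith)
        have h7 : ns D (fun x => tau v f x - f x) * ns D g ≤ M * ns D g :=
          mul_le_mul_of_nonneg_right h3 h4
        nlinarith [sq_nonneg (M - ns D g)]
      have h7 := (abs_le.1 h6).2
      linarith
  have hle : ip D (TTJ D f) g ≤ ip D f g + (M + ns D g) / 2 := by
    rw [hfub]
    calc ∫ v, (D.ν v).toReal * ip D (tau v f) g ∂D.μ₂
        ≤ ∫ v, (D.ν v).toReal * (ip D f g + (M + ns D g) / 2) ∂D.μ₂ :=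
          integral_mono hI2 (hνi.mul_const _) hpt
      _ = ip D f g + (M + ns D g) / 2 := by
          rw [integral_mul_const, hνint, one_mul]
  have hfin : ns D g = ip D (TTJ D f) g - ip D f g := by
    have := b8 (TTJ D f) f g hTf hf hg
    rw [← this, ← hgdef]
    rfl
  rw [← hgdef]
  linarith

theorem tal : S_inst P H → S_O P H → S_BI P H → S_TR P H → S_a P H → S_rho P H → S_phJ P H →
    S_al P H := by
  intro hi hO hB hT ha hrho hph D hD X hX K hK b
  obtain ⟨Ca, hCa, ha'⟩ := ha D hD
  obtain ⟨Cp, hCp, hph'⟩ := hph D hD X hX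
  obtain ⟨L, hL⟩ := hX.gen K hK
  obtain ⟨b1, b2, b3, b4, b5, b6, b7, b8, b9, b10, b11, b12, b13, -⟩ := hB D hD
  obtain ⟨c1, -, c3, -, -, c6, -, -, -, -, -, -, -, c14, -⟩ := hT D hD
  obtain ⟨p1, p2, -, -, -, p6, p7, p8, p9, p10⟩ := hrho D hD
  set C1 : ℝ := 2 * Real.sqrt Ca + Real.sqrt Cp with hC1
  have hC1' : 0 ≤ C1 := by positivity
  refine ⟨(Real.sqrt Ca * b + L * C1) ^ 2, sq_nonneg _, fun f hf q hq h hh => ?_⟩
  have hTf := c1 f hf
  have hΔ1 : 0 ≤ ns D f - ns D (TTJ D f) := by linarith [c6 f hf]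
  obtain ⟨hΔ2, hE, -⟩ := hph' (TTJ D f) hTf
  set Δ1 : ℝ := ns D f - ns D (TTJ D f) with hΔ1def
  set Δ2 : ℝ := ns D (TTJ D f) - ns D (X.PH (TTJ D f)) with hΔ2def
  have hΔ : ns D f - ns D (X.PH (TTJ D f)) = Δ1 + Δ2 := by
    rw [hΔ1def, hΔ2def]
    ring
  set R : ℝ := Real.sqrt (Δ1 + Δ2) with hR
  have hR0 : 0 ≤ R := Real.sqrt_nonneg _
  have hR1 : Real.sqrt Δ1 ≤ R := Real.sqrt_le_sqrt (by linarith)
  have hR2 : Real.sqrt Δ2 ≤ R := Real.sqrt_le_sqrt (by linarith)
  -- invariance under `H`
  have hH : ∀ (l : ℕ) (h : H), h ∈ D.O ^ l →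
      ns D (fun x => tau h f x - f x) ≤ Ca * (l : ℝ) ^ 2 * Δ1 := by
    intro l h hh
    rcases (b10 f).eq_or_lt with h0 | h0
    · have h1 := ha' 0 le_rfl f hf (by rw [← h0]; simpa using b10 (TTJ D f)) l h hh
      rw [← h0, mul_zero] at h1
      exact h1.trans (by positivity)
    · have e1 : Real.sqrt (Δ1 / ns D f) ^ 2 = Δ1 / ns D f := Real.sq_sqrt (by positivity)
      have h1 := ha' (Real.sqrt (Δ1 / ns D f)) (Real.sqrt_nonneg _) f hf (by
        rw [e1, sub_mul, one_mul, div_mul_cancel₀ _ h0.ne', hΔ1def]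
        linarith) l h hh
      rw [e1, mul_assoc, div_mul_cancel₀ _ h0.ne'] at h1
      exact h1
  have hHs : ∀ (l : ℕ) (h : H), h ∈ D.O ^ l →
      Real.sqrt (ns D (fun x => tau h f x - f x)) ≤ Real.sqrt Ca * l * R := by
    intro l h hh
    have h1 := Real.sqrt_le_sqrt (hH l h hh)
    have e1 : Real.sqrt (Ca * (l : ℝ) ^ 2 * Δ1) = Real.sqrt Ca * l * Real.sqrt Δ1 := by
      rw [Real.sqrt_mul (by positivity), Real.sqrt_mul hCa, Real.sqrt_sq (by positivity)]
    rw [e1] at h1
    exact h1.trans (mul_le_mul_of_nonneg_left hR1 (by positivity))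
  have hTs : Real.sqrt (ns D (fun x => TTJ D f x - f x)) ≤ Real.sqrt Ca * R := by
    have h1 : ns D (fun x => TTJ D f x - f x) ≤ Ca * Δ1 := by
      refine al_TT P H hi hB hT D hD f hf _ fun v hv => ?_
      have := hH 1 v (by rw [pow_one]; exact hv)
      simpa using this
    have h2 := Real.sqrt_le_sqrt h1
    rw [Real.sqrt_mul hCa] at h2
    exact h2.trans (mul_le_mul_of_nonneg_left hR1 (Real.sqrt_nonneg _))
  have hsymm : ∀ g g' : P × H → ℝ, ns D (fun x => g x - g' x) = ns D (fun x => g' x - g x) := by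
    intro g g'
    unfold ns ip
    congr 1
    funext x
    ring
  have htri : ∀ g1 g2 : P × H → ℝ, BI D g1 → BI D g2 → ∀ A B : ℝ,
      Real.sqrt (ns D g1) ≤ A → Real.sqrt (ns D g2) ≤ B →
      Real.sqrt (ns D fun x => g1 x + g2 x) ≤ A + B := by
    intro g1 g2 h1 h2 A B hA hB'
    exact (b12 g1 g2 h1 h2).trans (add_le_add hA hB')
  -- one step along `P`
  have hone : ∀ g ∈ X.E, Real.sqrt (ns D fun x => rho g f x - f x) ≤ C1 * R := by
    rintro g ⟨e, he, s, hs, rfl⟩
    have h1 := Real.sqrt_le_sqrt (hE e he s hs)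
    rw [Real.sqrt_mul hCp] at h1
    have h2 : Real.sqrt (ns D fun x => rho (e s) (TTJ D f) x - TTJ D f x) ≤ Real.sqrt Cp * R :=
      h1.trans (mul_le_mul_of_nonneg_left hR2 (Real.sqrt_nonneg _))
    have hd : BI D (fun x => f x - TTJ D f x) := (b1 _ _ hf hTf).2
    have h3 : Real.sqrt (ns D (rho (e s) (fun x => f x - TTJ D f x))) ≤ Real.sqrt Ca * R := by
      rw [p2 _ _ hd, hsymm]
      exact hTs
    have e1 : (fun x => rho (e s) f x - f x) = fun x =>
        (fun x => rho (e s) (fun x => f x - TTJ D f x) x +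
          (fun x => rho (e s) (TTJ D f) x - TTJ D f x) x) x + (fun x => TTJ D f x - f x) x := by
      funext x
      simp only [rho]
      ring
    have i1 : BI D (rho (e s) (fun x => f x - TTJ D f x)) := p1 _ _ hd
    have i2 : BI D (fun x => rho (e s) (TTJ D f) x - TTJ D f x) := (b1 _ _ (p1 _ _ hTf) hTf).2
    have i3 : BI D (fun x => TTJ D f x - f x) := (b1 _ _ hTf hf).2
    rw [e1]
    refine (htri _ _ (b1 _ _ i1 i2).1 i3 _ _ (htri _ _ i1 i2 _ _ h3 h2) hTs).trans (le_of_eq ?_)
    rw [hC1]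
    ring
  have hmany : ∀ (l : ℕ) (g : P), g ∈ X.E ^ l →
      Real.sqrt (ns D fun x => rho g f x - f x) ≤ l * (C1 * R) := by
    intro l
    induction l with
    | zero =>
      intro g hg
      rw [pow_zero, Set.mem_one] at hg
      subst hg
      have e1 : (fun x => rho (1 : P) f x - f x) = fun x => (0 : ℝ) * f x := by
        funext x
        rw [p6]
        ring
      have e2 : ns D (fun x => rho (1 : P) f x - f x) = 0 := by
        rw [e1]
        unfold ns
        rw [b9, zero_mul]
      rw [e2, Real.sqrt_zero]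
      simp
    | succ l ih =>
      intro g hg
      rw [pow_succ] at hg
      obtain ⟨g', hg', o, ho, rfl⟩ := Set.mem_mul.mp hg
      have e1 : (fun x => rho (g' * o) f x - f x) =
          fun x => rho g' (fun x => rho o f x - f x) x + (fun x => rho g' f x - f x) x := by
        funext x
        rw [← p7]
        simp only [rho]
        ring
      have i1 : BI D (fun x => rho o f x - f x) := (b1 _ _ (p1 o f hf) hf).2
      have i2 : BI D (fun x => rho g' f x - f x) := (b1 _ _ (p1 g' f hf) hf).2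
      rw [e1]
      refine (htri _ _ (p1 g' _ i1) i2 (C1 * R) (l * (C1 * R)) ?_ (ih g' hg')).trans
        (le_of_eq ?_)
      · rw [p2 _ _ i1]
        exact hone o ho
      · push_cast
        ring
  -- conclusion
  have e1 : (fun x => f (x * (q, h)) - f x) =
      fun x => rho q (fun x => tau h f x - f x) x + (fun x => rho q f x - f x) x := by
    funext x
    have h1 := congrFun (p8 q h f) x
    simp only [rho, tau] at h1 ⊢
    rw [← h1]
    ring
  have i1 : BI D (fun x => tau h f x - f x) := (b1 _ _ (c3 h f hf) hf).2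
  have i2 : BI D (fun x => rho q f x - f x) := (b1 _ _ (p1 q f hf) hf).2
  have h1 : Real.sqrt (ns D fun x => f (x * (q, h)) - f x) ≤
      Real.sqrt Ca * b * R + L * (C1 * R) := by
    rw [e1]
    refine htri _ _ (p1 q _ i1) i2 _ _ ?_ (hmany L q (hL hq))
    rw [p2 _ _ i1]
    exact hHs b h hh
  have h2 : ns D (fun x => f (x * (q, h)) - f x) ≤
      (Real.sqrt Ca * b * R + L * (C1 * R)) ^ 2 := by
    rw [← Real.sq_sqrt (b10 fun x => f (x * (q, h)) - f x)]
    exact pow_le_pow_left₀ (Real.sqrt_nonneg _) h1 2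
  refine h2.trans (le_of_eq ?_)
  have e2 : Real.sqrt Ca * b * R + L * (C1 * R) = (Real.sqrt Ca * b + L * C1) * R := by ring
  rw [e2, mul_pow, hR, Real.sq_sqrt (by linarith), hΔ]

end Pool.Agent.MPEF.U
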